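import Pool.Agent.ANS.FormM.Comp

/-! # ANS FORMM OUT: use of the form functional (helper22)

`outM`: `GamM ≤ 1` and the diagonal entries within `a` give `FormLe B (θ + 2 C a)`.  For `v = uc u`:
`Rf⁻¹ v = fv u`, `rq v = ∑ fv u · uc u`, and the closed formula. -/

set_option autoImplicit false
set_option linter.unusedSectionVars false

open Finset Function Matrix
open Pool.Agent.APS (tr0 tr1 tr2 trw OpLe)

noncomputable section

namespace Pool.Agent.ANS.FormM

open Pool.Agent.Kin Pool.Agent.APS Pool.Agent.ANL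
open Pool.Agent.ANS.FA (et Qp ev Tf al)

variable {T D : Type} [Fintype T] [DecidableEq T]

theorem aw_bt (P : Stp T D) (s : T → Option D) (x : T) : P.aw s x = bt P.H P.b (P.bs s) x := by
  unfold Stp.aw bt
  rw [et_bs, et_b, gam_b]

theorem Qm_sum {P : Stp T D} {s : T → Option D} (h : Adm P.H (P.bs s)) (v : T → ℝ) (x : T) :
    ∑ y, P.Qm s x y * v y = fv P.H (P.bs s) v x := by
  rw [fv_ward h]
  have e2 : ∀ y, P.Qm s x y * v y =
      (if x = y then (P.eta s x * P.io s x) * v y else 0) -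
        P.eta s x * (‖rsc P.H (P.bs s) x y‖ ^ 2 * (et (P.bs s) y * v y)) := by
    intro y
    have e3 : P.Qm s x y = (if x = y then P.eta s x * P.io s x else 0) -
      P.eta s x * ‖rsc P.H (P.bs s) x y‖ ^ 2 * et (P.bs s) y := rfl
    rw [e3]
    by_cases hxy : x = y
    · rw [if_pos hxy, if_pos hxy]
      ring
    · rw [if_neg hxy, if_neg hxy]
      ring
  simp only [e2, Finset.sum_sub_distrib]
  rw [Finset.sum_ite_eq Finset.univ x (fun y => (P.eta s x * P.io s x) * v y),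
    if_pos (Finset.mem_univ x), ← Finset.mul_sum, gam_s, et_bs]
  ring

theorem QB_mul {P : Stp T D} {s : T → Option D} (h : Adm P.H (P.bs s)) (B : Finset T)
    (v : ↥B → ℝ) (x : ↥B) : (P.QB B s *ᵥ v) x = fv P.H (P.bs s) (xt B v) x.1 := by
  rw [← Qm_sum h, sum_xt B (fun y => P.Qm s x.1 y * xt B v y) fun y hy => by
    rw [xt_off B v y hy, mul_zero]]
  unfold mulVec dotProduct
  refine Finset.sum_congr rfl fun y _ => ?_
  rw [xt_on]
  rfl

variable [Fintype D] {P : Stp T D} {ok : T → Option D → Prop} {X N B : Finset T} {c be : T → ℝ}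
  {e : T → Option D → ℝ} {C Lm : ℝ}

section

variable (h : P.OkB ok X N c be e C Lm)
include h

theorem Rf_pd (hpd : (P.QB B nil).PosDef) (s : T → Option D) : (P.Rf B s).PosDef := by
  unfold Stp.Rf
  refine hpd.inv.add_posSemidef (Matrix.posSemidef_diagonal_iff.2 fun w => ?_)
  rw [aw_bt]
  exact (dat h s).bt0 _

/-- `Rf (fv u) = uc u` -/
theorem Rf_mul (hpd : (P.QB B nil).PosDef) (s : T → Option D) {u : T → ℝ}
    (hu : ∀ x, x ∉ B → u x = 0) :
    P.Rf B s *ᵥ (fun x : ↥B => fv P.H P.b u x) = fun x : ↥B => uc P.H P.b (P.bs s) u x := by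
  have h1 : (fun x : ↥B => fv P.H P.b u x) = P.QB B nil *ᵥ (fun x : ↥B => u x) := by
    funext x
    rw [QB_mul (h.adms nil), bs_nil, xt_res B hu]
  have h2 : (P.QB B nil)⁻¹ *ᵥ (P.QB B nil *ᵥ (fun x : ↥B => u x)) = fun x : ↥B => u x := by
    rw [mulVec_mulVec, nonsing_inv_mul _ (Matrix.isUnit_iff_isUnit_det _ |>.1 hpd.isUnit),
      one_mulVec]
  unfold Stp.Rf
  rw [add_mulVec]
  conv_lhs => rw [h1, h2]
  rw [← h1]
  funext x
  rw [Pi.add_apply, mulVec_diagonal, Dat.uc_bt, aw_bt]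

/-- `rq (uc u) = ∑ fv u · uc u` -/
theorem rq_uc (hNB : N ⊆ B) (hpd : (P.QB B nil).PosDef) (s : T → Option D) {u : T → ℝ}
    (hu : ∀ x, x ∉ B → u x = 0) :
    P.rq B s (uc P.H P.b (P.bs s) u) =
      ∑ x, fv P.H P.b u x * uc P.H P.b (P.bs s) u x := by
  have h1 : (P.Rf B s)⁻¹ *ᵥ (fun x : ↥B => uc P.H P.b (P.bs s) u x) =
      fun x : ↥B => fv P.H P.b u x := by
    rw [← Rf_mul h hpd s hu, mulVec_mulVec,
      nonsing_inv_mul _ (Matrix.isUnit_iff_isUnit_det _ |>.1 (Rf_pd h hpd s).isUnit), one_mulVec]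
  unfold Stp.rq
  rw [h1]
  have h2 : ∀ x, x ∉ B → uc P.H P.b (P.bs s) u x = 0 := fun x hx => by
    rw [Dat.uc_bt, Dat.bt_off (dat_off h hNB s x hx), hu x hx, zero_mul, zero_add]
  rw [sum_xt B (fun x => fv P.H P.b u x * uc P.H P.b (P.bs s) u x) fun x hx => by
    rw [h2 x hx, mul_zero]]
  unfold dotProduct
  refine Finset.sum_congr rfl fun x _ => ?_
  ring

/-- USE of the form functional -/
theorem outM (hNB : N ⊆ B) (hpd : (P.QB B nil).PosDef) {θ a : ℝ} (hθ : 0 < θ)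
    (ha0 : 0 ≤ a) {p : ℕ} (hp : 1 ≤ p) {s : T → Option D}
    (hdia : ∀ x ∈ X, ‖P.G s x x - P.G nil x x‖ ≤ a) (hs : GamM P ok B θ p s ≤ 1) :
    P.FormLe B (θ + 2 * C * a) s := by
  intro v hv
  have hd := dat h s
  obtain ⟨u, hu, huv⟩ := hd.surj (dat_off h hNB s) (dat_pd h hpd) v hv
  have huv' : uc P.H P.b (P.bs s) u = v := funext huv
  have hC := h.C1
  rw [← huv', rq_uc h hNB hpd s hu, qf_qp (h.adms s)]
  set Ns := ∑ x, fv P.H P.b u x * uc P.H P.b (P.bs s) u x with hNs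
  have h1 := hd.closed u u
  rw [qb_self, ← hNs] at h1
  have h2 := GamM_bd h hpd hθ hp hs u u hu hu
  have h3 := hd.ni_le u
  rw [← hNs] at h3
  have h4 := hd.ni0 u
  have h5 : |Mf P.H P.b (P.bs s) u u| ≤ θ * Ns := by
    have e1 : θ ^ 2 * (NI P.H P.b (P.bs s) (inr ok s) u * NI P.H P.b (P.bs s) (inr ok s) u) =
        (θ * NI P.H P.b (P.bs s) (inr ok s) u) ^ 2 := by ring
    rw [e1] at h2
    exact (abs_le_of_sq_le_sq h2 (mul_nonneg hθ.le h4)).trans
      (mul_le_mul_of_nonneg_left h3 hθ.le)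
  have h6 : ∑ x, et (P.bs s) x * gam P.H P.b x * dl P.H P.b (P.bs s) u x ^ 2 ≤ 2 * Ns := by
    simp only [hd.dl_site, Finset.sum_add_distrib]
    have e1 := hd.f_sq u
    have e2 := hd.fuc u
    rw [← hNs] at e2
    have e3 : 0 ≤ ∑ x, bt P.H P.b (P.bs s) x * fv P.H P.b u x ^ 2 :=
      Finset.sum_nonneg fun x _ => mul_nonneg (hd.bt0 x) (sq_nonneg _)
    linarith
  have h7 : |∑ x, (gam P.H (P.bs s) x - gam P.H P.b x) *
      (et (P.bs s) x * (dl P.H P.b (P.bs s) u x * dl P.H P.b (P.bs s) u x))| ≤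
      2 * C * a * Ns := by
    have e1 : |∑ x, (gam P.H (P.bs s) x - gam P.H P.b x) *
        (et (P.bs s) x * (dl P.H P.b (P.bs s) u x * dl P.H P.b (P.bs s) u x))| ≤
        C * a * ∑ x, et (P.bs s) x * gam P.H P.b x * dl P.H P.b (P.bs s) u x ^ 2 := by
      rw [Finset.mul_sum]
      refine (Finset.abs_sum_le_sum_abs _ _).trans (Finset.sum_le_sum fun x _ => ?_)
      have f1 : 0 ≤ et (P.bs s) x * dl P.H P.b (P.bs s) u x ^ 2 :=
        mul_nonneg (FA.et0 hd.a1 x) (sq_nonneg _)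
      have f2 : (gam P.H (P.bs s) x - gam P.H P.b x) *
          (et (P.bs s) x * (dl P.H P.b (P.bs s) u x * dl P.H P.b (P.bs s) u x)) =
          (gam P.H (P.bs s) x - gam P.H P.b x) *
            (et (P.bs s) x * dl P.H P.b (P.bs s) u x ^ 2) := by ring
      rw [f2, abs_mul, abs_of_nonneg f1]
      rcases eq_or_ne (et P.b x) 0 with hx | hx
      · rw [hd.eq0 x hx]
        simp
      · have f3 := dat_a h hdia x hx
        have f4 := hd.io x hx
        calc |gam P.H (P.bs s) x - gam P.H P.b x| * (et (P.bs s) x * dl P.H P.b (P.bs s) u x ^ 2)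
            ≤ a * (et (P.bs s) x * dl P.H P.b (P.bs s) u x ^ 2) :=
              mul_le_mul_of_nonneg_right f3 f1
          _ ≤ a * (et (P.bs s) x * dl P.H P.b (P.bs s) u x ^ 2) * (C * gam P.H P.b x) :=
              le_mul_of_one_le_right (mul_nonneg ha0 f1) f4
          _ = _ := by ring
    have e2 := mul_le_mul_of_nonneg_left h6 (show 0 ≤ C * a by positivity)
    linarith
  have h8 := abs_le.1 h5
  have h9 := abs_le.1 h7
  constructor <;> nlinarith [h8.1, h8.2, h9.1, h9.2]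

end

end Pool.Agent.ANS.FormM
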