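import Pool.Agent.ANS.FormAbs

/-! # ANS FORMM ALG: the functional `M` under the replacement of one value (exact)

`G` symmetric, Ward `∑_y η_y G_wy conj G_xy = Im G_xw`, `G' = G - ρ G e_w e_wᵀ G`, `η' = η + δ 1_w`,
`δ |1 - ρ G_ww|² = - Im ρ - |ρ|² Γ_w` (`Γ = Im G_ww`).  For fixed `f, φ, f', φ'`, `p = f + η φ`,
`M = ∑ |G_xy|² p_x p'_y - ∑ Γ_x (f φ' + f' φ + η φ φ')_x`.

`e3`: `M' - M = -2 Re (ρ T_w) + |ρ|² Π_w Π'_w - Im ρ D_w`, all at the old `G, η`. -/

set_option autoImplicit false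

open Matrix Finset

noncomputable section

namespace Pool.Agent.ANS.FormM

open Pool.Agent.Kin Pool.Agent.APS Pool.Agent.ANL

variable {ι : Type} [Fintype ι] [DecidableEq ι]

/-- the functional without normalisation -/
def Mr (G : Matrix ι ι ℂ) (η f φ f' φ' : ι → ℝ) : ℝ :=
  ∑ x, ∑ y, ‖G x y‖ ^ 2 * ((f x + η x * φ x) * (f' y + η y * φ' y)) -
    ∑ x, (G x x).im * (f x * φ' x + f' x * φ x + η x * (φ x * φ' x))

/-- `∑_xy p_x q_y G_xw G_wy conj G_xy` -/
def Aw (G : Matrix ι ι ℂ) (w : ι) (p q : ι → ℝ) : ℂ :=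
  ∑ x, ∑ y, ((p x * q y : ℝ) : ℂ) * (G x w * G w y * star (G x y))

/-- `Π_w = ∑_y |G_wy|² p_y - Γ_w φ_w` -/
def Pi' (G : Matrix ι ι ℂ) (η f φ : ι → ℝ) (w : ι) : ℝ :=
  ∑ y, ‖G w y‖ ^ 2 * (f y + η y * φ y) - (G w w).im * φ w

/-- the trilinear form `Tf` -/
def Tq (G : Matrix ι ι ℂ) (η : ι → ℝ) (w : ι) (u v : ι → ℝ) : ℂ :=
  (1 / 2 : ℂ) * ∑ x, ∑ y, ((η x * η y * (u x - u y) * (v x - v y) : ℝ) : ℂ) *
    (G x w * G w y * star (G x y))

/-- `T_w` -/
def Tw' (G : Matrix ι ι ℂ) (η : ι → ℝ) (w : ι) (φ δ φ' δ' : ι → ℝ) : ℂ :=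
  -Tq G η w (fun x => φ x + δ x) (fun x => φ' x + δ' x) +
    ∑ x, ((η x * (δ x * δ' x) : ℝ) : ℂ) * (G x w * ((G x w).im : ℂ))

/-- `D_w` -/
def Dw' (G : Matrix ι ι ℂ) (η : ι → ℝ) (w : ι) (φ δ φ' δ' : ι → ℝ) : ℝ :=
  ∑ x, η x * ‖G x w‖ ^ 2 * (δ x * δ' x -
    (φ x + δ x - φ w) * (φ' x + δ' x - φ' w))

/-- the Ward identity -/
theorem ward2 {H : Matrix ι ι ℂ} {b : ι → ℂ} (h : Adm H b) (x w : ι) :
    ∑ y, ((FA.et b y : ℝ) : ℂ) * (rsc H b w y * star (rsc H b x y)) =
      ((rsc H b x w).im : ℂ) := by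
  set G := rsc H b with hG
  set Gc : Matrix ι ι ℂ := fun x y => star (G x y) with hGc
  have hs : ∀ x y, G x y = G y x := fun x y => adm_symm h x y
  have hM : (H + diagonal b) * G = 1 := adm_mul h
  have hM' : G * (H + diagonal b) = 1 := adm_mul' h
  have hMc : (H + diagonal (fun x => star (b x))) * Gc = 1 := by
    ext i j
    have h1 := congrFun (congrFun hM i) j
    rw [Matrix.mul_apply] at h1
    rw [Matrix.mul_apply]
    have h2 := congrArg star h1
    rw [star_sum] at h2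
    have h3 : star ((1 : Matrix ι ι ℂ) i j) = (1 : Matrix ι ι ℂ) i j := by
      by_cases hij : i = j
      · subst hij
        simp
      · rw [Matrix.one_apply_ne hij, star_zero]
    rw [h3] at h2
    rw [← h2]
    refine Finset.sum_congr rfl fun y _ => ?_
    rw [star_mul', Matrix.add_apply, Matrix.add_apply, star_add]
    have h4 : star (H i y) = H i y := Complex.conj_eq_iff_im.2 (h.sym.real i y)
    have h5 : star (diagonal b i y) = diagonal (fun x => star (b x)) i y := by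
      by_cases hij : i = y
      · subst hij
        simp
      · rw [diagonal_apply_ne _ hij, diagonal_apply_ne _ hij, star_zero]
    rw [h4, h5]
  have h1 : G - Gc = G * diagonal (fun x => star (b x) - b x) * Gc := by
    have e1 : diagonal (fun x => star (b x) - b x) =
        (H + diagonal (fun x => star (b x))) - (H + diagonal b) := by
      rw [add_sub_add_left_eq_sub, Matrix.diagonal_sub]
    rw [e1, mul_sub, sub_mul, hM', one_mul, mul_assoc, hMc, mul_one]
  have h2 := congrFun (congrFun h1 w) x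
  rw [Matrix.sub_apply, Matrix.mul_apply] at h2
  have h3 : G w x - Gc w x = 2 * Complex.I * ((G x w).im : ℂ) := by
    rw [hGc]
    simp only
    rw [hs w x]
    apply Complex.ext <;> simp
    ring
  have h4 : ∀ y, (G * diagonal (fun x => star (b x) - b x)) w y * Gc y x =
      2 * Complex.I * (((FA.et b y : ℝ) : ℂ) * (G w y * star (G x y))) := by
    intro y
    rw [Matrix.mul_diagonal]
    have e1 : star (b y) - b y = 2 * Complex.I * ((FA.et b y : ℝ) : ℂ) := by
      unfold FA.et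
      apply Complex.ext <;> simp
      ring
    rw [e1, hGc]
    simp only
    rw [hs y x]
    ring
  rw [h3, Finset.sum_congr rfl fun y _ => h4 y, ← Finset.mul_sum] at h2
  have h5 : (2 * Complex.I : ℂ) ≠ 0 := by simp
  exact (mul_left_cancel₀ h5 h2).symm

section alg

variable {G G' : Matrix ι ι ℂ} {η η' : ι → ℝ} {w : ι} {ρ : ℂ} {δw : ℝ}

theorem nsq (a b : ℂ) : ‖a - b‖ ^ 2 = ‖a‖ ^ 2 - 2 * (b * star a).re + ‖b‖ ^ 2 := by
  rw [← Complex.normSq_eq_norm_sq, ← Complex.normSq_eq_norm_sq, ← Complex.normSq_eq_norm_sq,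
    Complex.normSq_apply, Complex.normSq_apply, Complex.normSq_apply]
  simp only [Complex.mul_re, Complex.sub_re, Complex.sub_im, RCLike.star_def, Complex.conj_re,
    Complex.conj_im]
  ring

omit [DecidableEq ι] in
/-- `A_w` through `Tq` and Ward -/
theorem aw_eq (hs : ∀ x y, G x y = G y x)
    (hW : ∀ x w, ∑ y, ((η y : ℝ) : ℂ) * (G w y * star (G x y)) = ((G x w).im : ℂ)) (w : ι)
    (u v : ι → ℝ) :
    Aw G w (fun x => η x * u x) (fun x => η x * v x) =
      -Tq G η w u v + ∑ x, ((η x * (u x * v x) : ℝ) : ℂ) * (G x w * ((G x w).im : ℂ)) := by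
  set g : ι → ι → ℂ := fun x y => G x w * G w y * star (G x y) with hg
  set A1 : ℂ := ∑ x, ∑ y, ((η x * η y * (u x * v x) : ℝ) : ℂ) * g x y with hA1
  set A2 : ℂ := ∑ x, ∑ y, ((η x * η y * (u y * v y) : ℝ) : ℂ) * g x y with hA2
  set B1 : ℂ := ∑ x, ∑ y, ((η x * η y * (u x * v y) : ℝ) : ℂ) * g x y with hB1
  set B2 : ℂ := ∑ x, ∑ y, ((η x * η y * (u y * v x) : ℝ) : ℂ) * g x y with hB2
  have hT : Tq G η w u v = (1 / 2 : ℂ) * (A1 - B1 - B2 + A2) := by
    unfold Tq
    congr 1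
    rw [hA1, hA2, hB1, hB2]
    simp only [← Finset.sum_add_distrib, ← Finset.sum_sub_distrib]
    refine Finset.sum_congr rfl fun x _ => Finset.sum_congr rfl fun y _ => ?_
    simp only [hg]
    push_cast
    ring
  have hB : Aw G w (fun x => η x * u x) (fun x => η x * v x) = B1 := by
    unfold Aw
    rw [hB1]
    refine Finset.sum_congr rfl fun x _ => Finset.sum_congr rfl fun y _ => ?_
    simp only [hg]
    push_cast
    ring
  have hgs : ∀ x y, g x y = G x w * G w y * star (G x y) := fun x y => rfl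
  have hgsym : ∀ x y, g y x = g x y := by
    intro x y
    rw [hgs, hgs, hs y w, hs w x, hs y x]
    ring
  have hA : A2 = A1 := by
    rw [hA1, hA2, Finset.sum_comm]
    refine Finset.sum_congr rfl fun x _ => Finset.sum_congr rfl fun y _ => ?_
    rw [hgsym x y]
    push_cast
    ring
  have hBB : B2 = B1 := by
    rw [hB1, hB2, Finset.sum_comm]
    refine Finset.sum_congr rfl fun x _ => Finset.sum_congr rfl fun y _ => ?_
    rw [hgsym x y]
    push_cast
    ring
  have hA1' : A1 = ∑ x, ((η x * (u x * v x) : ℝ) : ℂ) * (G x w * ((G x w).im : ℂ)) := by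
    rw [hA1]
    refine Finset.sum_congr rfl fun x _ => ?_
    rw [← hW x w, Finset.mul_sum, Finset.mul_sum]
    refine Finset.sum_congr rfl fun y _ => ?_
    simp only [hg]
    push_cast
    ring
  rw [hB, hT, hA, hBB, ← hA1']
  ring

/-- THE EXACT FORMULA -/
theorem e3 (hs : ∀ x y, G x y = G y x)
    (hW : ∀ x w, ∑ y, ((η y : ℝ) : ℂ) * (G w y * star (G x y)) = ((G x w).im : ℂ))
    (hG : ∀ x y, G' x y = G x y - ρ * (G x w * G w y))
    (hη : ∀ x, η' x = η x + if x = w then δw else 0)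
    (hδ : δw * ‖1 - ρ * G w w‖ ^ 2 = -ρ.im - ‖ρ‖ ^ 2 * (G w w).im)
    (f φ δ f' φ' δ' : ι → ℝ) (hf : ∀ x, f x = η x * δ x) (hf' : ∀ x, f' x = η x * δ' x) :
    Mr G' η' f φ f' φ' - Mr G η f φ f' φ' =
      -2 * (ρ * Tw' G η w φ δ φ' δ').re + ‖ρ‖ ^ 2 * (Pi' G η f φ w * Pi' G η f' φ' w) -
        ρ.im * Dw' G η w φ δ φ' δ' := by
  set uc : ι → ℝ := fun x => φ x + δ x with huc
  set vc : ι → ℝ := fun x => φ' x + δ' x with hvc
  have hp : ∀ x, f x + η x * φ x = η x * uc x := fun x => by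
    rw [hf x, huc]
    ring
  have hq : ∀ x, f' x + η x * φ' x = η x * vc x := fun x => by
    rw [hf' x, hvc]
    ring
  have hp' : ∀ x, f x + η' x * φ x = η x * uc x + if x = w then δw * φ w else 0 := fun x => by
    rw [hη x, ← hp x]
    split_ifs with h
    · rw [h]
      ring
    · ring
  have hq' : ∀ x, f' x + η' x * φ' x = η x * vc x + if x = w then δw * φ' w else 0 := fun x => by
    rw [hη x, ← hq x]
    split_ifs with h
    · rw [h]
      ring
    · ring
  set sp : ℝ := ∑ y, ‖G w y‖ ^ 2 * (η y * uc y) with hsp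
  set sv : ℝ := ∑ y, ‖G w y‖ ^ 2 * (η y * vc y) with hsv
  set zz : ℝ := ‖1 - ρ * G w w‖ ^ 2 with hzz
  set k : ι → ℝ := fun x => f x * φ' x + f' x * φ x + η x * (φ x * φ' x) with hk
  set A : ℂ := Aw G w (fun x => η x * uc x) (fun x => η x * vc x) with hA
  -- rows of the new matrix
  have hrow : ∀ y, ‖G' w y‖ ^ 2 = zz * ‖G w y‖ ^ 2 := fun y => by
    rw [hG w y, hzz]
    have e : G w y - ρ * (G w w * G w y) = (1 - ρ * G w w) * G w y := by ring
    rw [e, norm_mul, mul_pow]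
  have hrow' : ∀ x, ‖G' x w‖ ^ 2 = zz * ‖G w x‖ ^ 2 := fun y => by
    rw [hG y w, hzz, hs y w]
    have e : G w y - ρ * (G w y * G w w) = (1 - ρ * G w w) * G w y := by ring
    rw [e, norm_mul, mul_pow]
  -- the main double sum
  have h1 : ∑ x, ∑ y, ‖G' x y‖ ^ 2 * ((η x * uc x) * (η y * vc y)) =
      ∑ x, ∑ y, ‖G x y‖ ^ 2 * ((η x * uc x) * (η y * vc y)) - 2 * (ρ * A).re +
        ‖ρ‖ ^ 2 * (sp * sv) := by
    have e1 : ∀ x y, ‖G' x y‖ ^ 2 * ((η x * uc x) * (η y * vc y)) =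
        ‖G x y‖ ^ 2 * ((η x * uc x) * (η y * vc y)) -
        2 * (ρ * ((((η x * uc x) * (η y * vc y) : ℝ) : ℂ) *
          (G x w * G w y * star (G x y)))).re +
        ‖ρ‖ ^ 2 * ((‖G w x‖ ^ 2 * (η x * uc x)) * (‖G w y‖ ^ 2 * (η y * vc y))) := by
      intro x y
      rw [hG x y, nsq, norm_mul, norm_mul, hs x w]
      have e2 : (ρ * ((((η x * uc x) * (η y * vc y) : ℝ) : ℂ) *
          (G w x * G w y * star (G x y)))).re =
          ((η x * uc x) * (η y * vc y)) * (ρ * (G w x * G w y) * star (G x y)).re := by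
        rw [← Complex.re_ofReal_mul]
        congr 1
        ring
      rw [e2]
      ring
    have e3 : ∀ x, ∑ y, ‖G' x y‖ ^ 2 * ((η x * uc x) * (η y * vc y)) =
        ∑ y, ‖G x y‖ ^ 2 * ((η x * uc x) * (η y * vc y)) -
        2 * (ρ * ∑ y, ((((η x * uc x) * (η y * vc y) : ℝ) : ℂ) *
          (G x w * G w y * star (G x y)))).re +
        ‖ρ‖ ^ 2 * ((‖G w x‖ ^ 2 * (η x * uc x)) * sv) := by
      intro x
      rw [Finset.sum_congr rfl fun y _ => e1 x y, Finset.sum_add_distrib,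
        Finset.sum_sub_distrib, hsv]
      simp only [Finset.mul_sum, Complex.re_sum]
    rw [Finset.sum_congr rfl fun x _ => e3 x, Finset.sum_add_distrib, Finset.sum_sub_distrib]
    congr 1
    · congr 1
      rw [hA]
      unfold Aw
      simp only [Finset.mul_sum, Complex.re_sum]
    · rw [hsp]
      simp only [Finset.sum_mul, Finset.mul_sum]
  have h2 : ∑ x, ∑ y, ‖G' x y‖ ^ 2 * ((f x + η' x * φ x) * (f' y + η' y * φ' y)) =
      ∑ x, ∑ y, ‖G' x y‖ ^ 2 * ((η x * uc x) * (η y * vc y)) +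
        zz * (δw * φ w * sv + δw * φ' w * sp + δw ^ 2 * (φ w * φ' w) * ‖G w w‖ ^ 2) := by
    have e1 : ∀ x y, ‖G' x y‖ ^ 2 * ((f x + η' x * φ x) * (f' y + η' y * φ' y)) =
        ‖G' x y‖ ^ 2 * ((η x * uc x) * (η y * vc y)) +
        (if x = w then δw * φ w * (zz * (‖G w y‖ ^ 2 * (η y * vc y))) else 0) +
        (if y = w then δw * φ' w * (zz * (‖G w x‖ ^ 2 * (η x * uc x))) else 0) +
        (if y = w then (if x = w then δw ^ 2 * (φ w * φ' w) * (zz * ‖G w w‖ ^ 2) else 0)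
          else 0) := by
      intro x y
      rw [hp' x, hq' y]
      by_cases hx : x = w
      · by_cases hy : y = w
        · rw [if_pos hx, if_pos hy, if_pos hx, if_pos hy, if_pos hy, if_pos hx, hx, hy, hrow w]
          ring
        · rw [if_pos hx, if_neg hy, if_pos hx, if_neg hy, if_neg hy, hx, hrow y]
          ring
      · by_cases hy : y = w
        · rw [if_neg hx, if_pos hy, if_neg hx, if_pos hy, if_pos hy, if_neg hx, hy, hrow' x]
          ring
        · rw [if_neg hx, if_neg hy, if_neg hx, if_neg hy, if_neg hy]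
          ring
    simp only [e1, Finset.sum_add_distrib]
    have e2 : ∑ x, ∑ y, (if x = w then δw * φ w * (zz * (‖G w y‖ ^ 2 * (η y * vc y))) else 0) =
        zz * (δw * φ w * sv) := by
      rw [Finset.sum_comm]
      simp only [Finset.sum_ite_eq', Finset.mem_univ, if_true]
      rw [hsv]
      simp only [Finset.mul_sum]
      refine Finset.sum_congr rfl fun y _ => ?_
      ring
    have e3 : ∑ x, ∑ y, (if y = w then δw * φ' w * (zz * (‖G w x‖ ^ 2 * (η x * uc x))) else 0) =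
        zz * (δw * φ' w * sp) := by
      simp only [Finset.sum_ite_eq', Finset.mem_univ, if_true]
      rw [hsp]
      simp only [Finset.mul_sum]
      refine Finset.sum_congr rfl fun y _ => ?_
      ring
    have e4 : ∑ x, ∑ y, (if y = w then (if x = w then
        δw ^ 2 * (φ w * φ' w) * (zz * ‖G w w‖ ^ 2) else 0) else 0) =
        zz * (δw ^ 2 * (φ w * φ' w) * ‖G w w‖ ^ 2) := by
      simp only [Finset.sum_ite_eq', Finset.mem_univ, if_true]
      ring
    rw [e2, e3, e4]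
    ring
  -- the diagonal sum
  have h3 : ∑ x, (G' x x).im * (f x * φ' x + f' x * φ x + η' x * (φ x * φ' x)) =
      ∑ x, (G x x).im * k x - ∑ x, (ρ * G x w ^ 2).im * k x +
        ((G w w).im - (ρ * G w w ^ 2).im) * (δw * (φ w * φ' w)) := by
    have e1 : ∀ x, (G' x x).im * (f x * φ' x + f' x * φ x + η' x * (φ x * φ' x)) =
        (G x x).im * k x - (ρ * G x w ^ 2).im * k x +
        (if x = w then ((G w w).im - (ρ * G w w ^ 2).im) * (δw * (φ w * φ' w)) else 0) := by
      intro x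
      have e2 : (G' x x).im = (G x x).im - (ρ * G x w ^ 2).im := by
        rw [hG x x, hs w x, Complex.sub_im]
        congr 2
        ring
      rw [e2, hη x, hk]
      by_cases hx : x = w
      · rw [if_pos hx, if_pos hx, hx]
        ring
      · rw [if_neg hx, if_neg hx]
        ring
    rw [Finset.sum_congr rfl fun x _ => e1 x, Finset.sum_add_distrib, Finset.sum_sub_distrib]
    simp only [Finset.sum_ite_eq', Finset.mem_univ, if_true]
  -- Ward
  have hwd : ∑ x, η x * ‖G x w‖ ^ 2 = (G w w).im := by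
    have e1 := hW w w
    have e2 : ∑ y, ((η y : ℝ) : ℂ) * (G w y * star (G w y)) =
        ((∑ x, η x * ‖G x w‖ ^ 2 : ℝ) : ℂ) := by
      push_cast
      refine Finset.sum_congr rfl fun y _ => ?_
      rw [hs y w, RCLike.star_def, Complex.mul_conj']
    rw [e2] at e1
    exact_mod_cast e1
  have hAq : A = -Tq G η w uc vc +
      ∑ x, ((η x * (uc x * vc x) : ℝ) : ℂ) * (G x w * ((G x w).im : ℂ)) := aw_eq hs hW w uc vc
  -- termwise identity
  have h4 : -2 * (ρ * ∑ x, ((η x * (uc x * vc x) : ℝ) : ℂ) * (G x w * ((G x w).im : ℂ))).re +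
      ∑ x, (ρ * G x w ^ 2).im * k x =
      -2 * (ρ * ∑ x, ((η x * (δ x * δ' x) : ℝ) : ℂ) * (G x w * ((G x w).im : ℂ))).re +
      ρ.im * (∑ x, η x * ‖G x w‖ ^ 2 * (uc x * vc x) - ∑ x, η x * ‖G x w‖ ^ 2 * (δ x * δ' x)) := by
    simp only [Finset.mul_sum, Complex.re_sum, ← Finset.sum_sub_distrib, ← Finset.sum_add_distrib]
    refine Finset.sum_congr rfl fun x _ => ?_
    have e1 : k x = η x * (uc x * vc x - δ x * δ' x) := by
      simp only [hk, huc, hvc, hf x, hf' x]
      ring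
    have e2 : ∀ m : ℝ, (ρ * (((m : ℝ) : ℂ) * (G x w * ((G x w).im : ℂ)))).re =
        m * (ρ * G x w).re * (G x w).im := by
      intro m
      simp only [Complex.mul_re, Complex.mul_im, Complex.ofReal_re, Complex.ofReal_im]
      ring
    have e3 : (ρ * G x w ^ 2).im = (ρ * G x w).re * (G x w).im + (ρ * G x w).im * (G x w).re := by
      rw [sq, ← mul_assoc, Complex.mul_im (ρ * G x w)]
    have e4 : ‖G x w‖ ^ 2 = (G x w).re ^ 2 + (G x w).im ^ 2 := by
      rw [← Complex.normSq_eq_norm_sq, Complex.normSq_apply]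
      ring
    have e5 : (ρ * G x w).im * (G x w).re - (ρ * G x w).re * (G x w).im =
        ρ.im * ((G x w).re ^ 2 + (G x w).im ^ 2) := by
      simp only [Complex.mul_re, Complex.mul_im]
      ring
    rw [e1, e2, e2, e3, e4]
    linear_combination (η x * (uc x * vc x) - η x * (δ x * δ' x)) * e5
  -- the forms in the statement
  have hPi : Pi' G η f φ w = sp - (G w w).im * φ w := by
    unfold Pi'
    rw [hsp]
    congr 1
    refine Finset.sum_congr rfl fun y _ => ?_
    rw [hp y]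
  have hPi' : Pi' G η f' φ' w = sv - (G w w).im * φ' w := by
    unfold Pi'
    rw [hsv]
    congr 1
    refine Finset.sum_congr rfl fun y _ => ?_
    rw [hq y]
  have hD : Dw' G η w φ δ φ' δ' = ∑ x, η x * ‖G x w‖ ^ 2 * (δ x * δ' x) -
      ∑ x, η x * ‖G x w‖ ^ 2 * (uc x * vc x) + φ w * sv + φ' w * sp -
        φ w * φ' w * (G w w).im := by
    unfold Dw'
    rw [hsp, hsv, ← hwd]
    simp only [Finset.mul_sum, ← Finset.sum_sub_distrib, ← Finset.sum_add_distrib]
    refine Finset.sum_congr rfl fun x _ => ?_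
    rw [hs w x]
    simp only [huc, hvc]
    ring
  have hT : Tw' G η w φ δ φ' δ' = -Tq G η w uc vc +
      ∑ x, ((η x * (δ x * δ' x) : ℝ) : ℂ) * (G x w * ((G x w).im : ℂ)) := rfl
  have hreA : (ρ * A).re = -(ρ * Tq G η w uc vc).re +
      (ρ * ∑ x, ((η x * (uc x * vc x) : ℝ) : ℂ) * (G x w * ((G x w).im : ℂ))).re := by
    rw [hAq, mul_add, Complex.add_re, mul_neg, Complex.neg_re]
  have hreT : (ρ * Tw' G η w φ δ φ' δ').re = -(ρ * Tq G η w uc vc).re +
      (ρ * ∑ x, ((η x * (δ x * δ' x) : ℝ) : ℂ) * (G x w * ((G x w).im : ℂ))).re := by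
    rw [hT, mul_add, Complex.add_re, mul_neg, Complex.neg_re]
  have hzz2 : zz = 1 - 2 * (ρ * G w w).re + ‖ρ‖ ^ 2 * ‖G w w‖ ^ 2 := by
    rw [hzz, nsq, norm_mul, mul_pow]
    simp
  have him : (ρ * G w w ^ 2).im = 2 * (ρ * G w w).re * (G w w).im + ρ.im * ‖G w w‖ ^ 2 := by
    rw [← Complex.normSq_eq_norm_sq, Complex.normSq_apply]
    rw [sq, ← mul_assoc, Complex.mul_im (ρ * G w w)]
    simp only [Complex.mul_re, Complex.mul_im]
    ring
  unfold Mr
  have hold : ∑ x, ∑ y, ‖G x y‖ ^ 2 * ((f x + η x * φ x) * (f' y + η y * φ' y)) =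
      ∑ x, ∑ y, ‖G x y‖ ^ 2 * ((η x * uc x) * (η y * vc y)) := by
    refine Finset.sum_congr rfl fun x _ => Finset.sum_congr rfl fun y _ => ?_
    rw [hp x, hq y]
  have hold2 : ∑ x, (G x x).im * (f x * φ' x + f' x * φ x + η x * (φ x * φ' x)) =
      ∑ x, (G x x).im * k x := rfl
  rw [h2, h1, h3, hold, hold2, hPi, hPi', hD, hreT]
  set g : ℝ := (G w w).im with hg
  set S : ℝ := ‖G w w‖ ^ 2 with hS
  set r2 : ℝ := ‖ρ‖ ^ 2 with hr2
  rw [him]
  have h5 := h4
  set B1 := ∑ x, (ρ * G x w ^ 2).im * k x with hB1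
  rw [hreA]
  linear_combination h5 + (φ w * sv + φ' w * sp - g * (φ w * φ' w) +
    δw * (φ w * φ' w) * S) * hδ + (δw * g * (φ w * φ' w)) * hzz2

end alg

end Pool.Agent.ANS.FormM
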