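import Pool.Agent.ANS.JTr
import Pool.Agent.APS.OpLib

/-! # ANS FORMM TRC: contraction of the trace (helper39)

`tr_contr`: `Re Tr (H f H^*)^(2p) <= Re Tr f^(2p)` for hermitian `f` and `OpLe H 1`. -/

set_option autoImplicit false

open Finset Function Matrix
open Pool.Agent.APS (tr0 tr1 tr2 trw OpLe)

noncomputable section

namespace Pool.Agent.ANS.FormM

variable {κ : Type} [Fintype κ] [DecidableEq κ]

private theorem jbspec {f : Matrix κ κ ℂ} (hf : f.IsHermitian) :
    ∃ (l : κ → ℝ) (U : Matrix κ κ ℂ), Uᴴ * U = 1 ∧ U * Uᴴ = 1 ∧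
      f = U * diagonal (fun a => (l a : ℂ)) * Uᴴ := by
  refine ⟨hf.eigenvalues, (hf.eigenvectorUnitary : Matrix κ κ ℂ), ?_, ?_, ?_⟩
  · exact Unitary.coe_star_mul_self hf.eigenvectorUnitary
  · exact Unitary.coe_mul_star_self hf.eigenvectorUnitary
  · have h := hf.spectral_theorem
    rw [Unitary.conjStarAlgAut_apply] at h
    exact h

private theorem jbtr0 {l : κ → ℝ} {U : Matrix κ κ ℂ} (hU : Uᴴ * U = 1) (hU' : U * Uᴴ = 1)
    (n : ℕ) : tr0 n (U * diagonal (fun a => (l a : ℂ)) * Uᴴ) = ∑ a, l a ^ n := by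
  have hpow : ∀ n : ℕ, (U * diagonal (fun a => (l a : ℂ)) * Uᴴ) ^ n =
      U * diagonal (fun a => (l a : ℂ) ^ n) * Uᴴ := by
    intro n
    induction n with
    | zero =>
      simp only [pow_zero]
      have h1 : diagonal (fun _ : κ => (1 : ℂ)) = 1 := diagonal_one
      rw [h1, Matrix.mul_one, hU']
    | succ n ih =>
      rw [pow_succ, ih]
      have h1 : U * diagonal (fun a => (l a : ℂ) ^ n) * Uᴴ *
          (U * diagonal (fun a => (l a : ℂ)) * Uᴴ)
          = U * (diagonal (fun a => (l a : ℂ) ^ n) * ((Uᴴ * U) * diagonal (fun a => (l a : ℂ)))) *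
            Uᴴ := by
        simp only [Matrix.mul_assoc]
      rw [h1, hU, Matrix.one_mul, diagonal_mul_diagonal]
      simp only [pow_succ]
  unfold tr0
  rw [hpow, Matrix.trace_mul_comm, ← Matrix.mul_assoc, hU, Matrix.one_mul, Matrix.trace_diagonal,
    Complex.re_sum]
  refine Finset.sum_congr rfl fun a _ => ?_
  rw [← Complex.ofReal_pow, Complex.ofReal_re]

private theorem jbcol {M : Matrix κ κ ℂ} (h : OpLe M 1) (a : κ) : ∑ b, ‖M b a‖ ^ 2 ≤ 1 := by
  have h1 := h (Pi.single a 1)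
  have h2 : ∑ y, ‖(Pi.single a (1 : ℂ) : κ → ℂ) y‖ ^ 2 = 1 := by
    rw [Finset.sum_eq_single a]
    · simp
    · intro y _ hy
      simp [hy]
    · intro h
      exact absurd (Finset.mem_univ a) h
  rw [h2] at h1
  have h3 : ∀ x, (M *ᵥ Pi.single a (1 : ℂ)) x = M x a := fun x => by
    rw [Matrix.mulVec_single_one]
    rfl
  simp only [h3] at h1
  linarith

private theorem jbun {U : Matrix κ κ ℂ} (hU : Uᴴ * U = 1) : OpLe U 1 := by
  intro u
  have key : ∀ v : κ → ℂ, ((∑ x, ‖v x‖ ^ 2 : ℝ) : ℂ) = star v ⬝ᵥ v := by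
    intro v
    rw [dotProduct]
    push_cast
    refine Finset.sum_congr rfl fun x _ => ?_
    rw [Pi.star_apply, Complex.star_def, Complex.conj_mul']
  have h : ((∑ x, ‖(U *ᵥ u) x‖ ^ 2 : ℝ) : ℂ) = ((∑ x, ‖u x‖ ^ 2 : ℝ) : ℂ) := by
    rw [key, key, star_mulVec, dotProduct_mulVec, vecMul_vecMul, hU, vecMul_one]
  have h2 : ∑ x, ‖(U *ᵥ u) x‖ ^ 2 = ∑ x, ‖u x‖ ^ 2 := by exact_mod_cast h
  rw [h2]
  simp

theorem tr_contr (p : ℕ) (hp : 1 ≤ p) {f H : Matrix κ κ ℂ} (hf : f.IsHermitian)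
    (hH : OpLe H 1) : tr0 (2 * p) (H * f * Hᴴ) ≤ tr0 (2 * p) f := by
  have hF : (H * f * Hᴴ).IsHermitian := by
    unfold Matrix.IsHermitian
    rw [conjTranspose_mul, conjTranspose_mul, conjTranspose_conjTranspose, hf.eq, Matrix.mul_assoc]
  obtain ⟨mu, U, hU, hU', hFe⟩ := jbspec hF
  obtain ⟨lam, V, hV, hV', hfe⟩ := jbspec hf
  have hH' : OpLe Hᴴ 1 := Pool.Agent.APS.opLe_ct zero_le_one hH
  set W := Vᴴ * Hᴴ * U with hW
  have hW1 : OpLe W 1 := by
    have h1 : OpLe Vᴴ 1 := Pool.Agent.APS.opLe_ct zero_le_one (jbun hV)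
    have h2 := Pool.Agent.APS.opLe_mul (Pool.Agent.APS.opLe_mul h1 hH') (jbun hU)
    simpa using h2
  have hW2 : OpLe Wᴴ 1 := Pool.Agent.APS.opLe_ct zero_le_one hW1
  have hmu : ∀ a, mu a = ∑ b, ‖W b a‖ ^ 2 * lam b := by
    intro a
    have h1 : Uᴴ * (H * f * Hᴴ) * U = diagonal (fun a => (mu a : ℂ)) := by
      rw [hFe]
      have e : Uᴴ * (U * diagonal (fun a => (mu a : ℂ)) * Uᴴ) * U =
          (Uᴴ * U) * diagonal (fun a => (mu a : ℂ)) * (Uᴴ * U) := by
        simp only [Matrix.mul_assoc]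
      rw [e, hU, Matrix.one_mul, Matrix.mul_one]
    have h2 : Uᴴ * (H * f * Hᴴ) * U = Wᴴ * diagonal (fun a => (lam a : ℂ)) * W := by
      rw [hW, conjTranspose_mul, conjTranspose_mul, conjTranspose_conjTranspose,
        conjTranspose_conjTranspose]
      conv_lhs => rw [hfe]
      simp only [Matrix.mul_assoc]
    have h3 : (mu a : ℂ) = ∑ b, star (W b a) * (lam b : ℂ) * W b a := by
      have h4 := congrFun (congrFun (h1.symm.trans h2) a) a
      rw [Matrix.diagonal_apply_eq, Matrix.mul_apply] at h4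
      rw [h4]
      refine Finset.sum_congr rfl fun b _ => ?_
      rw [Matrix.mul_diagonal, conjTranspose_apply]
    have h5 : (mu a : ℂ) = ((∑ b, ‖W b a‖ ^ 2 * lam b : ℝ) : ℂ) := by
      rw [h3]
      push_cast
      refine Finset.sum_congr rfl fun b _ => ?_
      have h6 : star (W b a) * W b a = ((‖W b a‖ ^ 2 : ℝ) : ℂ) := by
        rw [Complex.star_def, Complex.conj_mul']
        push_cast
        rfl
      calc star (W b a) * (lam b : ℂ) * W b a = (star (W b a) * W b a) * (lam b : ℂ) := by ring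
        _ = _ := by rw [h6]; push_cast; rfl
    exact_mod_cast h5
  have hpt : ∀ a, mu a ^ (2 * p) ≤ ∑ b, ‖W b a‖ ^ 2 * lam b ^ (2 * p) := by
    intro a
    have hs := jbcol hW1 a
    set w : Option κ → ℝ := fun b => b.elim (1 - ∑ b, ‖W b a‖ ^ 2) (fun b => ‖W b a‖ ^ 2) with hw
    set z : Option κ → ℝ := fun b => b.elim 0 lam with hz
    have h1 := Real.pow_arith_mean_le_arith_mean_pow_of_even (s := Finset.univ) w z
      (fun i _ => by
        cases i with
        | none => simp only [hw, Option.elim_none]; linarith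
        | some b => simp only [hw, Option.elim_some]; positivity)
      (by
        rw [Fintype.sum_option]
        simp only [hw, Option.elim_none, Option.elim_some]
        ring) (n := 2 * p) (even_two_mul p)
    rw [Fintype.sum_option, Fintype.sum_option] at h1
    simp only [hw, hz, Option.elim_none, Option.elim_some, mul_zero, zero_add] at h1
    rw [zero_pow (by omega), mul_zero, zero_add] at h1
    rw [hmu a]
    exact h1
  rw [hFe, jbtr0 hU hU']
  conv_rhs => rw [hfe, jbtr0 hV hV']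
  calc ∑ a, mu a ^ (2 * p) ≤ ∑ a, ∑ b, ‖W b a‖ ^ 2 * lam b ^ (2 * p) :=
        Finset.sum_le_sum fun a _ => hpt a
    _ = ∑ b, (∑ a, ‖W b a‖ ^ 2) * lam b ^ (2 * p) := by
        rw [Finset.sum_comm]
        exact Finset.sum_congr rfl fun b _ => by rw [Finset.sum_mul]
    _ ≤ ∑ b, lam b ^ (2 * p) := by
        refine Finset.sum_le_sum fun b _ => ?_
        have h1 := jbcol hW2 b
        have h2 : ∀ a, ‖(Wᴴ) a b‖ = ‖W b a‖ := fun a => by
          rw [conjTranspose_apply, norm_star]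
        simp only [h2] at h1
        have h3 : 0 ≤ lam b ^ (2 * p) := by
          rw [pow_mul]
          positivity
        nlinarith

/-- the same with `C = Hᴴ H`, unsymmetrised -/
theorem tr_contr' (p : ℕ) (hp : 1 ≤ p) {f H : Matrix κ κ ℂ} (hf : f.IsHermitian)
    (hH : OpLe H 1) : (((Hᴴ * H) * f) ^ (2 * p)).trace.re ≤ tr0 (2 * p) f := by
  have h1 : ∀ n : ℕ, ((Hᴴ * H) * f) ^ (n + 1) = Hᴴ * ((H * f * Hᴴ) ^ n * (H * f)) := by
    intro n
    induction n with
    | zero => simp [Matrix.mul_assoc]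
    | succ n ih =>
      rw [pow_succ, ih, pow_succ]
      simp only [Matrix.mul_assoc]
  have h2 : (((Hᴴ * H) * f) ^ (2 * p)).trace = ((H * f * Hᴴ) ^ (2 * p)).trace := by
    obtain ⟨n, hn⟩ : ∃ n, 2 * p = n + 1 := ⟨2 * p - 1, by omega⟩
    rw [hn, h1, Matrix.trace_mul_comm, pow_succ]
    simp only [Matrix.mul_assoc]
  rw [h2]
  exact tr_contr p hp hf hH

end Pool.Agent.ANS.FormM
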