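import Pool.Agent.ANS.Form.Mat
import Pool.Agent.ANS.Form.Mat2
import Pool.Agent.ANS.FormM.TrC

/-! # ANS FORMM MAT: normalised matrices (helper22)

`R = L Lᵀ`, `nR θ L M = θ⁻¹ L⁻¹ M (L⁻¹)ᵀ`, `nF` the same as a complex matrix.
* `nF_herm`, `nF_form`: `Re Tr nF^(2p) ≤ 1` gives `(v·M w)² ≤ θ² (v·R v)(w·R w)`.
* `nF_noise`, `nF_drift`: operator bounds from bounds of the forms.
* `nF_mono`: `R ≤ R'` gives `Re Tr (nF L' M)^(2p) ≤ Re Tr (nF L M)^(2p)`. -/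

set_option autoImplicit false

open Finset Function Matrix
open Pool.Agent.APS (tr0 tr1 tr2 trw OpLe)

noncomputable section

namespace Pool.Agent.ANS.FormM

variable {κ : Type} [Fintype κ] [DecidableEq κ]

/-- normalised matrix -/
def nR (θ : ℝ) (L M : Matrix κ κ ℝ) : Matrix κ κ ℝ := θ⁻¹ • (L⁻¹ * M * (L⁻¹)ᵀ)

/-- the same, complex -/
def nF (θ : ℝ) (L M : Matrix κ κ ℝ) : Matrix κ κ ℂ := (nR θ L M).map (fun r : ℝ => (r : ℂ))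

variable {θ : ℝ} {L L' M R R' : Matrix κ κ ℝ}

theorem nR_symm (hM : M.IsSymm) : (nR θ L M).IsSymm := by
  unfold nR IsSymm
  rw [transpose_smul, transpose_mul, transpose_mul, transpose_transpose, hM.eq, mul_assoc]

theorem nF_herm (hM : M.IsSymm) : (nF θ L M).IsHermitian := by
  have h1 : (nR θ L M)ᵀ = nR θ L M := nR_symm hM
  unfold nF IsHermitian
  ext x y
  rw [conjTranspose_apply, map_apply, map_apply, ← h1, transpose_apply]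
  rw [h1]
  exact Complex.conj_ofReal _

theorem nR_add (M M' : Matrix κ κ ℝ) : nR θ L (M + M') = nR θ L M + nR θ L M' := by
  unfold nR
  rw [mul_add, add_mul, smul_add]

theorem nR_sub (M M' : Matrix κ κ ℝ) : nR θ L (M - M') = nR θ L M - nR θ L M' := by
  unfold nR
  rw [mul_sub, sub_mul, smul_sub]

theorem nR_smul (c : ℝ) (M : Matrix κ κ ℝ) : nR θ L (c • M) = c • nR θ L M := by
  unfold nR
  rw [Matrix.mul_smul, Matrix.smul_mul, smul_comm]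

theorem nF_sub (M M' : Matrix κ κ ℝ) : nF θ L (M - M') = nF θ L M - nF θ L M' := by
  unfold nF
  rw [nR_sub]
  ext x y
  simp

theorem nF_add (M M' : Matrix κ κ ℝ) : nF θ L (M + M') = nF θ L M + nF θ L M' := by
  unfold nF
  rw [nR_add]
  ext x y
  simp

theorem nF_smul (c : ℝ) (M : Matrix κ κ ℝ) : nF θ L (c • M) = (c : ℂ) • nF θ L M := by
  unfold nF
  rw [nR_smul]
  ext x y
  simp

theorem nF_sum {W : Type} (s : Finset W) (M : W → Matrix κ κ ℝ) :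
    nF θ L (∑ w ∈ s, M w) = ∑ w ∈ s, nF θ L (M w) := by
  classical
  induction s using Finset.induction_on with
  | empty =>
    simp only [Finset.sum_empty]
    unfold nF nR
    ext x y
    simp
  | insert a s ha ih => rw [Finset.sum_insert ha, Finset.sum_insert ha, nF_add, ih]

omit [DecidableEq κ] in
theorem dot_mul (A : Matrix κ κ ℝ) (v w : κ → ℝ) : v ⬝ᵥ (A *ᵥ w) = (Aᵀ *ᵥ v) ⬝ᵥ w := by
  rw [dotProduct_mulVec, vecMul_transpose_eq]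
where
  vecMul_transpose_eq : v ᵥ* A = Aᵀ *ᵥ v := by
    rw [← vecMul_transpose, transpose_transpose]

/-- the form of `R = L Lᵀ` -/
theorem R_form (hR : R = L * Lᵀ) (v : κ → ℝ) : v ⬝ᵥ (R *ᵥ v) = (Lᵀ *ᵥ v) ⬝ᵥ (Lᵀ *ᵥ v) := by
  rw [hR, ← mulVec_mulVec, dot_mul]

/-- the form of `M` through `nR` -/
theorem M_form (hθ : θ ≠ 0) (hL : IsUnit L.det) (v w : κ → ℝ) :
    v ⬝ᵥ (M *ᵥ w) = θ * ((Lᵀ *ᵥ v) ⬝ᵥ (nR θ L M *ᵥ (Lᵀ *ᵥ w))) := by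
  have h1 : L * L⁻¹ = 1 := mul_nonsing_inv L hL
  have h2 : (L⁻¹)ᵀ * Lᵀ = 1 := by rw [← transpose_mul, h1, transpose_one]
  have h3 : L * (nR θ L M) * Lᵀ = θ⁻¹ • M := by
    unfold nR
    rw [Matrix.mul_smul, Matrix.smul_mul]
    congr 1
    calc L * (L⁻¹ * M * (L⁻¹)ᵀ) * Lᵀ = (L * L⁻¹) * M * ((L⁻¹)ᵀ * Lᵀ) := by
          simp only [mul_assoc]
      _ = M := by rw [h1, h2, one_mul, mul_one]
  have h4 : (Lᵀ *ᵥ v) ⬝ᵥ (nR θ L M *ᵥ (Lᵀ *ᵥ w)) = v ⬝ᵥ ((L * (nR θ L M) * Lᵀ) *ᵥ w) := by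
    rw [← mulVec_mulVec, ← mulVec_mulVec, dot_mul L]
  rw [h4, h3, smul_mulVec, dotProduct_smul, smul_eq_mul, ← mul_assoc, mul_inv_cancel₀ hθ, one_mul]

theorem dsq (v : κ → ℝ) : 0 ≤ v ⬝ᵥ v := Finset.sum_nonneg fun i _ => mul_self_nonneg (v i)

omit [DecidableEq κ] in
theorem dcs (v w : κ → ℝ) : (v ⬝ᵥ w) ^ 2 ≤ (v ⬝ᵥ v) * (w ⬝ᵥ w) := by
  have h1 := Finset.sum_mul_sq_le_sq_mul_sq (Finset.univ : Finset κ) v w
  simp only [dotProduct]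
  refine h1.trans (le_of_eq ?_)
  simp only [pow_two]

private theorem mspec {f : Matrix κ κ ℂ} (hf : f.IsHermitian) :
    ∃ (l : κ → ℝ) (U : Matrix κ κ ℂ), Uᴴ * U = 1 ∧ U * Uᴴ = 1 ∧
      f = U * diagonal (fun a => (l a : ℂ)) * Uᴴ := by
  refine ⟨hf.eigenvalues, (hf.eigenvectorUnitary : Matrix κ κ ℂ), ?_, ?_, ?_⟩
  · exact Unitary.coe_star_mul_self hf.eigenvectorUnitary
  · exact Unitary.coe_mul_star_self hf.eigenvectorUnitary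
  · have h := hf.spectral_theorem
    rw [Unitary.conjStarAlgAut_apply] at h
    exact h

private theorem mspec_pow {l : κ → ℝ} {U : Matrix κ κ ℂ} (hU : Uᴴ * U = 1) (hU' : U * Uᴴ = 1)
    (n : ℕ) : (U * diagonal (fun a => (l a : ℂ)) * Uᴴ) ^ n =
      U * diagonal (fun a => (l a : ℂ) ^ n) * Uᴴ := by
  induction n with
  | zero =>
    simp only [pow_zero]
    have h1 : diagonal (fun _ : κ => (1 : ℂ)) = 1 := diagonal_one
    rw [h1, mul_one, hU']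
  | succ n ih =>
    rw [pow_succ, ih]
    have h1 : U * diagonal (fun a => (l a : ℂ) ^ n) * Uᴴ *
        (U * diagonal (fun a => (l a : ℂ)) * Uᴴ) =
        U * (diagonal (fun a => (l a : ℂ) ^ n) * (Uᴴ * U) * diagonal (fun a => (l a : ℂ))) *
          Uᴴ := by
      simp only [Matrix.mul_assoc]
    rw [h1, hU, mul_one, diagonal_mul_diagonal]
    congr 2

private theorem mtr0 {l : κ → ℝ} {U : Matrix κ κ ℂ} (hU : Uᴴ * U = 1) (hU' : U * Uᴴ = 1)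
    (n : ℕ) : tr0 n (U * diagonal (fun a => (l a : ℂ)) * Uᴴ) = ∑ a, l a ^ n := by
  unfold tr0
  rw [mspec_pow hU hU', trace_mul_comm, ← mul_assoc, hU, one_mul, trace_diagonal, Complex.re_sum]
  refine Finset.sum_congr rfl fun a _ => ?_
  rw [← Complex.ofReal_pow, Complex.ofReal_re]

private theorem mnorm {U : Matrix κ κ ℂ} (hU : Uᴴ * U = 1) (u : κ → ℂ) :
    ∑ x, ‖(U *ᵥ u) x‖ ^ 2 = ∑ x, ‖u x‖ ^ 2 := by
  have key : ∀ v : κ → ℂ, ((∑ x, ‖v x‖ ^ 2 : ℝ) : ℂ) = star v ⬝ᵥ v := by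
    intro v
    rw [dotProduct]
    push_cast
    refine Finset.sum_congr rfl fun x _ => ?_
    rw [Pi.star_apply, ← Complex.conj_mul']
    rfl
  have h1 : ((∑ x, ‖(U *ᵥ u) x‖ ^ 2 : ℝ) : ℂ) = ((∑ x, ‖u x‖ ^ 2 : ℝ) : ℂ) := by
    rw [key, key, star_mulVec, ← dotProduct_mulVec, mulVec_mulVec, hU, one_mulVec]
  exact_mod_cast h1

/-- `L⁻ᵀ` solves `Lᵀ a = y` -/
private theorem solveT (hL : IsUnit L.det) (y : κ → ℝ) : Lᵀ *ᵥ ((L⁻¹)ᵀ *ᵥ y) = y := by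
  rw [mulVec_mulVec, ← transpose_mul, nonsing_inv_mul L hL, transpose_one, one_mulVec]

/-- `Re Tr f^(2p) ≤ 1` gives the operator bound -/
theorem tr_op1 {p : ℕ} (hp : 1 ≤ p) {f : Matrix κ κ ℂ} (hf : f.IsHermitian)
    (h : tr0 (2 * p) f ≤ 1) : OpLe f 1 := by
  obtain ⟨l, U, hU, hU', rfl⟩ := mspec hf
  rw [mtr0 hU hU'] at h
  have hl : ∀ a, l a ^ 2 ≤ 1 := by
    intro a
    have h0 : ∀ b, 0 ≤ l b ^ (2 * p) := fun b => by rw [pow_mul]; positivity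
    have h1 : l a ^ (2 * p) ≤ 1 :=
      (Finset.single_le_sum (f := fun b => l b ^ (2 * p)) (fun b _ => h0 b)
        (Finset.mem_univ a)).trans h
    rw [pow_mul] at h1
    by_contra h2
    push Not at h2
    have h3 : 1 < (l a ^ 2) ^ p := one_lt_pow₀ h2 (by omega)
    linarith
  have hUU : (Uᴴ)ᴴ * Uᴴ = 1 := by rw [conjTranspose_conjTranspose]; exact hU'
  intro u
  rw [one_pow, one_mul, ← mulVec_mulVec, ← mulVec_mulVec, mnorm hU,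
    ← mnorm hUU u]
  refine Finset.sum_le_sum fun a _ => ?_
  rw [mulVec_diagonal, norm_mul, mul_pow, Complex.norm_real, Real.norm_eq_abs, sq_abs]
  exact mul_le_of_le_one_left (sq_nonneg _) (hl a)

theorem nF_form {p : ℕ} (hp : 1 ≤ p) (hθ : 0 < θ) (hR : R = L * Lᵀ) (hL : IsUnit L.det)
    (hM : M.IsSymm) (ht : tr0 (2 * p) (nF θ L M) ≤ 1) (v w : κ → ℝ) :
    (v ⬝ᵥ (M *ᵥ w)) ^ 2 ≤ θ ^ 2 * ((v ⬝ᵥ (R *ᵥ v)) * (w ⬝ᵥ (R *ᵥ w))) := by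
  have h1 := tr_op1 hp (nF_herm hM) ht (fun x => (((Lᵀ *ᵥ w) x : ℝ) : ℂ))
  have h2 : ∀ x, (nF θ L M *ᵥ (fun x => (((Lᵀ *ᵥ w) x : ℝ) : ℂ))) x =
      (((nR θ L M *ᵥ (Lᵀ *ᵥ w)) x : ℝ) : ℂ) := by
    intro x
    simp only [nF, mulVec, dotProduct, map_apply]
    push_cast
    rfl
  simp only [h2, Complex.norm_real, Real.norm_eq_abs, sq_abs, one_pow, one_mul] at h1
  have h3 : (nR θ L M *ᵥ (Lᵀ *ᵥ w)) ⬝ᵥ (nR θ L M *ᵥ (Lᵀ *ᵥ w)) ≤ (Lᵀ *ᵥ w) ⬝ᵥ (Lᵀ *ᵥ w) := by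
    simp only [dotProduct]
    simpa only [pow_two] using h1
  rw [M_form hθ.ne' hL, mul_pow, R_form hR, R_form hR]
  refine mul_le_mul_of_nonneg_left ?_ (sq_nonneg _)
  exact (dcs _ _).trans (mul_le_mul_of_nonneg_left h3 (dsq _))

theorem nF_noise {W : Type} [Fintype W] (hθ : 0 < θ) (hR : R = L * Lᵀ) (hL : IsUnit L.det)
    (M : W → Matrix κ κ ℝ) {c : ℝ}
    (h : ∀ (a : W → κ → ℝ) (v : κ → ℝ), (∀ w, a w ⬝ᵥ (R *ᵥ a w) ≤ 1) →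
      ∑ w, (a w ⬝ᵥ (M w *ᵥ v)) ^ 2 ≤ c ^ 2 * (v ⬝ᵥ (R *ᵥ v))) (u : κ → ℂ) :
    ∑ w, ∑ y, ‖(nF θ L (M w) *ᵥ u) y‖ ^ 2 ≤ (c / θ) ^ 2 * ∑ y, ‖u y‖ ^ 2 := by
  refine Form.map_real_op (fun w => nR θ L (M w)) (fun v => ?_) u
  set g : W → κ → ℝ := fun w => nR θ L (M w) *ᵥ v with hg
  set q : W → ℝ := fun w => g w ⬝ᵥ g w with hq
  have hq0 : ∀ w, 0 ≤ q w := fun w => dsq (g w)
  set y : W → κ → ℝ := fun w => (√(q w))⁻¹ • g w with hy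
  have hyy : ∀ w, y w ⬝ᵥ y w ≤ 1 := fun w => by
    have e1 : y w ⬝ᵥ y w = (√(q w))⁻¹ * ((√(q w))⁻¹ * q w) := by
      simp only [hy, smul_dotProduct, dotProduct_smul, smul_eq_mul, hq]
    rw [e1]
    rcases (hq0 w).eq_or_lt with h0 | h0
    · rw [← h0]
      simp
    · have h1 : 0 < √(q w) := Real.sqrt_pos.2 h0
      have h2 : √(q w) * √(q w) = q w := Real.mul_self_sqrt h0.le
      have h3 : (√(q w))⁻¹ * q w = √(q w) := by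
        rw [inv_mul_eq_div, div_eq_iff h1.ne', h2]
      rw [h3, inv_mul_cancel₀ h1.ne']
  have hyg : ∀ w, (y w ⬝ᵥ g w) ^ 2 = q w := fun w => by
    have e1 : y w ⬝ᵥ g w = (√(q w))⁻¹ * q w := by
      simp only [hy, smul_dotProduct, smul_eq_mul, hq]
    rw [e1]
    rcases (hq0 w).eq_or_lt with h0 | h0
    · rw [← h0]
      simp
    · have h1 : 0 < √(q w) := Real.sqrt_pos.2 h0
      have h2 : √(q w) * √(q w) = q w := Real.mul_self_sqrt h0.le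
      have h3 : (√(q w))⁻¹ * q w = √(q w) := by
        rw [inv_mul_eq_div, div_eq_iff h1.ne', h2]
      rw [h3, pow_two, h2]
  have h1 := h (fun w => (L⁻¹)ᵀ *ᵥ y w) ((L⁻¹)ᵀ *ᵥ v) (fun w => by
    rw [R_form hR, solveT hL]
    exact hyy w)
  have h2 : ∀ w, ((L⁻¹)ᵀ *ᵥ y w) ⬝ᵥ (M w *ᵥ ((L⁻¹)ᵀ *ᵥ v)) = θ * (y w ⬝ᵥ g w) := fun w => by
    rw [M_form hθ.ne' hL, solveT hL, solveT hL]
  simp only [h2] at h1
  rw [R_form hR, solveT hL] at h1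
  have h3 : ∑ w, (θ * (y w ⬝ᵥ g w)) ^ 2 = θ ^ 2 * ∑ w, q w := by
    rw [Finset.mul_sum]
    refine Finset.sum_congr rfl fun w _ => ?_
    rw [mul_pow, hyg]
  rw [h3] at h1
  have h4 : (c / θ) ^ 2 * (v ⬝ᵥ v) = (c ^ 2 * (v ⬝ᵥ v)) / θ ^ 2 := by
    rw [div_pow]
    ring
  rw [h4, le_div_iff₀ (by positivity)]
  linarith

theorem nF_drift (hθ : 0 < θ) (hR : R = L * Lᵀ) (hL : IsUnit L.det) {x : ℝ} (hx : 0 ≤ x)
    (h : ∀ v w : κ → ℝ, |v ⬝ᵥ (M *ᵥ w)| ≤ x * √((v ⬝ᵥ (R *ᵥ v)) * (w ⬝ᵥ (R *ᵥ w)))) :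
    OpLe (nF θ L M) (x / θ) := by
  refine Form.map_real_one (M := nR θ L M) (Form.bil_op (div_nonneg hx hθ.le) fun v' v => ?_)
  have h1 := h ((L⁻¹)ᵀ *ᵥ v') ((L⁻¹)ᵀ *ᵥ v)
  rw [M_form hθ.ne' hL, R_form hR, R_form hR, solveT hL, solveT hL, abs_mul, abs_of_pos hθ,
    Real.sqrt_mul (dsq v')] at h1
  rw [div_mul_eq_mul_div, le_div_iff₀ hθ]
  linarith

/-- a larger normaliser gives a smaller trace -/
theorem nF_mono {p : ℕ} (hp : 1 ≤ p) (hR : R = L * Lᵀ) (hL : IsUnit L.det)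
    (hR' : R' = L' * L'ᵀ) (hL' : IsUnit L'.det) (hM : M.IsSymm)
    (h : ∀ v : κ → ℝ, v ⬝ᵥ (R *ᵥ v) ≤ v ⬝ᵥ (R' *ᵥ v)) :
    tr0 (2 * p) (nF θ L' M) ≤ tr0 (2 * p) (nF θ L M) := by
  set W : Matrix κ κ ℝ := L'⁻¹ * L with hW
  have e1 : nR θ L' M = W * nR θ L M * Wᵀ := by
    have g1 : L * L⁻¹ = 1 := mul_nonsing_inv L hL
    have g2 : (L⁻¹)ᵀ * Lᵀ = 1 := by rw [← transpose_mul, g1, transpose_one]
    unfold nR
    rw [Matrix.mul_smul, Matrix.smul_mul, hW, transpose_mul]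
    congr 1
    calc L'⁻¹ * M * (L'⁻¹)ᵀ = L'⁻¹ * (L * L⁻¹) * M * ((L⁻¹)ᵀ * Lᵀ) * (L'⁻¹)ᵀ := by
          rw [g1, g2, mul_one, mul_one]
      _ = _ := by simp only [mul_assoc]
  set Wc : Matrix κ κ ℂ := W.map (fun r : ℝ => (r : ℂ)) with hWc
  have e2 : nF θ L' M = Wc * nF θ L M * Wcᴴ := by
    unfold nF
    rw [e1]
    ext i j
    simp only [map_apply, mul_apply, conjTranspose_apply, transpose_apply, hWc]
    push_cast
    refine Finset.sum_congr rfl fun k _ => ?_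
    congr 1
    exact (Complex.conj_ofReal _).symm
  have hWT : OpLe ((Wᵀ).map (fun r : ℝ => (r : ℂ))) 1 := by
    refine Form.map_real_one (M := Wᵀ) (x := 1) fun v => ?_
    have f1 : Wᵀ *ᵥ v = Lᵀ *ᵥ ((L'⁻¹)ᵀ *ᵥ v) := by
      rw [hW, transpose_mul, mulVec_mulVec]
    have f2 := h ((L'⁻¹)ᵀ *ᵥ v)
    rw [R_form hR, R_form hR', solveT hL'] at f2
    rw [f1, one_pow, one_mul]
    exact f2
  have hWH : OpLe Wc 1 := by
    have f1 := Pool.Agent.APS.opLe_ct zero_le_one hWT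
    have f2 : ((Wᵀ).map (fun r : ℝ => (r : ℂ)))ᴴ = Wc := by
      ext i j
      rw [conjTranspose_apply, map_apply, transpose_apply, hWc, map_apply]
      exact Complex.conj_ofReal _
    rwa [f2] at f1
  rw [e2]
  exact tr_contr p hp (nF_herm hM) hWH

end Pool.Agent.ANS.FormM
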