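import Pool.Agent.ANS.FormM.LinkN
import Pool.Agent.ANS.FormM.Mat
import Pool.Agent.ANS.JTrB

/-! # ANS FORMM COMP: the form component for general laws (helper22)

`MB s` = matrix of the functional `Mf` on `B`, `RI s` = matrix of the normaliser `NI`,
`GamM θ p s = Re Tr (θ⁻¹ L⁻¹ MB (L⁻¹)ᵀ)^(2p)`, `RI s = L Lᵀ`.  The normaliser does not change at good
outcomes and can only grow at weak ones: one sided estimates.  `compM`: the component estimate. -/

set_option autoImplicit false
set_option linter.unusedSectionVars false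

open Finset Function Matrix
open Pool.Agent.APS (tr0 tr1 tr2 trw OpLe)

noncomputable section

namespace Pool.Agent.ANS.FormM

open Pool.Agent.Kin Pool.Agent.APS Pool.Agent.ANL
open Pool.Agent.ANS.FA (et Qp ev Tf al)

/-! ### bilinear forms and matrices -/

section bil

variable {T : Type} [Fintype T] [DecidableEq T] {B : Finset T}

theorem xt_sum (B : Finset T) (w : ↥B → ℝ) :
    xt B w = ∑ y : ↥B, w y • (Pi.single y.1 (1 : ℝ) : T → ℝ) := by
  funext x
  rw [Finset.sum_apply]
  by_cases hx : x ∈ B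
  · rw [Finset.sum_eq_single (⟨x, hx⟩ : ↥B)]
    · simp [xt, hx]
    · intro y _ hy
      have h1 : x ≠ y.1 := fun h2 => hy (Subtype.ext h2.symm)
      simp [Pi.single_eq_of_ne h1]
    · intro h1
      exact absurd (Finset.mem_univ _) h1
  · rw [xt_off B w x hx]
    symm
    refine Finset.sum_eq_zero fun y _ => ?_
    have h1 : x ≠ y.1 := fun h2 => hx (h2 ▸ y.2)
    simp [Pi.single_eq_of_ne h1]

/-- a symmetric bilinear form through its matrix -/
theorem bil_mat {F : (T → ℝ) → (T → ℝ) → ℝ} (hs : ∀ u v, F u v = F v u)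
    (ha : ∀ u v v' : T → ℝ, F u (fun y => v y + v' y) = F u v + F u v')
    (hm : ∀ (u v : T → ℝ) (c : ℝ), F u (fun y => c * v y) = c * F u v) (v w : ↥B → ℝ) :
    v ⬝ᵥ ((fun x y : ↥B => F (Pi.single x.1 1) (Pi.single y.1 1) : Matrix ↥B ↥B ℝ) *ᵥ w) =
      F (xt B v) (xt B w) := by
  have key : ∀ (u : T → ℝ) (w : ↥B → ℝ), F u (xt B w) = ∑ y : ↥B, w y * F u (Pi.single y.1 1) := by
    intro u w
    let L : (T → ℝ) →ₗ[ℝ] ℝ :=
      { toFun := F u
        map_add' := fun a b => ha u a b
        map_smul' := fun c a => hm u a c }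
    have h1 : L (xt B w) = ∑ y : ↥B, w y * L (Pi.single y.1 1) := by
      rw [xt_sum, map_sum]
      refine Finset.sum_congr rfl fun y _ => ?_
      rw [map_smul, smul_eq_mul]
    exact h1
  rw [key (xt B v) w]
  unfold mulVec dotProduct
  have h2 : ∀ y : ↥B, F (xt B v) (Pi.single y.1 1) =
      ∑ x : ↥B, v x * F (Pi.single x.1 1) (Pi.single y.1 1) := by
    intro y
    rw [hs, key]
    refine Finset.sum_congr rfl fun x _ => ?_
    rw [hs]
  simp only [h2, Finset.mul_sum]
  rw [Finset.sum_comm]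
  refine Finset.sum_congr rfl fun y _ => Finset.sum_congr rfl fun x _ => ?_
  ring

end bil

open Classical in
/-- a factor of a positive definite matrix -/
def fac {κ : Type} [Fintype κ] [DecidableEq κ] (R : Matrix κ κ ℝ) : Matrix κ κ ℝ :=
  if hh : R.PosDef then (Form.exists_fac hh).choose else 1

theorem fac_spec {κ : Type} [Fintype κ] [DecidableEq κ] {R : Matrix κ κ ℝ} (hR : R.PosDef) :
    R = fac R * (fac R)ᵀ ∧ IsUnit (fac R).det := by
  classical
  unfold fac
  rw [dif_pos hR]
  exact (Form.exists_fac hR).choose_spec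

/-- polar form of the normaliser -/
def Np {ι : Type} [Fintype ι] [DecidableEq ι] (H : Matrix ι ι ℂ) (b0 b : ι → ℂ) (I : Finset ι)
    (u v : ι → ℝ) : ℝ :=
  Qb H b0 u v + ∑ x ∈ I, bt H b0 b x * (fv H b0 u x * fv H b0 v x)

variable {T D : Type} [Fintype T] [DecidableEq T]

/-- matrix of the functional on `B` -/
def MB (P : Stp T D) (B : Finset T) (s : T → Option D) : Matrix ↥B ↥B ℝ := fun x y =>
  Mf P.H P.b (P.bs s) (Pi.single x.1 1) (Pi.single y.1 1)

/-- matrix of the normaliser on `B` -/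
def RI (P : Stp T D) (ok : T → Option D → Prop) (B : Finset T) (s : T → Option D) :
    Matrix ↥B ↥B ℝ := fun x y =>
  Np P.H P.b (P.bs s) (inr ok s) (Pi.single x.1 1) (Pi.single y.1 1)

/-- THE FORM FUNCTIONAL for general laws -/
def GamM (P : Stp T D) (ok : T → Option D → Prop) (B : Finset T) (θ : ℝ) (p : ℕ)
    (s : T → Option D) : ℝ :=
  tr0 (2 * p) (nF θ (fac (RI P ok B s)) (MB P B s))

theorem MB_nil (P : Stp T D) (B : Finset T) : MB P B nil = 0 := by
  funext x y
  unfold MB
  rw [bs_nil, Mf_nil]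
  rfl

theorem GamM_nil (P : Stp T D) (ok : T → Option D → Prop) (B : Finset T) (θ : ℝ) {p : ℕ}
    (hp : 1 ≤ p) : GamM P ok B θ p nil = 0 := by
  unfold GamM
  rw [MB_nil]
  have h1 : nF θ (fac (RI P ok B nil)) (0 : Matrix ↥B ↥B ℝ) = 0 := by
    unfold nF nR
    ext x y
    simp
  rw [h1]
  unfold tr0
  rw [zero_pow (by omega)]
  simp

variable [Fintype D] {P : Stp T D} {ok : T → Option D → Prop} {X N B : Finset T} {c be : T → ℝ}
  {e : T → Option D → ℝ} {C Lm : ℝ}

section

variable (h : P.OkB ok X N c be e C Lm)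
include h

theorem MB_form (s : T → Option D) (v w : ↥B → ℝ) :
    v ⬝ᵥ (MB P B s *ᵥ w) = Mf P.H P.b (P.bs s) (xt B v) (xt B w) :=
  bil_mat (F := fun u v => Mf P.H P.b (P.bs s) u v) ((dat h s).Mf_symm)
    (fun u v v' => Mf_add u v v') (fun u v c => Mf_smul u v c) v w

theorem MB_symm (s : T → Option D) : (MB P B s).IsSymm := by
  unfold Matrix.IsSymm
  funext x y
  exact (dat h s).Mf_symm _ _

theorem np_self (s : T → Option D) (u : T → ℝ) :
    Np P.H P.b (P.bs s) (inr ok s) u u = NI P.H P.b (P.bs s) (inr ok s) u := by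
  unfold Np NI
  rw [qb_self]
  congr 1
  refine Finset.sum_congr rfl fun x _ => ?_
  ring

theorem RI_form (s : T → Option D) (v : ↥B → ℝ) :
    v ⬝ᵥ (RI P ok B s *ᵥ v) = NI P.H P.b (P.bs s) (inr ok s) (xt B v) := by
  rw [← np_self h]
  refine bil_mat (F := fun u v => Np P.H P.b (P.bs s) (inr ok s) u v) ?_ ?_ ?_ v v
  · intro u v
    unfold Np
    rw [qb_symm]
    congr 1
    refine Finset.sum_congr rfl fun x _ => ?_
    ring
  · intro u v v'
    unfold Np
    rw [qb_fv h.adm, qb_fv h.adm, qb_fv h.adm]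
    simp only [fv_add]
    rw [add_add_add_comm, ← Finset.sum_add_distrib, ← Finset.sum_add_distrib]
    congr 1
    · refine Finset.sum_congr rfl fun x _ => ?_
      ring
    · refine Finset.sum_congr rfl fun x _ => ?_
      ring
  · intro u v c'
    unfold Np
    rw [qb_fv h.adm, qb_fv h.adm]
    simp only [fv_smul]
    rw [mul_add, Finset.mul_sum, Finset.mul_sum]
    congr 1
    · refine Finset.sum_congr rfl fun x _ => ?_
      ring
    · refine Finset.sum_congr rfl fun x _ => ?_
      ring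

theorem RI_pd (hpd : (P.QB B nil).PosDef) (s : T → Option D) : (RI P ok B s).PosDef := by
  refine Matrix.PosDef.of_dotProduct_mulVec_pos ?_ ?_
  · rw [Matrix.IsHermitian, Matrix.conjTranspose_eq_transpose_of_trivial]
    funext x y
    show Np P.H P.b (P.bs s) (inr ok s) _ _ = Np P.H P.b (P.bs s) (inr ok s) _ _
    unfold Np
    rw [qb_symm]
    congr 1
    refine Finset.sum_congr rfl fun x _ => ?_
    ring
  · intro v hv
    rw [star_trivial, RI_form h]
    have h1 := (dat h s).q_le_ni (xt B v)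
    have h2 := FA.Qp_nonneg h.adm (xt B v)
    rcases h2.lt_or_eq with h3 | h3
    · exact lt_of_lt_of_le h3 h1
    · exfalso
      apply hv
      funext x
      have := dat_pd h hpd (xt B v) (xt_off B v) h3.symm x.1
      rwa [xt_on] at this

theorem GamM_nonneg (θ : ℝ) (p : ℕ) (s : T → Option D) : 0 ≤ GamM P ok B θ p s :=
  Pool.Agent.APS.tr0_nonneg p (nF_herm (MB_symm h s))

/-- the normaliser at a good site -/
theorem NI_up {s : T → Option D} {w : T} (hw : ok w (s w)) (b : Option D) (u : T → ℝ) :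
    NI P.H P.b (P.bs s) (inr ok s) u ≤
      NI P.H P.b (P.bs (update s w b)) (inr ok (update s w b)) u := by
  unfold NI
  refine add_le_add le_rfl ?_
  have h1 : ∀ x ∈ inr ok s, x ≠ w := fun x hx h2 => (mem_inr.1 hx) (h2 ▸ hw)
  have h2 : inr ok s ⊆ inr ok (update s w b) := by
    intro x hx
    rw [mem_inr, update_of_ne (h1 x hx)]
    exact mem_inr.1 hx
  refine le_trans (le_of_eq ?_) (Finset.sum_le_sum_of_subset_of_nonneg h2 fun x _ _ =>
    mul_nonneg ((dat h (update s w b)).bt0 x) (sq_nonneg _))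
  refine Finset.sum_congr rfl fun x hx => ?_
  congr 1
  unfold bt
  rw [et_bs, et_bs, eta_up h s w b x, if_neg (h1 x hx), add_zero]

theorem RI_none {s : T → Option D} {w : T} (hw : ok w (s w)) :
    RI P ok B (update s w none) = RI P ok B s := by
  have h1 : ∀ x ∈ inr ok s, x ≠ w := fun x hx h2 => (mem_inr.1 hx) (h2 ▸ hw)
  have h2 : inr ok (update s w none) = inr ok s := by
    ext x
    rw [mem_inr, mem_inr]
    by_cases hx : x = w
    · subst hx
      rw [update_self]
      exact iff_of_false (fun h3 => h3 (h.okn x)) (fun h3 => h3 hw)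
    · rw [update_of_ne hx]
  funext x y
  unfold RI Np
  rw [h2]
  congr 1
  refine Finset.sum_congr rfl fun z hz => ?_
  congr 1
  unfold bt
  rw [et_bs, et_bs, eta_up h s w none z, if_neg (h1 z hz), add_zero]

/-- `GamM ≤ 1` gives the bound of the functional -/
theorem GamM_bd (hpd : (P.QB B nil).PosDef) {θ : ℝ} (hθ : 0 < θ) {p : ℕ} (hp : 1 ≤ p)
    {s : T → Option D} (hs : GamM P ok B θ p s ≤ 1) (u v : T → ℝ) (hu : ∀ x, x ∉ B → u x = 0)
    (hv : ∀ x, x ∉ B → v x = 0) :
    Mf P.H P.b (P.bs s) u v ^ 2 ≤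
      θ ^ 2 * (NI P.H P.b (P.bs s) (inr ok s) u * NI P.H P.b (P.bs s) (inr ok s) v) := by
  have hf := fac_spec (RI_pd h hpd s)
  have h1 := nF_form hp hθ hf.1 hf.2 (MB_symm h s) hs (fun x : ↥B => u x) (fun x : ↥B => v x)
  rw [MB_form h, RI_form h, RI_form h, xt_res B hu, xt_res B hv] at h1
  exact h1

end

/-- THE COMPONENT ESTIMATE of the form functional, general laws.  `KF = 2 KT p`,
`BF = 2 (KT p) be'`. -/
theorem compM [DecidableEq D] (h : P.OkB ok X N c be e C Lm) {p : ℕ} (hp : 2 ≤ p) {θ a bm e1 e2 taum : ℝ}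
    (hθ : 0 < θ) {s : T → Option D} (g : Sh P ok X N B be C θ a bm e1 e2 taum s)
    (hs : GamM P ok B θ p s ≤ 1) {be' dl : ℝ}
    (hbe : (B.card : ℝ) * ((drC C θ a bm / θ) ^ (2 * p) +
      (√(nuM C Lm θ a bm e1 e2 taum) / θ) ^ (2 * p)) ≤ be')
    (hdl : 0 < dl) (hdl1 : dl ≤ 1) (hbd : KT p * be' ≤ dl ^ (2 * p)) :
    CompB P.g.P ok (GamM P ok B θ p) s (2 * KT p) (2 * (KT p * be')) dl := by
  have hf := fac_spec (RI_pd h g.pd s)
  set L := fac (RI P ok B s) with hL
  have hC1 := h.C1
  have hC0 : 0 < C := by linarith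
  have hbm0 := g.bm0
  have ha0 := g.a0
  have he1 := g.e10
  have he2 := g.e20
  have htau := g.tau0
  have hEP : 0 ≤ EPc C θ a := by
    unfold EPc
    positivity
  have hdr0 : 0 ≤ drC C θ a bm := by
    unfold drC
    positivity
  have hnu0 : 0 ≤ nuM C Lm θ a bm e1 e2 taum := by
    unfold nuM
    positivity
  refine comp_trB' p hp P.g.P h.dig.P1 ok (GamM P ok B θ p)
    (fun s' => nF θ L (MB P B s')) (fun s' => nF_herm (MB_symm h s')) s rfl ?_ ?_
    (nu := √(nuM C Lm θ a bm e1 e2 taum) / θ) (x := drC C θ a bm / θ) (by positivity)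
    (by positivity) ?_ ?_ ?_ hdl hdl1 hbd hs
  · -- one site
    intro w hw b
    have hf' := fac_spec (RI_pd h g.pd (update s w b))
    refine nF_mono (by omega) hf.1 hf.2 hf'.1 hf'.2 (MB_symm h _) fun v => ?_
    rw [RI_form h, RI_form h]
    exact NI_up h hw b _
  · intro w hw
    unfold GamM
    rw [RI_none h hw]
  · -- noise
    intro β hβ u
    have h1 : ∀ w, nF θ L (MB P B (update s w (β w))) - nF θ L (MB P B s) =
        nF θ L (MB P B (update s w (β w)) - MB P B s) := fun w => (nF_sub _ _).symm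
    simp only [h1]
    refine nF_noise hθ hf.1 hf.2 (fun w => MB P B (update s w (β w)) - MB P B s)
      (fun a' v ha' => ?_) u
    rw [Real.sq_sqrt hnu0, RI_form h]
    have h2 := g.noise h hβ (a' := fun w => xt B (a' w)) (fun w x hx => xt_off B _ x hx)
      (fun w => by
        have := ha' w
        rwa [RI_form h] at this) (v := xt B v) (fun x hx => xt_off B _ x hx)
    refine le_trans (le_of_eq ?_) h2
    refine Finset.sum_congr rfl fun w _ => ?_
    rw [sub_mulVec, dotProduct_sub, MB_form h, MB_form h]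
  · -- drift
    intro r hr
    have h1 : ∑ w, (r w : ℂ) • (∑ b, (P.g.P w b : ℂ) • nF θ L (MB P B (update s w (some b))) -
        nF θ L (MB P B (update s w none))) =
        nF θ L (∑ w, r w • (∑ b, P.g.P w b • MB P B (update s w (some b)) -
          MB P B (update s w none))) := by
      rw [nF_sum]
      refine Finset.sum_congr rfl fun w _ => ?_
      rw [nF_smul, nF_sub, nF_sum]
      congr 2
      refine Finset.sum_congr rfl fun b _ => ?_
      rw [nF_smul]
    rw [h1]
    refine nF_drift hθ hf.1 hf.2 hdr0 fun v w => ?_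
    rw [RI_form h, RI_form h]
    refine le_trans (le_of_eq ?_) (g.drift h hr (fun x hx => xt_off B v x hx)
      (fun x hx => xt_off B w x hx))
    congr 1
    have hsum : ∀ (F : T → Matrix ↥B ↥B ℝ), v ⬝ᵥ ((∑ z, F z) *ᵥ w) = ∑ z, v ⬝ᵥ (F z *ᵥ w) := by
      intro F
      rw [Matrix.sum_mulVec, dotProduct_sum]
    have hsum' : ∀ (F : D → Matrix ↥B ↥B ℝ), v ⬝ᵥ ((∑ z, F z) *ᵥ w) =
        ∑ z, v ⬝ᵥ (F z *ᵥ w) := by
      intro F
      rw [Matrix.sum_mulVec, dotProduct_sum]
    rw [hsum]
    refine Finset.sum_congr rfl fun z _ => ?_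
    rw [smul_mulVec, dotProduct_smul, smul_eq_mul, sub_mulVec, dotProduct_sub, hsum', MB_form h]
    congr 2
    refine Finset.sum_congr rfl fun b _ => ?_
    rw [smul_mulVec, dotProduct_smul, smul_eq_mul, MB_form h]
  · rwa [Fintype.card_coe]

end Pool.Agent.ANS.FormM
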