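import Pool.Agent.ANS.FormM.Nrm

/-! # ANS FORMM DAB: bounds of `D_w` and of the diagonal part of `T_w` (architect helper22)

`Dab u w = ∑_x η_x |G_xw|² (dl_x² + 2 (φ_x - φ_w)²)`, `φ = ph u`, `dl = dl u`, `uc = φ + dl`.

* `dw_sq`: in `Dw` put `α = dl_x`, `β = φ_x - φ_w` for `u`, `α', β'` for `v`: the bracket is
  `α α' - (β + α)(β' + α') = -(α β' + α' β + β β')`, and
  `|α β' + α' β + β β'| ≤ √(α² + 2 β²) √(α'² + 2 β'²)`; Cauchy-Schwarz for the sum with weights `η_x |G_xw|²`.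
* `td_sq`: `|Td| ≤ ∑ η |G_xw|² |dl_x| |dl'_x|` (`|Im G| ≤ |G|`), Cauchy-Schwarz.
* `td_four`: `|Td| ≤ ∑ η |dl_x| (|G_xw|² |dl'_x|)`, Cauchy-Schwarz.
* `dab_sum`: `∑_w η_w ∑_x η_x |G_xw|² dl_x² = ∑_x η_x Γ_x dl_x²` (Ward, symmetry), `Γ ≤ Γ⁰ + a ≤ 2 Γ⁰` as `2 C a ≤ 1 ≤ C Γ⁰`
  (sites with `η⁰ = 0` vanish), so `≤ 2 (2/d0) NI` (`dl_sq`).  `∑_w η_w ∑_x η_x |G_xw|² (φ_x - φ_w)² = 2 Qp φ`, `φ = uc - dl`,
  `Qp φ ≤ 2 Qp uc + 2 Qp dl`, `Qp dl ≤ 2 ∑ η Γ dl² ≤ (8/d0) NI` (`qp_le`), `Qp uc ≤ (5/d0) NI`.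
  Total `4/d0 + 2·2·(10 + 16)/d0 = 108/d0`.
* `sm_ph`: `φ_x = (1/Γ⁰_x) ∑_y η⁰_y |G⁰_xy|² u_y` at `η⁰_x ≠ 0` (`fv_ward`); insert `u = k + u1 + u2` on the sites with `η⁰ ≠ 0`:
  `φ = k + l + h`, `l_x, h_x` = the same average of `u1`, `u2`; `|l| ≤ √e1` (average, Ward); Jensen / Cauchy-Schwarz
  `h_x² ≤ (1/Γ⁰_x) ∑_y η⁰_y |G⁰_xy|² u2_y² ≤ C ∑_y ..`; so `h_x² ≤ C Lm² e2` and `∑ η⁰ h² ≤ C ∑_y η⁰_y Γ⁰_y u2_y² ≤ C² e2`.
* `dab_one`: `∑ η |G_xw|² dl² ≤ (2 Lm)² ∑ η dl² ≤ 4 Lm² (2 C/d0)` (`dl_sq'`); `(φ_x - φ_w)² ≤ 3 (4 e1 + h_x² + h_w²)`, so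
  `∑ η |G_xw|² (φ_x - φ_w)² ≤ 3 (4 e1 Γ_w + 4 Lm² C² e2 + Γ_w C Lm² e2)` (`η ≤ η⁰`), `Γ_w ≤ 2 C`. -/

set_option autoImplicit false

open Matrix Finset

noncomputable section

namespace Pool.Agent.ANS.FormM

open Pool.Agent.Kin Pool.Agent.APS Pool.Agent.ANL
open Pool.Agent.ANS.FA (et Qp ev Tf al)

variable {ι : Type} [Fintype ι] [DecidableEq ι] {H : Matrix ι ι ℂ} {b0 b : ι → ℂ} {I : Finset ι}
  {C d0 : ℝ}

/-- smoothing at the start -/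
def SM0 (H : Matrix ι ι ℂ) (b0 : ι → ℂ) (B : Finset ι) (e1 e2 : ℝ) : Prop :=
  ∀ u : ι → ℝ, (∀ x, x ∉ B → u x = 0) → Qp H b0 u ≤ 1 →
    ∃ (k : ℝ) (u1 u2 : ι → ℝ), (∀ x, et b0 x ≠ 0 → u x = k + u1 x + u2 x) ∧
      (∀ x, et b0 x ≠ 0 → u1 x ^ 2 ≤ e1) ∧ ∑ x, et b0 x * u2 x ^ 2 ≤ e2

/-- the weight `η_x |G_xw|²` -/
theorem wt0 (h : Adm H b) (x w : ι) : 0 ≤ et b x * ‖rsc H b x w‖ ^ 2 :=
  mul_nonneg (FA.et0 h x) (sq_nonneg _)

theorem brk_sq (a b c e : ℝ) :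
    (a * c - (b + a) * (e + c)) ^ 2 ≤ (a ^ 2 + 2 * b ^ 2) * (c ^ 2 + 2 * e ^ 2) := by
  have e1 : (a ^ 2 + 2 * b ^ 2) * (c ^ 2 + 2 * e ^ 2) - (a * c - (b + a) * (e + c)) ^ 2 =
      (a * (c + e) - 2 * b * e) ^ 2 / 2 + (a ^ 2 + 2 * b ^ 2) * (c - e) ^ 2 / 2 := by
    ring
  have e2 : 0 ≤ (a * (c + e) - 2 * b * e) ^ 2 / 2 + (a ^ 2 + 2 * b ^ 2) * (c - e) ^ 2 / 2 := by
    positivity
  linarith

namespace Dat

variable (h : Dat H b0 b I C d0)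
include h

theorem dab0 (u : ι → ℝ) (w : ι) : 0 ≤ Dab H b0 b u w := by
  unfold Dab
  refine Finset.sum_nonneg fun x _ => ?_
  have := wt0 h.a1 x w
  positivity

theorem dw_sq (u v : ι → ℝ) (w : ι) :
    Dw H b0 b u v w ^ 2 ≤ Dab H b0 b u w * Dab H b0 b v w := by
  unfold Dw Dab
  refine sum_sq_le_sum_mul_sum_of_sq_le_mul Finset.univ (fun x _ => ?_) (fun x _ => ?_)
    (fun x _ => ?_)
  · have := wt0 h.a1 x w
    positivity
  · have := wt0 h.a1 x w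
    positivity
  · have h1 := brk_sq (dl H b0 b u x) (ph H b0 u x - ph H b0 u w) (dl H b0 b v x)
      (ph H b0 v x - ph H b0 v w)
    have e1 : uc H b0 b u x - ph H b0 u w = ph H b0 u x - ph H b0 u w + dl H b0 b u x := by
      unfold uc
      ring
    have e2 : uc H b0 b v x - ph H b0 v w = ph H b0 v x - ph H b0 v w + dl H b0 b v x := by
      unfold uc
      ring
    rw [e1, e2, mul_pow]
    have h2 := mul_le_mul_of_nonneg_left h1 (sq_nonneg (et b x * ‖rsc H b x w‖ ^ 2))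
    refine h2.trans (le_of_eq ?_)
    ring

theorem td_norm (u v : ι → ℝ) (w : ι) : ‖Td H b0 b u v w‖ ≤
    ∑ x, et b x * ‖rsc H b x w‖ ^ 2 * (|dl H b0 b u x| * |dl H b0 b v x|) := by
  unfold Td
  refine (norm_sum_le _ _).trans (Finset.sum_le_sum fun x _ => ?_)
  have h0 := FA.et0 h.a1 x
  rw [norm_mul, norm_mul, Complex.norm_real, Complex.norm_real, Real.norm_eq_abs,
    Real.norm_eq_abs, abs_mul, abs_mul, abs_of_nonneg h0]
  have h1 : |(rsc H b x w).im| ≤ ‖rsc H b x w‖ := Complex.abs_im_le_norm _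
  have h2 : ‖rsc H b x w‖ * |(rsc H b x w).im| ≤ ‖rsc H b x w‖ ^ 2 := by
    rw [pow_two]
    exact mul_le_mul_of_nonneg_left h1 (norm_nonneg _)
  have h3 : 0 ≤ et b x * (|dl H b0 b u x| * |dl H b0 b v x|) := by positivity
  calc et b x * (|dl H b0 b u x| * |dl H b0 b v x|) * (‖rsc H b x w‖ * |(rsc H b x w).im|)
      ≤ et b x * (|dl H b0 b u x| * |dl H b0 b v x|) * ‖rsc H b x w‖ ^ 2 :=
        mul_le_mul_of_nonneg_left h2 h3
    _ = _ := by ring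

theorem td_sq (u v : ι → ℝ) (w : ι) :
    ‖Td H b0 b u v w‖ ^ 2 ≤ Dab H b0 b u w * Dab H b0 b v w := by
  refine (pow_le_pow_left₀ (norm_nonneg _) (h.td_norm u v w) 2).trans ?_
  unfold Dab
  refine sum_sq_le_sum_mul_sum_of_sq_le_mul Finset.univ (fun x _ => ?_) (fun x _ => ?_)
    (fun x _ => ?_)
  · have := wt0 h.a1 x w
    positivity
  · have := wt0 h.a1 x w
    positivity
  · have e0 : (et b x * ‖rsc H b x w‖ ^ 2 * (|dl H b0 b u x| * |dl H b0 b v x|)) ^ 2 =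
        (et b x * ‖rsc H b x w‖ ^ 2) ^ 2 * (|dl H b0 b u x| ^ 2 * |dl H b0 b v x| ^ 2) := by ring
    rw [e0, sq_abs, sq_abs]
    have h1 : dl H b0 b u x ^ 2 * dl H b0 b v x ^ 2 ≤
        (dl H b0 b u x ^ 2 + 2 * (ph H b0 u x - ph H b0 u w) ^ 2) *
          (dl H b0 b v x ^ 2 + 2 * (ph H b0 v x - ph H b0 v w) ^ 2) := by
      have e1 := sq_nonneg (ph H b0 u x - ph H b0 u w)
      have e2 := sq_nonneg (ph H b0 v x - ph H b0 v w)
      exact mul_le_mul (by linarith) (by linarith) (by positivity) (by positivity)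
    have h2 := mul_le_mul_of_nonneg_left h1 (sq_nonneg (et b x * ‖rsc H b x w‖ ^ 2))
    refine h2.trans (le_of_eq ?_)
    ring

theorem td_four (u v : ι → ℝ) (w : ι) :
    ‖Td H b0 b u v w‖ ^ 2 ≤ (∑ x, et b x * dl H b0 b u x ^ 2) *
      ∑ x, et b x * (‖rsc H b x w‖ ^ 4 * dl H b0 b v x ^ 2) := by
  refine (pow_le_pow_left₀ (norm_nonneg _) (h.td_norm u v w) 2).trans ?_
  refine sum_sq_le_sum_mul_sum_of_sq_le_mul Finset.univ (fun x _ => ?_) (fun x _ => ?_)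
    (fun x _ => ?_)
  · have := FA.et0 h.a1 x
    positivity
  · have := FA.et0 h.a1 x
    positivity
  · have e0 : (et b x * ‖rsc H b x w‖ ^ 2 * (|dl H b0 b u x| * |dl H b0 b v x|)) ^ 2 =
        (et b x * ‖rsc H b x w‖ ^ 2) ^ 2 * (|dl H b0 b u x| ^ 2 * |dl H b0 b v x| ^ 2) := by ring
    rw [e0, sq_abs, sq_abs]
    exact le_of_eq (by ring)

/-- `Γ ≤ 2 Γ⁰` -/
theorem gam_two {a : ℝ} (ha : 2 * C * a ≤ 1)
    (hg : ∀ x, et b0 x ≠ 0 → |gam H b x - gam H b0 x| ≤ a) {x : ι} (hx : et b0 x ≠ 0) :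
    gam H b x ≤ 2 * gam H b0 x := by
  have h1 := (abs_le.1 (hg x hx)).2
  have h2 := h.io x hx
  have h3 := h.C1
  have h4 : C * (2 * a) ≤ C * gam H b0 x := by linarith
  have h5 : 2 * a ≤ gam H b0 x := le_of_mul_le_mul_left h4 (by linarith)
  have h6 := (h.g0 hx)
  linarith

/-- `∑ η Γ dl² ≤ (4/d0) NI` -/
theorem gdl {a : ℝ} (ha : 2 * C * a ≤ 1)
    (hg : ∀ x, et b0 x ≠ 0 → |gam H b x - gam H b0 x| ≤ a) (u : ι → ℝ) :
    ∑ x, et b x * gam H b x * dl H b0 b u x ^ 2 ≤ 4 / d0 * NI H b0 b I u := by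
  have h1 := h.dl_sq u
  have h2 : ∑ x, et b x * gam H b x * dl H b0 b u x ^ 2 ≤
      2 * ∑ x, et b x * gam H b0 x * dl H b0 b u x ^ 2 := by
    rw [Finset.mul_sum]
    refine Finset.sum_le_sum fun x _ => ?_
    rcases eq_or_ne (et b0 x) 0 with hx | hx
    · rw [h.eq0 x hx]
      simp
    · have h3 := h.gam_two ha hg hx
      have h4 := FA.et0 h.a1 x
      have h5 : et b x * gam H b x ≤ et b x * (2 * gam H b0 x) :=
        mul_le_mul_of_nonneg_left h3 h4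
      have h6 := mul_le_mul_of_nonneg_right h5 (sq_nonneg (dl H b0 b u x))
      linarith
  have h3 : 4 / d0 * NI H b0 b I u = 2 * (2 / d0 * NI H b0 b I u) := by ring
  rw [h3]
  linarith

theorem dab_sum {a : ℝ} (ha : 2 * C * a ≤ 1)
    (hg : ∀ x, et b0 x ≠ 0 → |gam H b x - gam H b0 x| ≤ a) {u : ι → ℝ}
    (hq : Qp H b (uc H b0 b u) ≤ 5 / d0 * NI H b0 b I u) :
    ∑ w, et b w * Dab H b0 b u w ≤ 108 / d0 * NI H b0 b I u := by
  set N := NI H b0 b I u with hN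
  have hs := adm_symm h.a1
  have h1 : ∑ w, et b w * Dab H b0 b u w =
      ∑ x, et b x * gam H b x * dl H b0 b u x ^ 2 + 4 * Qp H b (ph H b0 u) := by
    have e1 : ∀ w, et b w * Dab H b0 b u w =
        ∑ x, et b w * (et b x * ‖rsc H b x w‖ ^ 2 * dl H b0 b u x ^ 2) +
        2 * ∑ x, et b w * ‖rsc H b w x‖ ^ 2 * et b x * (ph H b0 u w - ph H b0 u x) ^ 2 := by
      intro w
      unfold Dab
      rw [Finset.mul_sum, Finset.mul_sum, ← Finset.sum_add_distrib]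
      refine Finset.sum_congr rfl fun x _ => ?_
      rw [hs w x]
      ring
    rw [Finset.sum_congr rfl fun w _ => e1 w, Finset.sum_add_distrib, ← Finset.mul_sum]
    congr 1
    · rw [Finset.sum_comm]
      refine Finset.sum_congr rfl fun x _ => ?_
      rw [gam_ward h.a1 x, Finset.mul_sum, Finset.sum_mul]
      refine Finset.sum_congr rfl fun w _ => ?_
      ring
    · unfold Qp
      ring
  have h2 := h.gdl ha hg u
  have h3 : Qp H b (ph H b0 u) ≤ 2 * Qp H b (uc H b0 b u) + 2 * Qp H b (dl H b0 b u) := by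
    unfold Qp
    have e1 : ∑ x, ∑ y, et b x * ‖rsc H b x y‖ ^ 2 * et b y *
        (ph H b0 u x - ph H b0 u y) ^ 2 ≤
        2 * ∑ x, ∑ y, et b x * ‖rsc H b x y‖ ^ 2 * et b y *
          (uc H b0 b u x - uc H b0 b u y) ^ 2 +
        2 * ∑ x, ∑ y, et b x * ‖rsc H b x y‖ ^ 2 * et b y *
          (dl H b0 b u x - dl H b0 b u y) ^ 2 := by
      simp only [Finset.mul_sum, ← Finset.sum_add_distrib]
      refine Finset.sum_le_sum fun x _ => Finset.sum_le_sum fun y _ => ?_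
      have e2 : 0 ≤ et b x * ‖rsc H b x y‖ ^ 2 * et b y :=
        mul_nonneg (wt0 h.a1 x y) (FA.et0 h.a1 y)
      have e3 : (ph H b0 u x - ph H b0 u y) ^ 2 ≤
          2 * (uc H b0 b u x - uc H b0 b u y) ^ 2 + 2 * (dl H b0 b u x - dl H b0 b u y) ^ 2 := by
        unfold uc
        nlinarith [sq_nonneg (ph H b0 u x + dl H b0 b u x - (ph H b0 u y + dl H b0 b u y) +
          (dl H b0 b u x - dl H b0 b u y))]
      have e4 := mul_le_mul_of_nonneg_left e3 e2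
      refine e4.trans (le_of_eq ?_)
      ring
    linarith
  have h4 := qp_le h.a1 (dl H b0 b u)
  have h5 : 5 / d0 * N = 5 * (N / d0) := by ring
  have h6 : 4 / d0 * N = 4 * (N / d0) := by ring
  have h7 : 108 / d0 * N = 108 * (N / d0) := by ring
  rw [h5] at hq
  rw [h6] at h2
  rw [h1, h7]
  linarith

/-- `φ` as an average -/
theorem ph_av {x : ι} (hx : et b0 x ≠ 0) (u : ι → ℝ) :
    ph H b0 u x = 1 / gam H b0 x * ∑ y, et b0 y * ‖rsc H b0 x y‖ ^ 2 * u y := by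
  unfold ph
  have h1 := h.g0 hx
  rw [fv_ward h.a0]
  have e1 : ∑ y, ‖rsc H b0 x y‖ ^ 2 * (et b0 y * u y) =
      ∑ y, et b0 y * ‖rsc H b0 x y‖ ^ 2 * u y :=
    Finset.sum_congr rfl fun y _ => by ring
  rw [e1]
  field_simp
  ring

/-- `φ = k + l + h` -/
theorem sm_ph {B : Finset ι} {e1 e2 Lm : ℝ} (he2 : 0 ≤ e2) (hsm : SM0 H b0 B e1 e2)
    (hL0 : ∀ x y, et b0 x ≠ 0 → et b0 y ≠ 0 → ‖rsc H b0 x y‖ ≤ Lm)
    {u : ι → ℝ} (hu : ∀ x, x ∉ B → u x = 0) (hq : Qp H b0 u ≤ 1) :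
    ∃ (k : ℝ) (l hi : ι → ℝ), (∀ x, et b0 x ≠ 0 → ph H b0 u x = k + l x + hi x) ∧
      (∀ x, et b0 x ≠ 0 → l x ^ 2 ≤ e1) ∧ (∑ x, et b0 x * hi x ^ 2 ≤ C ^ 2 * e2) ∧
      (∀ x, et b0 x ≠ 0 → hi x ^ 2 ≤ C * Lm ^ 2 * e2) := by
  obtain ⟨k, u1, u2, hk, h1, h2⟩ := hsm u hu hq
  have hC0 : 0 < C := by linarith [h.C1]
  have hW0 : ∀ x y, 0 ≤ et b0 y * ‖rsc H b0 x y‖ ^ 2 := fun x y =>
    mul_nonneg (FA.et0 h.a0 y) (sq_nonneg _)
  have hig : ∀ x, et b0 x ≠ 0 → 1 / gam H b0 x ≤ C := fun x hx => by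
    rw [div_le_iff₀ (h.g0 hx)]
    exact h.io x hx
  -- mean squares
  have hms : ∀ (v : ι → ℝ) (x : ι), et b0 x ≠ 0 →
      (1 / gam H b0 x * ∑ y, et b0 y * ‖rsc H b0 x y‖ ^ 2 * v y) ^ 2 ≤
        1 / gam H b0 x * ∑ y, et b0 y * ‖rsc H b0 x y‖ ^ 2 * v y ^ 2 := by
    intro v x hx
    have hg := h.g0 hx
    have q1 : (∑ y, et b0 y * ‖rsc H b0 x y‖ ^ 2 * v y) ^ 2 ≤
        (∑ y, et b0 y * ‖rsc H b0 x y‖ ^ 2) * ∑ y, et b0 y * ‖rsc H b0 x y‖ ^ 2 * v y ^ 2 := by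
      refine sum_sq_le_sum_mul_sum_of_sq_le_mul Finset.univ (fun y _ => hW0 x y)
        (fun y _ => mul_nonneg (hW0 x y) (sq_nonneg _)) (fun y _ => le_of_eq (by ring))
    rw [← gam_ward h.a0 x] at q1
    rw [mul_pow]
    calc (1 / gam H b0 x) ^ 2 * (∑ y, et b0 y * ‖rsc H b0 x y‖ ^ 2 * v y) ^ 2
        ≤ (1 / gam H b0 x) ^ 2 * (gam H b0 x * ∑ y, et b0 y * ‖rsc H b0 x y‖ ^ 2 * v y ^ 2) :=
          mul_le_mul_of_nonneg_left q1 (sq_nonneg _)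
      _ = _ := by field_simp
  have hhi : ∀ x, et b0 x ≠ 0 →
      (1 / gam H b0 x * ∑ y, et b0 y * ‖rsc H b0 x y‖ ^ 2 * u2 y) ^ 2 ≤
        C * ∑ y, et b0 y * ‖rsc H b0 x y‖ ^ 2 * u2 y ^ 2 := fun x hx =>
    (hms u2 x hx).trans (mul_le_mul_of_nonneg_right (hig x hx)
      (Finset.sum_nonneg fun y _ => mul_nonneg (hW0 x y) (sq_nonneg _)))
  refine ⟨k, fun x => 1 / gam H b0 x * ∑ y, et b0 y * ‖rsc H b0 x y‖ ^ 2 * u1 y,
    fun x => 1 / gam H b0 x * ∑ y, et b0 y * ‖rsc H b0 x y‖ ^ 2 * u2 y, ?_, ?_, ?_, ?_⟩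
  · intro x hx
    have hg := h.g0 hx
    rw [h.ph_av hx]
    have q1 : ∑ y, et b0 y * ‖rsc H b0 x y‖ ^ 2 * u y =
        gam H b0 x * k + ∑ y, et b0 y * ‖rsc H b0 x y‖ ^ 2 * u1 y +
          ∑ y, et b0 y * ‖rsc H b0 x y‖ ^ 2 * u2 y := by
      rw [gam_ward h.a0 x, Finset.sum_mul, ← Finset.sum_add_distrib, ← Finset.sum_add_distrib]
      refine Finset.sum_congr rfl fun y _ => ?_
      rcases eq_or_ne (et b0 y) 0 with hy | hy
      · rw [hy]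
        ring
      · rw [hk y hy]
        ring
    rw [q1, mul_add, mul_add]
    congr 2
    field_simp
  · intro x hx
    have hg := h.g0 hx
    refine (hms u1 x hx).trans ?_
    have q1 : ∑ y, et b0 y * ‖rsc H b0 x y‖ ^ 2 * u1 y ^ 2 ≤ gam H b0 x * e1 := by
      rw [gam_ward h.a0 x, Finset.sum_mul]
      refine Finset.sum_le_sum fun y _ => ?_
      rcases eq_or_ne (et b0 y) 0 with hy | hy
      · rw [hy]
        simp
      · exact mul_le_mul_of_nonneg_left (h1 y hy) (hW0 x y)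
    calc 1 / gam H b0 x * ∑ y, et b0 y * ‖rsc H b0 x y‖ ^ 2 * u1 y ^ 2
        ≤ 1 / gam H b0 x * (gam H b0 x * e1) := mul_le_mul_of_nonneg_left q1 (by positivity)
      _ = e1 := by field_simp
  · have q1 : ∑ x, et b0 x * (1 / gam H b0 x * ∑ y, et b0 y * ‖rsc H b0 x y‖ ^ 2 * u2 y) ^ 2 ≤
        ∑ x, et b0 x * (C * ∑ y, et b0 y * ‖rsc H b0 x y‖ ^ 2 * u2 y ^ 2) := by
      refine Finset.sum_le_sum fun x _ => ?_
      rcases eq_or_ne (et b0 x) 0 with hx | hx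
      · rw [hx]
        simp
      · exact mul_le_mul_of_nonneg_left (hhi x hx) (FA.et0 h.a0 x)
    have q2 : ∑ x, et b0 x * (C * ∑ y, et b0 y * ‖rsc H b0 x y‖ ^ 2 * u2 y ^ 2) =
        C * ∑ y, gam H b0 y * (et b0 y * u2 y ^ 2) := by
      have q3 : ∀ x, et b0 x * (C * ∑ y, et b0 y * ‖rsc H b0 x y‖ ^ 2 * u2 y ^ 2) =
          ∑ y, C * ((et b0 x * ‖rsc H b0 y x‖ ^ 2) * (et b0 y * u2 y ^ 2)) := by
        intro x
        rw [Finset.mul_sum, Finset.mul_sum]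
        refine Finset.sum_congr rfl fun y _ => ?_
        rw [adm_symm h.a0 x y]
        ring
      rw [Finset.sum_congr rfl fun x _ => q3 x, Finset.sum_comm, Finset.mul_sum]
      refine Finset.sum_congr rfl fun y _ => ?_
      rw [gam_ward h.a0 y, Finset.sum_mul, Finset.mul_sum]
    have q3 : ∑ y, gam H b0 y * (et b0 y * u2 y ^ 2) ≤ C * ∑ y, et b0 y * u2 y ^ 2 := by
      rw [Finset.mul_sum]
      refine Finset.sum_le_sum fun y _ => ?_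
      rcases eq_or_ne (et b0 y) 0 with hy | hy
      · rw [hy]
        simp
      · exact mul_le_mul_of_nonneg_right (h.io' y hy)
          (mul_nonneg (FA.et0 h.a0 y) (sq_nonneg _))
    have q4 : C * ∑ y, et b0 y * u2 y ^ 2 ≤ C * e2 := mul_le_mul_of_nonneg_left h2 hC0.le
    calc ∑ x, et b0 x * (1 / gam H b0 x * ∑ y, et b0 y * ‖rsc H b0 x y‖ ^ 2 * u2 y) ^ 2
        ≤ C * ∑ y, gam H b0 y * (et b0 y * u2 y ^ 2) := q1.trans q2.le
      _ ≤ C * (C * e2) := mul_le_mul_of_nonneg_left (q3.trans q4) hC0.le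
      _ = C ^ 2 * e2 := by ring
  · intro x hx
    refine (hhi x hx).trans ?_
    have q1 : ∑ y, et b0 y * ‖rsc H b0 x y‖ ^ 2 * u2 y ^ 2 ≤
        Lm ^ 2 * ∑ y, et b0 y * u2 y ^ 2 := by
      rw [Finset.mul_sum]
      refine Finset.sum_le_sum fun y _ => ?_
      rcases eq_or_ne (et b0 y) 0 with hy | hy
      · rw [hy]
        simp
      · have q2 : ‖rsc H b0 x y‖ ^ 2 ≤ Lm ^ 2 := pow_le_pow_left₀ (norm_nonneg _) (hL0 x y hx hy) 2
        have q3 := mul_le_mul_of_nonneg_right q2 (mul_nonneg (FA.et0 h.a0 y) (sq_nonneg (u2 y)))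
        linarith
    have q2 : Lm ^ 2 * ∑ y, et b0 y * u2 y ^ 2 ≤ Lm ^ 2 * e2 :=
      mul_le_mul_of_nonneg_left h2 (sq_nonneg _)
    calc C * ∑ y, et b0 y * ‖rsc H b0 x y‖ ^ 2 * u2 y ^ 2 ≤ C * (Lm ^ 2 * e2) :=
          mul_le_mul_of_nonneg_left (q1.trans q2) hC0.le
      _ = _ := by ring

/-- one site -/
theorem dab_one {B : Finset ι} {e1 e2 Lm : ℝ} (he1 : 0 ≤ e1) (he2 : 0 ≤ e2) (hLm : 0 ≤ Lm)
    (hsm : SM0 H b0 B e1 e2)
    (hL0 : ∀ x y, et b0 x ≠ 0 → et b0 y ≠ 0 → ‖rsc H b0 x y‖ ≤ Lm)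
    (hL : ∀ x y, et b0 x ≠ 0 → et b0 y ≠ 0 → ‖rsc H b x y‖ ≤ 2 * Lm)
    {u : ι → ℝ} (hu : ∀ x, x ∉ B → u x = 0) (hN : NI H b0 b I u ≤ 1) {w : ι}
    (hw : et b0 w ≠ 0) (hgw : gam H b w ≤ 2 * C) :
    Dab H b0 b u w ≤ 48 * C ^ 2 / d0 * (Lm ^ 2 + e1 + Lm ^ 2 * e2) := by
  have hC1 := h.C1
  have hC0 : 0 < C := by linarith
  have hdp := h.dp
  obtain ⟨k, l, hi, hk, hl, hh, hh1⟩ := h.sm_ph he2 hsm hL0 hu ((h.q_le_ni u).trans hN)
  have hGam : ∑ x, et b x * ‖rsc H b x w‖ ^ 2 = gam H b w := by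
    rw [gam_ward h.a1 w]
    exact Finset.sum_congr rfl fun x _ => by rw [adm_symm h.a1 x w]
  have hG2 : ∀ x, et b0 x ≠ 0 → ‖rsc H b x w‖ ^ 2 ≤ 4 * Lm ^ 2 := fun x hx => by
    calc ‖rsc H b x w‖ ^ 2 ≤ (2 * Lm) ^ 2 := pow_le_pow_left₀ (norm_nonneg _) (hL x w hx hw) 2
      _ = _ := by ring
  -- first part
  have p1 : ∑ x, et b x * ‖rsc H b x w‖ ^ 2 * dl H b0 b u x ^ 2 ≤ 8 * C / d0 * Lm ^ 2 := by
    have q1 : ∑ x, et b x * ‖rsc H b x w‖ ^ 2 * dl H b0 b u x ^ 2 ≤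
        4 * Lm ^ 2 * ∑ x, et b x * dl H b0 b u x ^ 2 := by
      rw [Finset.mul_sum]
      refine Finset.sum_le_sum fun x _ => ?_
      rcases eq_or_ne (et b0 x) 0 with hx | hx
      · rw [h.eq0 x hx]
        simp
      · have q2 := mul_le_mul_of_nonneg_right (hG2 x hx)
          (mul_nonneg (FA.et0 h.a1 x) (sq_nonneg (dl H b0 b u x)))
        linarith
    have q2 := h.dl_sq' u
    have q3 : 2 * C / d0 * NI H b0 b I u ≤ 2 * C / d0 * 1 :=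
      mul_le_mul_of_nonneg_left hN (by positivity)
    calc ∑ x, et b x * ‖rsc H b x w‖ ^ 2 * dl H b0 b u x ^ 2
        ≤ 4 * Lm ^ 2 * ∑ x, et b x * dl H b0 b u x ^ 2 := q1
      _ ≤ 4 * Lm ^ 2 * (2 * C / d0 * 1) :=
          mul_le_mul_of_nonneg_left (q2.trans q3) (by positivity)
      _ = _ := by ring
  -- second part
  have p2 : ∑ x, et b x * ‖rsc H b x w‖ ^ 2 * (ph H b0 u x - ph H b0 u w) ^ 2 ≤
      24 * C * e1 + 18 * C ^ 2 * Lm ^ 2 * e2 := by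
    have q1 : ∑ x, et b x * ‖rsc H b x w‖ ^ 2 * (ph H b0 u x - ph H b0 u w) ^ 2 ≤
        ∑ x, (12 * e1 * (et b x * ‖rsc H b x w‖ ^ 2) + 12 * Lm ^ 2 * (et b0 x * hi x ^ 2) +
          3 * hi w ^ 2 * (et b x * ‖rsc H b x w‖ ^ 2)) := by
      refine Finset.sum_le_sum fun x _ => ?_
      rcases eq_or_ne (et b0 x) 0 with hx | hx
      · rw [h.eq0 x hx, hx]
        simp
      · have q2 := wt0 h.a1 x w
        have q3 : (ph H b0 u x - ph H b0 u w) ^ 2 ≤ 12 * e1 + 3 * hi x ^ 2 + 3 * hi w ^ 2 := by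
          rw [hk x hx, hk w hw]
          have r1 := hl x hx
          have r2 := hl w hw
          nlinarith [sq_nonneg (l x + l w), sq_nonneg (l x - l w - hi x),
            sq_nonneg (l x - l w + hi w), sq_nonneg (hi x + hi w)]
        have q4 := mul_le_mul_of_nonneg_left q3 q2
        have q5 : et b x * ‖rsc H b x w‖ ^ 2 * (3 * hi x ^ 2) ≤
            12 * Lm ^ 2 * (et b0 x * hi x ^ 2) := by
          have r1 : et b x * ‖rsc H b x w‖ ^ 2 ≤ et b0 x * (4 * Lm ^ 2) :=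
            mul_le_mul (h.le x) (hG2 x hx) (sq_nonneg _) (FA.et0 h.a0 x)
          have r2 := mul_le_mul_of_nonneg_right r1 (by positivity : 0 ≤ 3 * hi x ^ 2)
          linarith
        linarith
    rw [Finset.sum_add_distrib, Finset.sum_add_distrib, ← Finset.mul_sum, ← Finset.mul_sum,
      ← Finset.mul_sum, hGam] at q1
    have q2 : 12 * e1 * gam H b w ≤ 12 * e1 * (2 * C) :=
      mul_le_mul_of_nonneg_left hgw (by positivity)
    have q3 : 12 * Lm ^ 2 * ∑ x, et b0 x * hi x ^ 2 ≤ 12 * Lm ^ 2 * (C ^ 2 * e2) :=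
      mul_le_mul_of_nonneg_left hh (by positivity)
    have q4 : 3 * hi w ^ 2 * gam H b w ≤ 3 * (C * Lm ^ 2 * e2) * (2 * C) :=
      mul_le_mul (mul_le_mul_of_nonneg_left (hh1 w hw) (by norm_num)) hgw
        (gam_nonneg h.a1 w) (by positivity)
    linarith
  have p3 : Dab H b0 b u w = ∑ x, et b x * ‖rsc H b x w‖ ^ 2 * dl H b0 b u x ^ 2 +
      2 * ∑ x, et b x * ‖rsc H b x w‖ ^ 2 * (ph H b0 u x - ph H b0 u w) ^ 2 := by
    unfold Dab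
    rw [Finset.mul_sum, ← Finset.sum_add_distrib]
    exact Finset.sum_congr rfl fun x _ => by ring
  rw [p3]
  -- constants
  have c1 : C ≤ C ^ 2 := by nlinarith
  have c2 : C ^ 2 ≤ C ^ 2 / d0 := by
    rw [le_div_iff₀ hdp]
    have := h.dp1
    nlinarith [sq_nonneg C]
  have c3 : C / d0 ≤ C ^ 2 / d0 := div_le_div_of_nonneg_right c1 hdp.le
  have c4 : 8 * C / d0 * Lm ^ 2 ≤ 48 * (C ^ 2 / d0) * Lm ^ 2 := by
    have r1 : 8 * C / d0 = 8 * (C / d0) := by ring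
    rw [r1]
    refine mul_le_mul_of_nonneg_right ?_ (sq_nonneg _)
    have r2 : 0 ≤ C ^ 2 / d0 := by positivity
    linarith
  have c5 : 48 * C * e1 ≤ 48 * (C ^ 2 / d0) * e1 :=
    mul_le_mul_of_nonneg_right (by linarith) he1
  have c6 : 36 * C ^ 2 * Lm ^ 2 * e2 ≤ 48 * (C ^ 2 / d0) * (Lm ^ 2 * e2) := by
    have r1 : 36 * C ^ 2 ≤ 48 * (C ^ 2 / d0) := by
      have r2 : 0 ≤ C ^ 2 / d0 := by positivity
      linarith
    have r2 := mul_le_mul_of_nonneg_right r1 (by positivity : 0 ≤ Lm ^ 2 * e2)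
    linarith
  have c7 : 48 * C ^ 2 / d0 * (Lm ^ 2 + e1 + Lm ^ 2 * e2) = 48 * (C ^ 2 / d0) * Lm ^ 2 +
      48 * (C ^ 2 / d0) * e1 + 48 * (C ^ 2 / d0) * (Lm ^ 2 * e2) := by ring
  rw [c7]
  linarith

end Dat

end Pool.Agent.ANS.FormM
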