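import Pool.Agent.ANS.FormM.Alg

/-! # ANS FORMM DEFS: the functional `M` at a configuration (helper22)

`(H, b0)` = start, `(H, b)` = current configuration, `et b x = -Im b_x` absorption, `gam b x = Im G_xx`.
`I` = inert sites (weak outcomes): there `et b x` may be much smaller than `et b0 x`.

* `fv u = Q_0 u`, `fh u = fv u / Γ⁰`, `ph u = u - fv u / m⁰`, `dl u = fv u / m` (`m = η Γ⁰`), `uc u = ph u + dl u`,
  `bt = 1/m - 1/m⁰ ≥ 0`, so `uc u = u + bt · fv u`.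
* `Qb` = polar form of `Qp`.
* `Mf b (u, v)`: linear in `|G|²`, polynomial in `η`; `Mf b0 = 0`.
* `NI`: the normaliser `Q_0(u) + ∑_{x ∈ I} bt_x (fv u x)²`.
* `Pw, Tw, Dw`: the coefficients of `e3`. -/

set_option autoImplicit false

open Matrix Finset

noncomputable section

namespace Pool.Agent.ANS.FormM

open Pool.Agent.Kin Pool.Agent.APS Pool.Agent.ANL
open Pool.Agent.ANS.FA (et Qp ev Tf al)

variable {ι : Type} [Fintype ι] [DecidableEq ι]

section defs

variable (H : Matrix ι ι ℂ) (b0 b : ι → ℂ)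

/-- `Γ_x = Im G_xx` -/
def gam (x : ι) : ℝ := (rsc H b x x).im

/-- `(Q u)_x` for the form of `(H, b)` -/
def fv (u : ι → ℝ) (x : ι) : ℝ := et b x * ∑ y, et b y * ‖rsc H b x y‖ ^ 2 * (u x - u y)

def fh (u : ι → ℝ) (x : ι) : ℝ := fv H b0 u x / gam H b0 x

def ph (u : ι → ℝ) (x : ι) : ℝ := u x - fv H b0 u x / (et b0 x * gam H b0 x)

def dl (u : ι → ℝ) (x : ι) : ℝ := fv H b0 u x / (et b x * gam H b0 x)

def uc (u : ι → ℝ) (x : ι) : ℝ := ph H b0 u x + dl H b0 b u x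

def bt (x : ι) : ℝ := 1 / (et b x * gam H b0 x) - 1 / (et b0 x * gam H b0 x)

/-- polar form of `Qp` -/
def Qb (u v : ι → ℝ) : ℝ :=
  1 / 2 * ∑ x, ∑ y, et b x * ‖rsc H b x y‖ ^ 2 * et b y * ((u x - u y) * (v x - v y))

/-- the functional -/
def Mf (u v : ι → ℝ) : ℝ :=
  Mr (rsc H b) (et b) (fh H b0 u) (ph H b0 u) (fh H b0 v) (ph H b0 v) -
    Mr (rsc H b0) (et b0) (fh H b0 u) (ph H b0 u) (fh H b0 v) (ph H b0 v)

/-- the normaliser -/
def NI (I : Finset ι) (u : ι → ℝ) : ℝ := Qp H b0 u + ∑ x ∈ I, bt H b0 b x * fv H b0 u x ^ 2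

def Pw (u : ι → ℝ) (w : ι) : ℝ := Pi' (rsc H b) (et b) (fh H b0 u) (ph H b0 u) w

/-- second part of `T_w` -/
def Td (u v : ι → ℝ) (w : ι) : ℂ :=
  ∑ x, ((et b x * (dl H b0 b u x * dl H b0 b v x) : ℝ) : ℂ) *
    (rsc H b x w * ((rsc H b x w).im : ℂ))

def Tw (u v : ι → ℝ) (w : ι) : ℂ :=
  -Tf H b w (uc H b0 b u) (uc H b0 b v) + Td H b0 b u v w

def Dw (u v : ι → ℝ) (w : ι) : ℝ :=
  ∑ x, et b x * ‖rsc H b x w‖ ^ 2 * (dl H b0 b u x * dl H b0 b v x -
    (uc H b0 b u x - ph H b0 u w) * (uc H b0 b v x - ph H b0 v w))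

/-- majorant of `D_w` -/
def Dab (u : ι → ℝ) (w : ι) : ℝ :=
  ∑ x, et b x * ‖rsc H b x w‖ ^ 2 *
    (dl H b0 b u x ^ 2 + 2 * (ph H b0 u x - ph H b0 u w) ^ 2)

end defs

/-- STANDING DATA at a configuration -/
structure Dat (H : Matrix ι ι ℂ) (b0 b : ι → ℂ) (I : Finset ι) (C d0 : ℝ) : Prop where
  a0 : Adm H b0
  a1 : Adm H b
  C1 : 1 ≤ C
  dp : 0 < d0
  dp1 : d0 ≤ 1
  eq0 : ∀ x, et b0 x = 0 → et b x = 0
  pos : ∀ x, et b0 x ≠ 0 → 0 < et b x
  le : ∀ x, et b x ≤ et b0 x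
  lo : ∀ x, x ∉ I → d0 * et b0 x ≤ et b x
  io : ∀ x, et b0 x ≠ 0 → 1 ≤ C * gam H b0 x
  io' : ∀ x, et b0 x ≠ 0 → gam H b0 x ≤ C

variable {H : Matrix ι ι ℂ} {b0 b : ι → ℂ} {I : Finset ι} {C d0 : ℝ}

/-! ### linearity -/

theorem fv_add (u v : ι → ℝ) (x : ι) : fv H b (fun y => u y + v y) x = fv H b u x + fv H b v x := by
  unfold fv
  rw [← mul_add, ← Finset.sum_add_distrib]
  congr 1
  refine Finset.sum_congr rfl fun y _ => ?_
  ring

theorem fv_smul (c : ℝ) (u : ι → ℝ) (x : ι) : fv H b (fun y => c * u y) x = c * fv H b u x := by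
  unfold fv
  rw [Finset.mul_sum, Finset.mul_sum, Finset.mul_sum]
  refine Finset.sum_congr rfl fun y _ => ?_
  ring

theorem fh_add (u v : ι → ℝ) (x : ι) : fh H b (fun y => u y + v y) x = fh H b u x + fh H b v x := by
  unfold fh
  rw [fv_add]
  ring

theorem fh_smul (c : ℝ) (u : ι → ℝ) (x : ι) : fh H b (fun y => c * u y) x = c * fh H b u x := by
  unfold fh
  rw [fv_smul]
  ring

theorem ph_add (u v : ι → ℝ) (x : ι) : ph H b (fun y => u y + v y) x = ph H b u x + ph H b v x := by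
  unfold ph
  rw [fv_add]
  ring

theorem ph_smul (c : ℝ) (u : ι → ℝ) (x : ι) : ph H b (fun y => c * u y) x = c * ph H b u x := by
  unfold ph
  rw [fv_smul]
  ring

theorem dl_add (u v : ι → ℝ) (x : ι) :
    dl H b0 b (fun y => u y + v y) x = dl H b0 b u x + dl H b0 b v x := by
  unfold dl
  rw [fv_add]
  ring

theorem dl_smul (c : ℝ) (u : ι → ℝ) (x : ι) :
    dl H b0 b (fun y => c * u y) x = c * dl H b0 b u x := by
  unfold dl
  rw [fv_smul]
  ring

theorem uc_add (u v : ι → ℝ) (x : ι) :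
    uc H b0 b (fun y => u y + v y) x = uc H b0 b u x + uc H b0 b v x := by
  unfold uc
  rw [ph_add, dl_add]
  ring

theorem uc_smul (c : ℝ) (u : ι → ℝ) (x : ι) :
    uc H b0 b (fun y => c * u y) x = c * uc H b0 b u x := by
  unfold uc
  rw [ph_smul, dl_smul]
  ring

omit [DecidableEq ι] in
theorem Mr_add (G : Matrix ι ι ℂ) (η f φ f' φ' f'' φ'' : ι → ℝ) :
    Mr G η f φ (fun y => f' y + f'' y) (fun y => φ' y + φ'' y) =
      Mr G η f φ f' φ' + Mr G η f φ f'' φ'' := by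
  unfold Mr
  rw [sub_add_sub_comm]
  simp only [← Finset.sum_add_distrib]
  congr 1
  · refine Finset.sum_congr rfl fun x _ => Finset.sum_congr rfl fun y _ => ?_
    ring
  · refine Finset.sum_congr rfl fun x _ => ?_
    ring

omit [DecidableEq ι] in
theorem Mr_smul (G : Matrix ι ι ℂ) (η f φ f' φ' : ι → ℝ) (c : ℝ) :
    Mr G η f φ (fun y => c * f' y) (fun y => c * φ' y) = c * Mr G η f φ f' φ' := by
  unfold Mr
  rw [mul_sub]
  simp only [Finset.mul_sum]
  congr 1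
  · refine Finset.sum_congr rfl fun x _ => Finset.sum_congr rfl fun y _ => ?_
    ring
  · refine Finset.sum_congr rfl fun x _ => ?_
    ring

omit [DecidableEq ι] in
theorem Mr_symm {G : Matrix ι ι ℂ} (hG : ∀ x y, G x y = G y x) (η f φ f' φ' : ι → ℝ) :
    Mr G η f φ f' φ' = Mr G η f' φ' f φ := by
  unfold Mr
  congr 1
  · rw [Finset.sum_comm]
    refine Finset.sum_congr rfl fun x _ => Finset.sum_congr rfl fun y _ => ?_
    rw [hG y x]
    ring
  · refine Finset.sum_congr rfl fun x _ => ?_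
    ring

theorem Mf_add (u v v' : ι → ℝ) :
    Mf H b0 b u (fun y => v y + v' y) = Mf H b0 b u v + Mf H b0 b u v' := by
  have e1 : fh H b0 (fun y => v y + v' y) = fun y => fh H b0 v y + fh H b0 v' y :=
    funext fun x => fh_add v v' x
  have e2 : ph H b0 (fun y => v y + v' y) = fun y => ph H b0 v y + ph H b0 v' y :=
    funext fun x => ph_add v v' x
  unfold Mf
  rw [e1, e2, Mr_add, Mr_add]
  ring

theorem Mf_smul (u v : ι → ℝ) (c : ℝ) :
    Mf H b0 b u (fun y => c * v y) = c * Mf H b0 b u v := by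
  have e1 : fh H b0 (fun y => c * v y) = fun y => c * fh H b0 v y :=
    funext fun x => fh_smul c v x
  have e2 : ph H b0 (fun y => c * v y) = fun y => c * ph H b0 v y :=
    funext fun x => ph_smul c v x
  unfold Mf
  rw [e1, e2, Mr_smul, Mr_smul]
  ring

theorem Mf_nil (u v : ι → ℝ) : Mf H b0 b0 u v = 0 := by
  unfold Mf
  ring

namespace Dat

variable (h : Dat H b0 b I C d0)
include h

theorem Mf_symm (u v : ι → ℝ) : Mf H b0 b u v = Mf H b0 b v u := by
  unfold Mf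
  rw [Mr_symm (adm_symm h.a1), Mr_symm (adm_symm h.a0)]

theorem g0 {x : ι} (hx : et b0 x ≠ 0) : 0 < gam H b0 x := by
  have h1 := h.io x hx
  have h2 := h.C1
  by_contra h3
  nlinarith [not_lt.1 h3]

omit h in
theorem fv_off {x : ι} (hx : et b0 x = 0) (u : ι → ℝ) : fv H b0 u x = 0 := by
  unfold fv
  rw [hx, zero_mul]

/-- `fh = η dl` -/
theorem fh_dl (u : ι → ℝ) (x : ι) : fh H b0 u x = et b x * dl H b0 b u x := by
  unfold fh dl
  rcases eq_or_ne (et b0 x) 0 with hx | hx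
  · rw [fv_off hx]
    simp
  · have h1 := h.pos x hx
    have h2 := h.g0 hx
    field_simp

/-- `fv = m dl` -/
theorem fv_dl (u : ι → ℝ) (x : ι) : fv H b0 u x = et b x * gam H b0 x * dl H b0 b u x := by
  unfold dl
  rcases eq_or_ne (et b0 x) 0 with hx | hx
  · rw [fv_off hx]
    simp
  · have h1 := h.pos x hx
    have h2 := h.g0 hx
    field_simp

omit h in
/-- `uc u = u + bt fv u` -/
theorem uc_bt (u : ι → ℝ) (x : ι) : uc H b0 b u x = u x + bt H b0 b x * fv H b0 u x := by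
  unfold uc ph dl bt
  ring

theorem bt0 (x : ι) : 0 ≤ bt H b0 b x := by
  unfold bt
  rcases eq_or_ne (et b0 x) 0 with hx | hx
  · rw [hx, h.eq0 x hx]
    simp
  · have h1 := h.pos x hx
    have h2 := h.g0 hx
    have h3 := h.le x
    have h4 : et b x * gam H b0 x ≤ et b0 x * gam H b0 x :=
      mul_le_mul_of_nonneg_right h3 h2.le
    have h5 := one_div_le_one_div_of_le (mul_pos h1 h2) h4
    linarith

omit h in
/-- THE EXACT FORMULA for the change of `M` (`b'` = `b` changed at one site) -/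
theorem e3m {b' : ι → ℂ} (h : Dat H b0 b I C d0) {w : ι} {ρ : ℂ} {δw : ℝ}
    (hG : ∀ x y, rsc H b' x y = rsc H b x y - ρ * (rsc H b x w * rsc H b w y))
    (hη : ∀ x, et b' x = et b x + if x = w then δw else 0)
    (hδ : δw * ‖1 - ρ * rsc H b w w‖ ^ 2 = -ρ.im - ‖ρ‖ ^ 2 * (rsc H b w w).im)
    (u v : ι → ℝ) :
    Mf H b0 b' u v - Mf H b0 b u v =
      -2 * (ρ * Tw H b0 b u v w).re + ‖ρ‖ ^ 2 * (Pw H b0 b u w * Pw H b0 b v w) -
        ρ.im * Dw H b0 b u v w := by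
  have h1 := e3 (adm_symm h.a1) (ward2 h.a1) hG hη hδ (fh H b0 u) (ph H b0 u) (dl H b0 b u)
    (fh H b0 v) (ph H b0 v) (dl H b0 b v) (h.fh_dl u) (h.fh_dl v)
  unfold Mf
  rw [sub_sub_sub_cancel_right]
  exact h1

end Dat

end Pool.Agent.ANS.FormM
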