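import Pool.Agent.ANS.FormM.Noi
import Pool.Agent.ANS.DigB
import Pool.Agent.ANS.Form.FH

/-! # ANS FORMM LINK: the functional `M` at the configurations of a step, general laws (helper22)

`inr ok s` = inert sites of `s` (weak values).  `dat`: `Stp.OkB` gives the standing data `Dat` with
`d0 = 1/C`.  `e3s`: exact change of `M` at one site; `drM`: exact mean change; `im_u`: `|Im u| ≤ 20 C β²`. -/

set_option autoImplicit false
set_option linter.unusedSectionVars false

open Finset Function Matrix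

noncomputable section

namespace Pool.Agent.ANS.FormM

open Pool.Agent.Kin Pool.Agent.APS Pool.Agent.ANL
open Pool.Agent.ANS.FA (et Qp ev Tf al)

variable {T D : Type} [Fintype T] [DecidableEq T]

open Classical in
/-- inert sites of `s` -/
def inr (ok : T → Option D → Prop) (s : T → Option D) : Finset T :=
  univ.filter (fun w => ¬ ok w (s w))

theorem mem_inr {ok : T → Option D → Prop} {s : T → Option D} {w : T} :
    w ∈ inr ok s ↔ ¬ ok w (s w) := by
  classical
  unfold inr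
  rw [Finset.mem_filter]
  simp

/-- the start -/
theorem bs_nil (P : Stp T D) : P.bs nil = P.b := by
  funext x
  simp [Stp.bs, nil, Stp.inc]

theorem et_bs (P : Stp T D) (s : T → Option D) (x : T) : et (P.bs s) x = P.eta s x := rfl

theorem et_b (P : Stp T D) (x : T) : et P.b x = P.eta nil x := by
  rw [← et_bs, bs_nil]

theorem gam_s (P : Stp T D) (s : T → Option D) (x : T) : gam P.H (P.bs s) x = P.io s x := rfl

theorem gam_b (P : Stp T D) (x : T) : gam P.H P.b x = P.io nil x := by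
  rw [← gam_s, bs_nil]

/-- `qf = Qp` -/
theorem qf_qp {P : Stp T D} {s : T → Option D} (h : Adm P.H (P.bs s)) (v : T → ℝ) :
    P.qf s v = Qp P.H (P.bs s) v := by
  rw [← qb_self, qb_fv h]
  unfold Stp.qf
  refine Finset.sum_congr rfl fun x _ => ?_
  rw [fv_ward h]
  have e2 : ∀ y, v x * P.Qm s x y * v y =
      (if x = y then v x * (P.eta s x * P.io s x) * v y else 0) -
        P.eta s x * v x * (‖rsc P.H (P.bs s) x y‖ ^ 2 * (et (P.bs s) y * v y)) := by
    intro y
    have e3 : P.Qm s x y = (if x = y then P.eta s x * P.io s x else 0) -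
      P.eta s x * ‖rsc P.H (P.bs s) x y‖ ^ 2 * et (P.bs s) y := rfl
    rw [e3]
    by_cases hxy : x = y
    · rw [if_pos hxy, if_pos hxy]
      ring
    · rw [if_neg hxy, if_neg hxy]
      ring
  simp only [e2, Finset.sum_sub_distrib]
  rw [Finset.sum_ite_eq Finset.univ x (fun y => v x * (P.eta s x * P.io s x) * v y),
    if_pos (Finset.mem_univ x), ← Finset.mul_sum, gam_s, et_bs]
  ring

/-- extension by zero -/
def xt (B : Finset T) (v : ↥B → ℝ) (x : T) : ℝ := if h : x ∈ B then v ⟨x, h⟩ else 0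

theorem xt_off (B : Finset T) (v : ↥B → ℝ) (x : T) (hx : x ∉ B) : xt B v x = 0 := by
  simp [xt, hx]

theorem xt_on (B : Finset T) (v : ↥B → ℝ) (x : ↥B) : xt B v x = v x := by
  simp [xt]

theorem xt_res (B : Finset T) {v : T → ℝ} (hv : ∀ x, x ∉ B → v x = 0) :
    xt B (fun x : ↥B => v x) = v := by
  funext x
  by_cases hx : x ∈ B
  · simp [xt, hx]
  · simp [xt, hx, hv x hx]

theorem sum_xt (B : Finset T) (f : T → ℝ) (hf : ∀ x, x ∉ B → f x = 0) :
    ∑ x, f x = ∑ x : ↥B, f x := by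
  rw [Finset.sum_coe_sort B f]
  symm
  exact Finset.sum_subset (Finset.subset_univ B) fun x _ hx => hf x hx

theorem QB_xt (P : Stp T D) (s : T → Option D) (B : Finset T) (v w : ↥B → ℝ) :
    v ⬝ᵥ P.QB B s *ᵥ w = ∑ x, ∑ y, xt B v x * P.Qm s x y * xt B w y := by
  rw [sum_xt B (fun x => ∑ y, xt B v x * P.Qm s x y * xt B w y) fun x hx => by
    simp [xt_off B v x hx]]
  unfold dotProduct
  refine Finset.sum_congr rfl fun x _ => ?_
  rw [sum_xt B (fun y => xt B v x * P.Qm s x y * xt B w y) fun y hy => by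
    simp [xt_off B w y hy]]
  unfold mulVec dotProduct
  rw [Finset.mul_sum]
  refine Finset.sum_congr rfl fun y _ => ?_
  rw [xt_on, xt_on]
  unfold Stp.QB
  simp only [Matrix.submatrix_apply]
  ring

theorem QB_q (P : Stp T D) (s : T → Option D) (B : Finset T) {v : T → ℝ}
    (hv : ∀ x, x ∉ B → v x = 0) :
    (fun x : ↥B => v x) ⬝ᵥ P.QB B s *ᵥ (fun x : ↥B => v x) = P.qf s v := by
  rw [QB_xt, xt_res B hv]
  rfl

variable [Fintype D] {P : Stp T D} {ok : T → Option D → Prop} {X N B : Finset T} {c be : T → ℝ}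
  {e : T → Option D → ℝ} {C Lm : ℝ}

section

variable (h : P.OkB ok X N c be e C Lm)
include h

theorem et_ne {x : T} : et P.b x ≠ 0 ↔ x ∈ X := by
  rw [et_b]
  constructor
  · intro h1
    by_contra hx
    exact h1 (h.etaU x hx)
  · intro hx
    exact (h.etaX x hx).ne'

/-- the standing data -/
theorem dat (s : T → Option D) : Dat P.H P.b (P.bs s) (inr ok s) C (1 / C) where
  a0 := h.adm
  a1 := h.adms s
  C1 := h.C1
  dp := by
    have := h.C1
    positivity
  dp1 := by
    have := h.C1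
    rw [div_le_one (by linarith)]
    exact this
  eq0 x hx := by
    rw [et_b] at hx
    rw [et_bs]
    refine h.etaU' s fun h1 => ?_
    exact (h.etaX x h1).ne' hx
  pos x hx := h.etaX' s ((et_ne h).1 hx)
  le x := by
    rw [et_b]
    exact h.etaLe s x
  lo x hx := by
    have h1 : ok x (s x) := by
      by_contra h2
      exact hx (mem_inr.2 h2)
    have h2 := h.etaLo h1
    have h3 := h.C1
    rw [et_b, et_bs, one_div, inv_mul_le_iff₀ (by linarith)]
    exact h2
  io x hx := by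
    rw [gam_b]
    exact h.io1 x ((et_ne h).1 hx)
  io' x hx := by
    rw [gam_b]
    exact (Complex.im_le_norm _).trans (h.dia x ((et_ne h).1 hx))

theorem dat_a {s : T → Option D} {a : ℝ} (hs : ∀ x ∈ X, ‖P.G s x x - P.G nil x x‖ ≤ a) (x : T)
    (hx : et P.b x ≠ 0) : |gam P.H (P.bs s) x - gam P.H P.b x| ≤ a := by
  rw [gam_s, gam_b]
  unfold Stp.io
  rw [← Complex.sub_im]
  exact (Complex.abs_im_le_norm _).trans (hs x ((et_ne h).1 hx))

theorem dat_g {s : T → Option D} (hs : P.Ent X 1 s) {x : T} (hx : x ∈ X) :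
    gam P.H (P.bs s) x ≤ 2 * C := h.io_le hs hx

theorem dat_off (hNB : N ⊆ B) (s : T → Option D) (x : T) (hx : x ∉ B) :
    et (P.bs s) x = et P.b x := by
  rw [et_b, et_bs]
  unfold Stp.eta Stp.bs
  rw [h.inc_off fun h1 => hx (hNB h1), h.inc_off fun h1 => hx (hNB h1)]

theorem dat_on (hBX : B ⊆ X) (x : T) (hx : x ∈ B) : et P.b x ≠ 0 := (et_ne h).2 (hBX hx)

/-- smoothing -/
theorem dat_sm {e1 e2 : ℝ} (hsm : P.SM X B e1 e2) : SM0 P.H P.b B e1 e2 := by
  intro u hu hq
  have h1 : P.qf nil u ≤ 1 := by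
    rw [qf_qp (h.adms nil), bs_nil]
    exact hq
  obtain ⟨k, u1, u2, h2, h3, h4⟩ := hsm u hu h1
  refine ⟨k, u1, u2, fun x hx => h2 x ((et_ne h).1 hx), fun x hx => h3 x ((et_ne h).1 hx), ?_⟩
  refine le_trans (le_of_eq ?_) h4
  symm
  refine (Finset.sum_subset (Finset.subset_univ X) fun x _ hx => ?_).trans ?_
  · rw [h.etaU x hx, zero_mul]
  · exact Finset.sum_congr rfl fun x _ => by rw [et_b]

/-- positivity on `B` -/
theorem dat_pd (hpd : (P.QB B nil).PosDef) (u : T → ℝ) (hu : ∀ x, x ∉ B → u x = 0)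
    (h0 : Qp P.H P.b u = 0) (x : T) : u x = 0 := by
  by_contra hx
  have h1 : (fun x : ↥B => u x) ≠ 0 := by
    intro h2
    have h3 : x ∈ B := by
      by_contra h4
      exact hx (hu x h4)
    exact hx (congrFun h2 ⟨x, h3⟩)
  have h2 := hpd.dotProduct_mulVec_pos h1
  rw [star_trivial, QB_q P nil B hu, qf_qp (h.adms nil), bs_nil, h0] at h2
  exact lt_irrefl _ h2

/-- imaginary part of the coefficient and the absorption -/
theorem im_id (s : T → Option D) (w : T) (d : Option D) :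
    (P.eta (update s w d) w - P.eta s w) * ‖1 - P.u s w d * P.G s w w‖ ^ 2 =
      -(P.u s w d).im - ‖P.u s w d‖ ^ 2 * (P.G s w w).im := by
  have h1 := h.den_ne s w d
  have h2 : P.eta (update s w d) w - P.eta s w = -(P.nu s w d).im := by
    unfold Stp.eta Stp.bs Stp.nu
    rw [update_self, Complex.add_im, Complex.add_im, Complex.sub_im]
    ring
  have h3 : 1 - P.u s w d * P.G s w w = 1 / (1 + P.nu s w d * P.G s w w) := by
    unfold Stp.u
    field_simp
    ring
  rw [h2, h3]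
  unfold Stp.u
  set ν := P.nu s w d with hν
  set Γ := P.G s w w with hΓ
  set E := 1 + ν * Γ with hE
  have h5 : 0 < Complex.normSq E := Complex.normSq_pos.2 h1
  have h6 : (ν / E).im = (ν.im - Complex.normSq ν * Γ.im) / Complex.normSq E := by
    rw [Complex.div_im, hE]
    simp only [Complex.add_re, Complex.add_im, Complex.mul_re, Complex.mul_im, Complex.one_re,
      Complex.one_im, Complex.normSq_apply ν]
    rw [← sub_div]
    congr 1
    ring
  rw [h6, norm_div, norm_div, norm_one, div_pow, div_pow, one_pow, ← Complex.normSq_eq_norm_sq,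
    ← Complex.normSq_eq_norm_sq]
  field_simp
  ring

theorem eta_up (s : T → Option D) (w : T) (d : Option D) (x : T) :
    P.eta (update s w d) x = P.eta s x +
      if x = w then P.eta (update s w d) w - P.eta s w else 0 := by
  by_cases hx : x = w
  · subst hx
    rw [if_pos rfl]
    ring
  · rw [if_neg hx, add_zero]
    unfold Stp.eta Stp.bs
    rw [update_of_ne hx]

/-- THE EXACT CHANGE of `M` -/
theorem e3s (s : T → Option D) (w : T) (d : Option D) (u v : T → ℝ) :
    Mf P.H P.b (P.bs (update s w d)) u v - Mf P.H P.b (P.bs s) u v =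
      -2 * (P.u s w d * Tw P.H P.b (P.bs s) u v w).re +
        ‖P.u s w d‖ ^ 2 * (Pw P.H P.b (P.bs s) u w * Pw P.H P.b (P.bs s) v w) -
        (P.u s w d).im * Dw P.H P.b (P.bs s) u v w :=
  (dat h s).e3m (fun x y => h.rank1 s w d x y) (fun x => eta_up h s w d x) (im_id h s w d) u v

/-- `|Im u| ≤ 20 C β²` -/
theorem im_u {s : T → Option D} (hs : P.Ent X 1 s) (w : T) (d : Option D) :
    |(P.u s w d).im| ≤ 20 * C * be w ^ 2 := by
  have hC := h.C1
  have hb := h.be0 w
  by_cases hN : w ∈ N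
  · have hX := h.NX hN
    have h1 := h.den_ne s w d
    have h2 : P.u s w d = P.nu s w d - P.u s w d * P.nu s w d * P.G s w w := by
      unfold Stp.u
      field_simp
      ring
    have hi : ∀ b : Option D, |(P.inc w b).im| ≤ C * be w ^ 2 := by
      intro b
      cases b with
      | none =>
        simp only [Stp.inc, Complex.zero_im, abs_zero]
        positivity
      | some b =>
        have e1 : (P.inc w (some b)).im = P.g.zt w b * (P.gt w).im := by
          simp [Stp.inc]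
        rw [e1, abs_mul]
        calc |P.g.zt w b| * |(P.gt w).im| ≤ be w ^ 2 * C :=
              mul_le_mul (h.dig.zt_le w b) ((Complex.abs_im_le_norm _).trans (h.gt_le hX))
                (abs_nonneg _) (sq_nonneg _)
          _ = _ := by ring
    have h3 : |(P.nu s w d).im| ≤ 2 * (C * be w ^ 2) := by
      unfold Stp.nu
      rw [Complex.sub_im]
      refine (abs_sub _ _).trans ?_
      linarith [hi d, hi (s w)]
    have h4 : ‖P.u s w d * P.nu s w d * P.G s w w‖ ≤ 27 / 2 * (C * be w ^ 2) := by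
      rw [norm_mul, norm_mul]
      calc ‖P.u s w d‖ * ‖P.nu s w d‖ * ‖P.G s w w‖ ≤ (3 * be w) * (9 / 4 * be w) * (2 * C) :=
            mul_le_mul (mul_le_mul (h.u_le hs w d) (h.nu_le s w d) (norm_nonneg _)
              (by positivity)) (h.diaC hs hX) (norm_nonneg _) (by positivity)
        _ = _ := by ring
    have h5 := (Complex.abs_im_le_norm (P.u s w d * P.nu s w d * P.G s w w)).trans h4
    have h6 : |(P.u s w d).im| ≤ |(P.nu s w d).im| +
        |(P.u s w d * P.nu s w d * P.G s w w).im| := by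
      conv_lhs => rw [h2]
      rw [Complex.sub_im]
      exact abs_sub _ _
    have h7 : 0 ≤ C * be w ^ 2 := by positivity
    linarith
  · have h1 : P.u s w d = 0 := by
      unfold Stp.u Stp.nu
      rw [h.inc_off hN, h.inc_off hN, sub_zero, zero_div]
    rw [h1, Complex.zero_im, abs_zero]
    positivity

/-- THE EXACT MEAN CHANGE of `M` -/
theorem drM (s : T → Option D) (w : T) (u v : T → ℝ) :
    ∑ d, P.g.P w d * Mf P.H P.b (P.bs (update s w (some d))) u v -
        Mf P.H P.b (P.bs (update s w none)) u v =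
      -2 * (P.Dl s w * Tw P.H P.b (P.bs s) u v w).re +
        P.M2 s w * (Pw P.H P.b (P.bs s) u w * Pw P.H P.b (P.bs s) v w) -
        (P.Dl s w).im * Dw P.H P.b (P.bs s) u v w := by
  set M0 := Mf P.H P.b (P.bs s) u v with hM0
  set tw := Tw P.H P.b (P.bs s) u v w with htw
  set pw := Pw P.H P.b (P.bs s) u w * Pw P.H P.b (P.bs s) v w with hpw
  set dw := Dw P.H P.b (P.bs s) u v w with hdw
  have e1 : ∀ b : Option D, Mf P.H P.b (P.bs (update s w b)) u v =
      M0 + (-2 * (P.u s w b * tw).re + ‖P.u s w b‖ ^ 2 * pw - (P.u s w b).im * dw) := by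
    intro b
    have := e3s h s w b u v
    linarith
  have e2 : ∑ d, P.g.P w d * Mf P.H P.b (P.bs (update s w (some d))) u v =
      (∑ d, P.g.P w d) * M0 + (-2 * ((∑ d, (P.g.P w d : ℂ) * P.u s w (some d)) * tw).re +
        (∑ d, P.g.P w d * ‖P.u s w (some d)‖ ^ 2) * pw -
          (∑ d, (P.g.P w d : ℂ) * P.u s w (some d)).im * dw) := by
    rw [Finset.sum_mul, Finset.sum_mul, Finset.sum_mul, Complex.re_sum, Complex.im_sum,
      Finset.mul_sum, Finset.sum_mul, ← Finset.sum_add_distrib, ← Finset.sum_sub_distrib,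
      ← Finset.sum_add_distrib]
    refine Finset.sum_congr rfl fun d _ => ?_
    rw [e1 (some d)]
    have h2 : ((P.g.P w d : ℂ) * P.u s w (some d) * tw).re =
        P.g.P w d * (P.u s w (some d) * tw).re := by
      rw [← Complex.re_ofReal_mul]
      congr 1
      ring
    have h3 : ((P.g.P w d : ℂ) * P.u s w (some d)).im = P.g.P w d * (P.u s w (some d)).im := by
      rw [← Complex.im_ofReal_mul]
    rw [h2, h3]
    ring
  rw [e2, h.dig.P1 w, e1 none]
  unfold Stp.Dl Stp.M2
  rw [sub_mul, Complex.sub_re, Complex.sub_im]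
  ring

theorem M2_le {s : T → Option D} (hs : P.Ent X 1 s) (w : T) : |P.M2 s w| ≤ 4 * be w ^ 2 := by
  have h1 := h.M2_est hs w
  have h2 := h.c_le w
  have h3 := h.c0 w
  have h4 := h.bes w
  have h5 := h.be0 w
  have h6 : 250 * C ^ 2 * be w ^ 3 ≤ 3 * be w ^ 2 := by
    have : 250 * C ^ 2 * be w ^ 3 = (5 / 2) * (100 * C ^ 2 * be w) * be w ^ 2 := by ring
    rw [this]
    have := sq_nonneg (be w)
    nlinarith
  rw [abs_le] at h1 ⊢
  constructor <;> linarith [h1.1, h1.2]

end

/-- hypotheses of the form component at the configuration `s` -/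
structure Sh (P : Stp T D) (ok : T → Option D → Prop) (X N B : Finset T) (be : T → ℝ)
    (C θ a bm e1 e2 taum : ℝ) (s : T → Option D) : Prop where
  NB : N ⊆ B
  BX : B ⊆ X
  pd : (P.QB B nil).PosDef
  sm : P.SM X B e1 e2
  e10 : 0 ≤ e1
  e20 : 0 ≤ e2
  bm0 : 0 ≤ bm
  bmle : ∀ w, be w ≤ bm
  a0 : 0 ≤ a
  a1 : 2 * C * a ≤ 1
  /-- all entries are close (crudely), the diagonal entries within `a` -/
  en : P.Ent X 1 s
  dia : ∀ x ∈ X, ‖P.G s x x - P.G nil x x‖ ≤ a
  th0 : 0 ≤ θ
  th1 : θ ≤ 1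
  tau0 : 0 ≤ taum
  /-- fourth power sums over the good sites of the cell -/
  tau : ∀ x ∈ X, ∑ w ∈ N, (if bo ok be s w = 0 then 0 else ‖P.G s x w‖ ^ 4) ≤ taum
  hM : ∀ u v : T → ℝ, (∀ x, x ∉ B → u x = 0) → (∀ x, x ∉ B → v x = 0) →
    Mf P.H P.b (P.bs s) u v ^ 2 ≤
      θ ^ 2 * (NI P.H P.b (P.bs s) (inr ok s) u * NI P.H P.b (P.bs s) (inr ok s) v)

/-- bound of `Π` -/
def EPc (C θ a : ℝ) : ℝ := 8 * C * (θ + 2 * C ^ 2 * a) ^ 2

/-- noise constant -/
def nuM (C Lm θ a bm e1 e2 taum : ℝ) : ℝ :=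
  108 * (40 * C * (2 * C ^ 3 * e1 + (2 * C ^ 2 * e2 + 4 * C ^ 2) *
      √(2 * C ^ 3 * (bm ^ 2 * taum))) + 8 * C ^ 4 * (bm ^ 2 * taum)) +
    243 * (C ^ 4 * EPc C θ a ^ 2) +
    1200 * C ^ 2 * (bm ^ 2 * (48 * C ^ 3 * (Lm ^ 2 + e1 + Lm ^ 2 * e2)) * C ^ 2 * (108 * C))

/-- drift constant -/
def drC (C θ a bm : ℝ) : ℝ :=
  344 * C * (2 * C ^ 2 * (a + 200 * C ^ 3 * bm)) + 8 * C ^ 2 * EPc C θ a

namespace Sh

variable {θ a bm e1 e2 taum : ℝ} {s : T → Option D}
  (g : Sh P ok X N B be C θ a bm e1 e2 taum s) (h : P.OkB ok X N c be e C Lm)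
include g h

theorem ga (x : T) (hx : et P.b x ≠ 0) : |gam P.H (P.bs s) x - gam P.H P.b x| ≤ a :=
  dat_a h g.dia x hx

omit [Fintype D] h in
theorem dgt {x : T} (hx : x ∈ X) : ‖P.G s x x - P.gt x‖ ≤ a := by
  have h2 : P.G nil x x = P.gt x := by
    unfold Stp.G Stp.gt
    rw [bs_nil]
  rw [← h2]
  exact g.dia x hx

theorem pi {u : T → ℝ} (hu : ∀ x, x ∉ B → u x = 0) :
    ∑ x ∈ B, et (P.bs s) x * Pw P.H P.b (P.bs s) u x ^ 2 ≤
      EPc C θ a * NI P.H P.b (P.bs s) (inr ok s) u := by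
  have h1 := (dat h s).pi_le (dat_off h g.NB s) (dat_on h g.BX) (dat_pd h g.pd) g.th0 g.a0
    (g.ga h) g.hM hu
  refine h1.trans (le_of_eq ?_)
  have hC := h.C1
  unfold EPc
  have : 2 * C * a / (1 / C) = 2 * C ^ 2 * a := by
    field_simp
  rw [this]

theorem quc {u : T → ℝ} (hu : ∀ x, x ∉ B → u x = 0) :
    Qp P.H (P.bs s) (uc P.H P.b (P.bs s) u) ≤
      5 / (1 / C) * NI P.H P.b (P.bs s) (inr ok s) u := by
  refine (dat h s).q_uc g.th1 g.a0 g.a1 (g.ga h) ?_
  have h1 := g.hM u u hu hu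
  have h2 := (dat h s).ni0 u
  have h3 := g.th0
  have h4 : θ ^ 2 * (NI P.H P.b (P.bs s) (inr ok s) u * NI P.H P.b (P.bs s) (inr ok s) u) =
      (θ * NI P.H P.b (P.bs s) (inr ok s) u) ^ 2 := by ring
  rw [h4] at h1
  exact abs_le_of_sq_le_sq h1 (mul_nonneg h3 h2)

end Sh

end Pool.Agent.ANS.FormM
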