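import Pool.Agent.ANS.FormM.Link

/-! # ANS FORMM LINKN: noise and drift of `M` at a configuration (architect helper22)

* `noise`: `e3s`: with `ρ = u s w (β w)` (`= 0` at the bad sites, since `β w = s w` there: `nu = 0`),
  `‖ρ‖ ≤ 3 bo_w` (`u_le`), `|Im ρ| ≤ 20 C bo_w²` (`im_u`): the square of the change is at most
  `3 (36 bo² ‖T‖² + 81 bo⁴ (Π Π)² + 400 C² bo⁴ D²)`; sums by `Dat.noiT` (`K = 2 C³`: `bo² ≤ C² η` (`be_eta`), `gam ≤ 2 C`;
  `tau = bm² taum`), `Dat.noiP` (`K = C²`, `EP = EPc`), `Dat.noiD` (`K = C²`, `Dm` from `dab_one`), `Dat.dab_sum`.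
* `drift`: `drM`: `‖r Dl‖ ≤ 2 C² (a + 200 C³ bm) η_w` (`Dl_le`, `Rate`: `r ≤ 2`, `r = 0` at bad sites, `be_eta`; off `N`: `be = 0`),
  `|r M2| ≤ 8 C² η_w` (`M2_le`), off `B` zero; `Dat.drT`, `Dat.drP`, `Dat.drD`: `2 · 118 + 108 = 344`. -/

set_option autoImplicit false
set_option linter.unusedSectionVars false

open Finset Function Matrix

noncomputable section

namespace Pool.Agent.ANS.FormM

open Pool.Agent.Kin Pool.Agent.APS Pool.Agent.ANL
open Pool.Agent.ANS.FA (et Qp ev Tf al)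

variable {T D : Type} [Fintype T] [DecidableEq T] [Fintype D] {P : Stp T D}
  {ok : T → Option D → Prop} {X N B : Finset T} {c be : T → ℝ} {e : T → Option D → ℝ} {C Lm : ℝ}

/-- three terms -/
theorem sq_three {ρ T : ℂ} {p D β i : ℝ} (h1 : ‖ρ‖ ≤ 3 * β)
    (h2 : |ρ.im| ≤ i * β ^ 2) :
    (-2 * (ρ * T).re + ‖ρ‖ ^ 2 * p - ρ.im * D) ^ 2 ≤
      108 * (β ^ 2 * ‖T‖ ^ 2) + 243 * (β ^ 4 * p ^ 2) + 3 * i ^ 2 * (β ^ 4 * D ^ 2) := by
  have e1 : (-2 * (ρ * T).re) ^ 2 ≤ 36 * (β ^ 2 * ‖T‖ ^ 2) := by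
    have f1 : |(ρ * T).re| ≤ 3 * β * ‖T‖ := by
      refine (Complex.abs_re_le_norm _).trans ?_
      rw [norm_mul]
      exact mul_le_mul_of_nonneg_right h1 (norm_nonneg _)
    have f2 : (ρ * T).re ^ 2 ≤ (3 * β * ‖T‖) ^ 2 := sq_le_sq' (neg_le_of_abs_le f1)
      ((le_abs_self _).trans f1)
    calc (-2 * (ρ * T).re) ^ 2 = 4 * (ρ * T).re ^ 2 := by ring
      _ ≤ 4 * (3 * β * ‖T‖) ^ 2 := by linarith
      _ = _ := by ring
  have e2 : (‖ρ‖ ^ 2 * p) ^ 2 ≤ 81 * (β ^ 4 * p ^ 2) := by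
    have f1 : ‖ρ‖ ^ 4 ≤ (3 * β) ^ 4 := pow_le_pow_left₀ (norm_nonneg _) h1 4
    calc (‖ρ‖ ^ 2 * p) ^ 2 = ‖ρ‖ ^ 4 * p ^ 2 := by ring
      _ ≤ (3 * β) ^ 4 * p ^ 2 := mul_le_mul_of_nonneg_right f1 (sq_nonneg _)
      _ = _ := by ring
  have e3 : (ρ.im * D) ^ 2 ≤ i ^ 2 * (β ^ 4 * D ^ 2) := by
    have f1 : ρ.im ^ 2 ≤ (i * β ^ 2) ^ 2 := sq_le_sq' (neg_le_of_abs_le h2)
      ((le_abs_self _).trans h2)
    calc (ρ.im * D) ^ 2 = ρ.im ^ 2 * D ^ 2 := by ring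
      _ ≤ (i * β ^ 2) ^ 2 * D ^ 2 := mul_le_mul_of_nonneg_right f1 (sq_nonneg _)
      _ = _ := by ring
  have e4 : ∀ x y z : ℝ, (x + y - z) ^ 2 ≤ 3 * (x ^ 2 + y ^ 2 + z ^ 2) := by
    intro x y z
    nlinarith [sq_nonneg (x - y), sq_nonneg (x + z), sq_nonneg (y + z)]
  refine (e4 _ _ _).trans ?_
  linarith

namespace Sh

variable {θ a bm e1 e2 taum : ℝ} {s : T → Option D}
  (g : Sh P ok X N B be C θ a bm e1 e2 taum s) (h : P.OkB ok X N c be e C Lm)

omit g in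
theorem epc0 (h : P.OkB ok X N c be e C Lm) (θ a : ℝ) : 0 ≤ EPc C θ a := by
  have := h.C0
  unfold EPc
  positivity

include g h

/-- THE NOISE -/
theorem noise {β : T → Option D} (hβ : ∀ w, ¬ ok w (s w) → β w = s w) {a' : T → T → ℝ}
    (ha : ∀ w x, x ∉ B → a' w x = 0) (haN : ∀ w, NI P.H P.b (P.bs s) (inr ok s) (a' w) ≤ 1)
    {v : T → ℝ} (hv : ∀ x, x ∉ B → v x = 0) :
    ∑ w, (Mf P.H P.b (P.bs (update s w (β w))) (a' w) v - Mf P.H P.b (P.bs s) (a' w) v) ^ 2 ≤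
      nuM C Lm θ a bm e1 e2 taum * NI P.H P.b (P.bs s) (inr ok s) v := by
  have hC1 := h.C1
  have hC0 := h.C0
  have hCp : 0 < C := by linarith
  have hE1 := g.en
  have hd := dat h s
  have hCC : 1 / (1 / C) = C := by rw [one_div_one_div]
  have hdiv : ∀ x : ℝ, x / (1 / C) = x * C := fun x => by rw [div_div_eq_mul_div, div_one]
  have hdiv2 : ∀ x : ℝ, x / (1 / C) ^ 2 = x * C ^ 2 := fun x => by
    rw [one_div, inv_pow, div_inv_eq_mul]
  have hnn : ∀ x, 0 ≤ et (P.bs s) x := fun x => h.eta0 s x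
  -- entries at the start and at `s`
  have hL0 : ∀ x y, et P.b x ≠ 0 → et P.b y ≠ 0 → ‖rsc P.H P.b x y‖ ≤ Lm := by
    intro x y hx hy
    have h1 := h.ent x ((et_ne h).1 hx) y ((et_ne h).1 hy)
    unfold Stp.G at h1
    rwa [bs_nil] at h1
  have hL : ∀ x y, et P.b x ≠ 0 → et P.b y ≠ 0 → ‖rsc P.H (P.bs s) x y‖ ≤ 2 * Lm := by
    intro x y hx hy
    exact h.entL hE1 ((et_ne h).1 hx) ((et_ne h).1 hy)
  -- one site
  have hρ : ∀ w, ‖P.u s w (β w)‖ ≤ 3 * bo ok be s w ∧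
      |(P.u s w (β w)).im| ≤ 20 * C * bo ok be s w ^ 2 := by
    intro w
    by_cases hw : ok w (s w)
    · rw [bo_ok hw]
      exact ⟨h.u_le hE1 w _, im_u h hE1 w _⟩
    · have h1 : P.u s w (β w) = 0 := by
        unfold Stp.u Stp.nu
        rw [hβ w hw, sub_self, zero_div]
      rw [h1, bo_bad hw]
      simp
  have hsite : ∀ w, (Mf P.H P.b (P.bs (update s w (β w))) (a' w) v -
      Mf P.H P.b (P.bs s) (a' w) v) ^ 2 ≤
      108 * (bo ok be s w ^ 2 * ‖Tw P.H P.b (P.bs s) (a' w) v w‖ ^ 2) +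
      243 * (bo ok be s w ^ 4 * (Pw P.H P.b (P.bs s) (a' w) w * Pw P.H P.b (P.bs s) v w) ^ 2) +
      1200 * C ^ 2 * (bo ok be s w ^ 4 * Dw P.H P.b (P.bs s) (a' w) v w ^ 2) := by
    intro w
    rw [e3s h]
    have h1 := sq_three (T := Tw P.H P.b (P.bs s) (a' w) v w)
      (p := Pw P.H P.b (P.bs s) (a' w) w * Pw P.H P.b (P.bs s) v w)
      (D := Dw P.H P.b (P.bs s) (a' w) v w) (hρ w).1 (hρ w).2
    have h2 : 3 * (20 * C) ^ 2 = 1200 * C ^ 2 := by ring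
    rw [h2] at h1
    exact h1
  have hbe := h.be_eta s
  have hq := g.quc h hv
  -- first sum
  have s1 := hd.noiT (B := B) (Lm := Lm) (K := 2 * C ^ 3) (tau := bm ^ 2 * taum)
    (β := fun w => bo ok be s w) g.e10 g.e20 (dat_sm h g.sm) hL0 (by positivity)
    (mul_nonneg (sq_nonneg _) g.tau0) ?_ ?_ ha haN hq
  rotate_left
  · intro w
    show bo ok be s w ^ 2 * gam P.H (P.bs s) w ≤ 2 * C ^ 3 * et (P.bs s) w
    by_cases hw : w ∈ X
    · have h1 := dat_g h hE1 hw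
      have h2 : 0 ≤ gam P.H (P.bs s) w := h.io0 s w
      calc bo ok be s w ^ 2 * gam P.H (P.bs s) w ≤ (C ^ 2 * P.eta s w) * (2 * C) :=
            mul_le_mul (hbe w) h1 h2 (mul_nonneg (sq_nonneg _) (h.eta0 s w))
        _ = 2 * C ^ 3 * et (P.bs s) w := by rw [et_bs]; ring
    · rw [h.bo_N (fun h1 => hw (h.NX h1))]
      have := hnn w
      have h3 : 0 ≤ 2 * C ^ 3 * et (P.bs s) w := by positivity
      simpa using h3
  · intro x hx
    have hxX : x ∈ X := by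
      by_contra h1
      exact hx (h.etaU' s h1)
    have h1 := g.tau x hxX
    show ∑ w, bo ok be s w ^ 2 * ‖rsc P.H (P.bs s) x w‖ ^ 4 ≤ bm ^ 2 * taum
    have h2 : ∑ w, bo ok be s w ^ 2 * ‖rsc P.H (P.bs s) x w‖ ^ 4 =
        ∑ w ∈ N, bo ok be s w ^ 2 * ‖rsc P.H (P.bs s) x w‖ ^ 4 := by
      symm
      refine Finset.sum_subset (Finset.subset_univ N) fun w _ hw => ?_
      rw [h.bo_N hw]
      ring
    rw [h2]
    calc ∑ w ∈ N, bo ok be s w ^ 2 * ‖rsc P.H (P.bs s) x w‖ ^ 4 ≤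
          ∑ w ∈ N, bm ^ 2 * (if bo ok be s w = 0 then 0 else ‖P.G s x w‖ ^ 4) := by
          refine Finset.sum_le_sum fun w _ => ?_
          by_cases h0 : bo ok be s w = 0
          · rw [if_pos h0, h0]
            simp
          · rw [if_neg h0]
            have h3 : bo ok be s w ^ 2 ≤ bm ^ 2 :=
              pow_le_pow_left₀ (h.bo0 s w) ((h.bo_le s w).trans (g.bmle w)) 2
            exact mul_le_mul_of_nonneg_right h3 (by positivity)
      _ = bm ^ 2 * ∑ w ∈ N, (if bo ok be s w = 0 then 0 else ‖P.G s x w‖ ^ 4) :=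
          (Finset.mul_sum _ _ _).symm
      _ ≤ bm ^ 2 * taum := mul_le_mul_of_nonneg_left h1 (sq_nonneg _)
  -- second sum
  have s2 := Dat.noiP (H := P.H) (b0 := P.b) (b := P.bs s) (I := inr ok s)
    (B := B) (β := fun w => bo ok be s w) (K := C ^ 2) (EP := EPc C θ a) (by positivity)
    (epc0 h θ a) (fun w _ => hbe w) (fun w hw => h.bo_N fun h1 => hw (g.NB h1))
    (a := a') (v := v) (fun w => ?_) (g.pi h hv) hnn
  rotate_left
  · refine (g.pi h (ha w)).trans ?_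
    have h1 := mul_le_mul_of_nonneg_left (haN w) (epc0 h θ a)
    linarith
  -- third sum
  have hdab := hd.dab_sum g.a1 (g.ga h) hq
  have hLm0 : 0 ≤ Lm := by linarith [h.Lm1]
  have s3 := Dat.noiD (H := P.H) (b0 := P.b) (b := P.bs s) (I := inr ok s) (C := C) (d0 := 1 / C)
    hd (β := fun w => bo ok be s w) (K := C ^ 2) (bm := bm)
    (Dm := 48 * C ^ 3 * (Lm ^ 2 + e1 + Lm ^ 2 * e2)) (by positivity) ?_ (fun w => hbe w)
    (fun w => ?_) (a := a') (v := v) (fun w hw => ?_) hdab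
  rotate_left
  · have h1 := g.e10
    have h2 := g.e20
    positivity
  · exact pow_le_pow_left₀ (h.bo0 s w) ((h.bo_le s w).trans (g.bmle w)) 2
  · have hwN : w ∈ N := by
      by_contra h1
      exact hw (h.bo_N h1)
    have hwX : w ∈ X := h.NX hwN
    have h1 := hd.dab_one (B := B) g.e10 g.e20 hLm0 (dat_sm h g.sm) hL0 hL (ha w) (haN w)
      ((et_ne h).2 hwX) (dat_g h hE1 hwX)
    refine h1.trans (le_of_eq ?_)
    rw [hdiv]
    ring
  simp only [hdiv, hdiv2] at s1 s2 s3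
  have hsum := Finset.sum_le_sum fun w (_ : w ∈ Finset.univ) => hsite w
  refine hsum.trans ?_
  rw [Finset.sum_add_distrib, Finset.sum_add_distrib, ← Finset.mul_sum, ← Finset.mul_sum,
    ← Finset.mul_sum]
  have t1 := mul_le_mul_of_nonneg_left s1 (show (0 : ℝ) ≤ 108 by norm_num)
  have t2 := mul_le_mul_of_nonneg_left s2 (show (0 : ℝ) ≤ 243 by norm_num)
  have t3 := mul_le_mul_of_nonneg_left s3 (show (0 : ℝ) ≤ 1200 * C ^ 2 by positivity)
  refine (add_le_add (add_le_add t1 t2) t3).trans (le_of_eq ?_)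
  unfold nuM
  have h8 : 2 * C ^ 2 * e2 + 4 * C * C = 2 * C ^ 2 * e2 + 4 * C ^ 2 := by ring
  rw [h8]
  ring

/-- THE DRIFT -/
theorem drift {r : T → ℝ} (hr : Rate ok s r) {u v : T → ℝ} (hu : ∀ x, x ∉ B → u x = 0)
    (hv : ∀ x, x ∉ B → v x = 0) :
    |∑ w, r w * (∑ d, P.g.P w d * Mf P.H P.b (P.bs (update s w (some d))) u v -
        Mf P.H P.b (P.bs (update s w none)) u v)| ≤
      drC C θ a bm * √(NI P.H P.b (P.bs s) (inr ok s) u * NI P.H P.b (P.bs s) (inr ok s) v) := by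
  have hC1 := h.C1
  have hC0 := h.C0
  have hCp : 0 < C := by linarith
  have hE1 := g.en
  have hd := dat h s
  have hdiv : ∀ x : ℝ, x / (1 / C) = x * C := fun x => by rw [div_div_eq_mul_div, div_one]
  have hnn : ∀ x, 0 ≤ et (P.bs s) x := fun x => h.eta0 s x
  have ha0 := g.a0
  have hbm0 : 0 ≤ bm := g.bm0
  obtain ⟨ep, hep⟩ : ∃ ep : ℝ, ep = 2 * C ^ 2 * (a + 200 * C ^ 3 * bm) := ⟨_, rfl⟩
  have hep0 : 0 ≤ ep := by
    rw [hep]
    positivity
  -- sizes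
  have hgt : ∀ w ∈ X, ‖P.G s w w - P.gt w‖ ≤ a := fun w hw => g.dgt hw
  have hrb : ∀ w, r w * be w ^ 2 ≤ 2 * (C ^ 2 * et (P.bs s) w) := by
    intro w
    by_cases hw : ok w (s w)
    · have h1 := h.be_eta s w
      rw [bo_ok hw] at h1
      exact mul_le_mul (hr.r2 w) h1 (sq_nonneg _) (by norm_num)
    · rw [hr.off w hw, zero_mul]
      have := hnn w
      positivity
  have hDl : ∀ w, r w * ‖P.Dl s w‖ ≤ ep * et (P.bs s) w := by
    intro w
    by_cases hw : w ∈ N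
    · have h1 := h.Dl_le hE1 w
      have h2 := hgt w (h.NX hw)
      have h3 := g.bmle w
      have h4 : ‖P.Dl s w‖ ≤ be w ^ 2 * (a + 200 * C ^ 3 * bm) := by
        refine h1.trans (mul_le_mul_of_nonneg_left ?_ (sq_nonneg _))
        have h5 : 200 * C ^ 3 * be w ≤ 200 * C ^ 3 * bm :=
          mul_le_mul_of_nonneg_left h3 (by positivity)
        linarith
      calc r w * ‖P.Dl s w‖ ≤ r w * (be w ^ 2 * (a + 200 * C ^ 3 * bm)) :=
            mul_le_mul_of_nonneg_left h4 (hr.r0 w)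
        _ = (r w * be w ^ 2) * (a + 200 * C ^ 3 * bm) := by ring
        _ ≤ (2 * (C ^ 2 * et (P.bs s) w)) * (a + 200 * C ^ 3 * bm) :=
            mul_le_mul_of_nonneg_right (hrb w) (by positivity)
        _ = _ := by rw [hep]; ring
    · have h1 := h.Dl_le hE1 w
      rw [h.beN w hw] at h1
      have h2 : ‖P.Dl s w‖ = 0 := le_antisymm (by simpa using h1) (norm_nonneg _)
      rw [h2, mul_zero]
      exact mul_nonneg hep0 (hnn w)
  have hM2 : ∀ w, |r w * P.M2 s w| ≤ 8 * C ^ 2 * et (P.bs s) w := by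
    intro w
    rw [abs_mul, abs_of_nonneg (hr.r0 w)]
    have h1 := M2_le h hE1 w
    calc r w * |P.M2 s w| ≤ r w * (4 * be w ^ 2) := mul_le_mul_of_nonneg_left h1 (hr.r0 w)
      _ = 4 * (r w * be w ^ 2) := by ring
      _ ≤ 4 * (2 * (C ^ 2 * et (P.bs s) w)) := mul_le_mul_of_nonneg_left (hrb w) (by norm_num)
      _ = _ := by ring
  have hqu := g.quc h hu
  have hqv := g.quc h hv
  have d1 := hd.drT g.a1 (g.ga h) (rho := fun w => (r w : ℂ) * P.Dl s w) hep0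
    (fun w => by
      rw [norm_mul, Complex.norm_real, Real.norm_of_nonneg (hr.r0 w)]
      exact hDl w) hqu hqv
  have d2 := Dat.drP (H := P.H) (b0 := P.b) (b := P.bs s) (I := inr ok s)
    (B := B) (m := fun w => r w * P.M2 s w) (K := 8 * C ^ 2) (EP := EPc C θ a)
    (by positivity) (epc0 h θ a) (fun w _ => hM2 w) (fun w hw => by
      have h1 := M2_le h hE1 w
      rw [h.beN w (fun h2 => hw (g.NB h2))] at h1
      have h2 : P.M2 s w = 0 := abs_nonpos_iff.1 (by simpa using h1)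
      rw [h2, mul_zero]) (g.pi h hu) (g.pi h hv) hnn
  have d3 := Dat.drD (H := P.H) (b0 := P.b) (b := P.bs s) (I := inr ok s) (C := C) (d0 := 1 / C)
    hd (m := fun w => r w * (P.Dl s w).im) hep0 (fun w => by
      rw [abs_mul, abs_of_nonneg (hr.r0 w)]
      exact (mul_le_mul_of_nonneg_left (Complex.abs_im_le_norm _) (hr.r0 w)).trans (hDl w))
    (hd.dab_sum g.a1 (g.ga h) hqu) (hd.dab_sum g.a1 (g.ga h) hqv)
  simp only [hdiv] at d1 d3
  have hsum : ∑ w, r w * (∑ d, P.g.P w d * Mf P.H P.b (P.bs (update s w (some d))) u v -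
        Mf P.H P.b (P.bs (update s w none)) u v) =
      -2 * (∑ w, (r w : ℂ) * P.Dl s w * Tw P.H P.b (P.bs s) u v w).re +
        ∑ w, r w * P.M2 s w * (Pw P.H P.b (P.bs s) u w * Pw P.H P.b (P.bs s) v w) -
        ∑ w, r w * (P.Dl s w).im * Dw P.H P.b (P.bs s) u v w := by
    rw [Complex.re_sum, Finset.mul_sum, ← Finset.sum_add_distrib, ← Finset.sum_sub_distrib]
    refine Finset.sum_congr rfl fun w _ => ?_
    rw [drM h, mul_assoc (r w : ℂ), Complex.re_ofReal_mul]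
    ring
  rw [hsum]
  have f1 : |-2 * (∑ w, (r w : ℂ) * P.Dl s w * Tw P.H P.b (P.bs s) u v w).re| ≤
      2 * ‖∑ w, (r w : ℂ) * P.Dl s w * Tw P.H P.b (P.bs s) u v w‖ := by
    rw [abs_mul, abs_neg, abs_of_pos (by norm_num : (0 : ℝ) < 2)]
    exact mul_le_mul_of_nonneg_left (Complex.abs_re_le_norm _) (by norm_num)
  have f2 : ∀ x y z : ℝ, |x + y - z| ≤ |x| + |y| + |z| := by
    intro x y z
    have h1 := abs_sub (x + y) z
    have h2 := abs_add_le x y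
    linarith
  refine (f2 _ _ _).trans ?_
  have f3 : drC C θ a bm = 2 * (118 * C * ep) + 8 * C ^ 2 * EPc C θ a + 108 * C * ep := by
    rw [hep]
    unfold drC
    ring
  rw [f3, add_mul, add_mul]
  refine add_le_add (add_le_add ?_ ?_) ?_
  · refine f1.trans ?_
    have := mul_le_mul_of_nonneg_left d1 (show (0 : ℝ) ≤ 2 by norm_num)
    linarith
  · exact d2
  · exact d3

end Sh

end Pool.Agent.ANS.FormM
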