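import Pool.Agent.ANS.FormM.Dab

/-! # ANS FORMM NOI: noise and drift bounds of `T_w, Π_w, D_w` (architect helper22)

`EP = 8 C (θ + 2 C a/d0)²` is the bound of `pi_le`; `NI = NI H b0 b I`.

* `noiT`: `Tw = -Tf (uc a_w) (uc v) + Td a_w v`.  `FA.noise` with `u w := uc (a w)`, `c w := k_w`, `lo w := l`, `hi w := hi + dl` of
  `sm_ph` (`NI (a w) ≤ 1` gives `Qp b0 (a w) ≤ 1`; `et b x ≠ 0` gives `et b0 x ≠ 0` by `eq0`), `|l| ≤ √e1`,
  `∑ η (hi + dl)² ≤ 2 C² e2 + 4 C/d0` (`η ≤ η⁰`, `dl_sq'`): `∑ β² |Tf|² ≤ 4 (K e1 + hh √(K τ)) Qp (uc v)`.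
  `Td`: `td_four`, exchange the sums: `∑_w β² |Td|² ≤ (2 C/d0) ∑_x η_x dl_x(v)² ∑_w β_w² |G_xw|⁴ ≤ (2 C/d0) τ (2 C/d0) NI v`.
  `|x + y|² ≤ 2|x|² + 2|y|²`.
* `drT`: `FA.comm` with `rho`: `|∑ rho Tf| ≤ 2 ep √(Q Q) ≤ (10/d0) ep √(NI NI)`; `∑ ep η_w |Td| ≤ ep ∑ η √Dab √Dab ≤ (108/d0) ep √(NI NI)`.
* `drP`: `|m_w| ≤ K η_w` on `B`, `m = 0` off `B`: Cauchy-Schwarz with `hP`.
* `drD`: `|m_w| ≤ ep η_w`: `dw_sq`, Cauchy-Schwarz, `dab_sum`.
* `noiP`: `∑ β⁴ Π_w(a_w)² Π_w(v)² ≤ K² EP² NI v` for `β_w² ≤ K η_w` (`w ∈ B`), `β = 0` off `B`: `β_w² Π_w(a_w)² ≤ K ∑_B η Π(a_w)² ≤ K EP`.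
* `noiD`: `∑ β⁴ D_w(a_w, v)² ≤ bm² Dm K (108/d0) NI v` if `β² ≤ bm²`, `Dab (a_w) w ≤ Dm`, `β² ≤ K η`. -/

set_option autoImplicit false

open Matrix Finset

noncomputable section

namespace Pool.Agent.ANS.FormM

open Pool.Agent.Kin Pool.Agent.APS Pool.Agent.ANL
open Pool.Agent.ANS.FA (et Qp ev Tf al)

variable {ι : Type} [Fintype ι] [DecidableEq ι] {H : Matrix ι ι ℂ} {b0 b : ι → ℂ} {I : Finset ι}
  {C d0 : ℝ}

/-- weighted Cauchy-Schwarz with products -/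
private theorem csw {κ : Type} (s : Finset κ) {w p q c : κ → ℝ} (hw : ∀ i ∈ s, 0 ≤ w i)
    (hp : ∀ i ∈ s, 0 ≤ p i) (hq : ∀ i ∈ s, 0 ≤ q i) (hc : ∀ i ∈ s, c i ^ 2 ≤ p i * q i) :
    (∑ i ∈ s, w i * |c i|) ^ 2 ≤ (∑ i ∈ s, w i * p i) * ∑ i ∈ s, w i * q i := by
  have h1 : ∑ i ∈ s, w i * |c i| ≤ ∑ i ∈ s, √(w i * p i) * √(w i * q i) := by
    refine Finset.sum_le_sum fun i hi => ?_
    rw [← Real.sqrt_mul (mul_nonneg (hw i hi) (hp i hi))]
    apply Real.le_sqrt_of_sq_le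
    rw [mul_pow, sq_abs]
    have h2 := mul_le_mul_of_nonneg_left (hc i hi) (sq_nonneg (w i))
    linarith
  have h0 : 0 ≤ ∑ i ∈ s, w i * |c i| :=
    Finset.sum_nonneg fun i hi => mul_nonneg (hw i hi) (abs_nonneg _)
  have h2 := Finset.sum_mul_sq_le_sq_mul_sq s (fun i => √(w i * p i)) (fun i => √(w i * q i))
  have h3 : ∑ i ∈ s, √(w i * p i) ^ 2 = ∑ i ∈ s, w i * p i :=
    Finset.sum_congr rfl fun i hi => Real.sq_sqrt (mul_nonneg (hw i hi) (hp i hi))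
  have h4 : ∑ i ∈ s, √(w i * q i) ^ 2 = ∑ i ∈ s, w i * q i :=
    Finset.sum_congr rfl fun i hi => Real.sq_sqrt (mul_nonneg (hw i hi) (hq i hi))
  rw [h3, h4] at h2
  exact (pow_le_pow_left₀ h0 h1 2).trans h2

/-- from the square to the square root -/
private theorem to_sqrt {S A c X Y : ℝ} (hc : 0 ≤ c) (hA : A ≤ S) (hS : S ^ 2 ≤ (c * X) * (c * Y)) :
    A ≤ c * √(X * Y) := by
  have h1 : S ≤ √((c * X) * (c * Y)) := Real.le_sqrt_of_sq_le hS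
  have h2 : (c * X) * (c * Y) = (c * c) * (X * Y) := by ring
  rw [h2, Real.sqrt_mul (mul_nonneg hc hc), Real.sqrt_mul_self hc] at h1
  exact hA.trans h1

namespace Dat

variable (h : Dat H b0 b I C d0)
include h

theorem noiT {B : Finset ι} {e1 e2 Lm K tau : ℝ} (he1 : 0 ≤ e1) (he2 : 0 ≤ e2)
    (hsm : SM0 H b0 B e1 e2)
    (hL0 : ∀ x y, et b0 x ≠ 0 → et b0 y ≠ 0 → ‖rsc H b0 x y‖ ≤ Lm)
    (hK : 0 ≤ K) (htau : 0 ≤ tau) {β : ι → ℝ} (hβ : ∀ w, β w ^ 2 * gam H b w ≤ K * et b w)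
    (ht : ∀ x, et b x ≠ 0 → ∑ w, β w ^ 2 * ‖rsc H b x w‖ ^ 4 ≤ tau)
    {a : ι → ι → ℝ} (ha : ∀ w x, x ∉ B → a w x = 0) (haN : ∀ w, NI H b0 b I (a w) ≤ 1)
    {v : ι → ℝ} (hq : Qp H b (uc H b0 b v) ≤ 5 / d0 * NI H b0 b I v) :
    ∑ w, β w ^ 2 * ‖Tw H b0 b (a w) v w‖ ^ 2 ≤
      (40 / d0 * (K * e1 + (2 * C ^ 2 * e2 + 4 * C / d0) * √(K * tau)) +
        8 * C ^ 2 / d0 ^ 2 * tau) * NI H b0 b I v := by
  have hC := h.C1
  have hd := h.dp
  have hnv := h.ni0 v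
  have hCd : 0 ≤ 2 * C / d0 := by positivity
  -- the decomposition of `ph (a w)`
  have hdec : ∀ w, ∃ (k : ℝ) (l hi : ι → ℝ),
      (∀ x, et b0 x ≠ 0 → ph H b0 (a w) x = k + l x + hi x) ∧
      (∀ x, et b0 x ≠ 0 → l x ^ 2 ≤ e1) ∧ (∑ x, et b0 x * hi x ^ 2 ≤ C ^ 2 * e2) := by
    intro w
    obtain ⟨k, l, hi, h1, h2, h3, -⟩ := h.sm_ph he2 hsm hL0 (ha w)
      ((h.q_le_ni (a w)).trans (haN w))
    exact ⟨k, l, hi, h1, h2, h3⟩
  choose k l hi hk hl hhi using hdec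
  have hdl : ∀ w, ∑ x, et b x * dl H b0 b (a w) x ^ 2 ≤ 2 * C / d0 := by
    intro w
    refine (h.dl_sq' (a w)).trans ?_
    have := mul_le_mul_of_nonneg_left (haN w) hCd
    linarith
  have hTf : ∑ w, β w ^ 2 * ‖Tf H b w (uc H b0 b (a w)) (uc H b0 b v)‖ ^ 2 ≤
      4 * (K * √e1 ^ 2 + (2 * C ^ 2 * e2 + 4 * C / d0) * √(K * tau)) *
        Qp H b (uc H b0 b v) := by
    refine FA.noise h.a1 hK htau (by positivity) hβ ht (fun w => uc H b0 b (a w)) k l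
      (fun w x => hi w x + dl H b0 b (a w) x) ?_ ?_ ?_ (uc H b0 b v)
    · intro w x hx
      have hx0 : et b0 x ≠ 0 := fun h0 => hx (h.eq0 x h0)
      change ph H b0 (a w) x + dl H b0 b (a w) x = k w + l w x + (hi w x + dl H b0 b (a w) x)
      rw [hk w x hx0]
      ring
    · intro w x hx
      have hx0 : et b0 x ≠ 0 := fun h0 => hx (h.eq0 x h0)
      exact Real.abs_le_sqrt (hl w x hx0)
    · intro w
      have h1 : ∑ x, et b x * (hi w x + dl H b0 b (a w) x) ^ 2 ≤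
          2 * (∑ x, et b0 x * hi w x ^ 2) + 2 * ∑ x, et b x * dl H b0 b (a w) x ^ 2 := by
        rw [Finset.mul_sum, Finset.mul_sum, ← Finset.sum_add_distrib]
        refine Finset.sum_le_sum fun x _ => ?_
        have e1 := mul_le_mul_of_nonneg_right (h.le x) (sq_nonneg (hi w x))
        have e2 := mul_nonneg (FA.et0 h.a1 x) (sq_nonneg (hi w x - dl H b0 b (a w) x))
        nlinarith
      have h2 := hdl w
      have h3 := hhi w
      have h4 : 4 * C / d0 = 2 * (2 * C / d0) := by ring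
      have h5 : 2 * C ^ 2 * e2 = 2 * (C ^ 2 * e2) := by ring
      rw [h4, h5]
      linarith
  rw [Real.sq_sqrt he1] at hTf
  have hs0 := Real.sqrt_nonneg (K * tau)
  have hfac : 0 ≤ 4 * (K * e1 + (2 * C ^ 2 * e2 + 4 * C / d0) * √(K * tau)) := by positivity
  have hTf2 := hTf.trans (mul_le_mul_of_nonneg_left hq hfac)
  -- the diagonal part
  have hTd : ∑ w, β w ^ 2 * ‖Td H b0 b (a w) v w‖ ^ 2 ≤
      2 * C / d0 * (tau * (2 * C / d0 * NI H b0 b I v)) := by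
    calc ∑ w, β w ^ 2 * ‖Td H b0 b (a w) v w‖ ^ 2
        ≤ ∑ w, β w ^ 2 * (2 * C / d0 *
            ∑ x, et b x * (‖rsc H b x w‖ ^ 4 * dl H b0 b v x ^ 2)) := by
          refine Finset.sum_le_sum fun w _ => mul_le_mul_of_nonneg_left ?_ (sq_nonneg _)
          refine (h.td_four (a w) v w).trans (mul_le_mul_of_nonneg_right (hdl w) ?_)
          exact Finset.sum_nonneg fun x _ => mul_nonneg (FA.et0 h.a1 x) (by positivity)
      _ = 2 * C / d0 * ∑ x, (et b x * dl H b0 b v x ^ 2) *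
            ∑ w, β w ^ 2 * ‖rsc H b x w‖ ^ 4 := by
          rw [Finset.mul_sum]
          have e1 : ∀ w, β w ^ 2 * (2 * C / d0 *
              ∑ x, et b x * (‖rsc H b x w‖ ^ 4 * dl H b0 b v x ^ 2)) =
              ∑ x, 2 * C / d0 * ((et b x * dl H b0 b v x ^ 2) *
                (β w ^ 2 * ‖rsc H b x w‖ ^ 4)) := by
            intro w
            rw [Finset.mul_sum, Finset.mul_sum]
            refine Finset.sum_congr rfl fun x _ => ?_
            ring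
          rw [Finset.sum_congr rfl fun w _ => e1 w, Finset.sum_comm]
          refine Finset.sum_congr rfl fun x _ => ?_
          rw [← Finset.mul_sum, ← Finset.mul_sum]
      _ ≤ 2 * C / d0 * ∑ x, (et b x * dl H b0 b v x ^ 2) * tau := by
          refine mul_le_mul_of_nonneg_left (Finset.sum_le_sum fun x _ => ?_) hCd
          by_cases hx : et b x = 0
          · rw [hx, zero_mul, zero_mul, zero_mul]
          · exact mul_le_mul_of_nonneg_left (ht x hx)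
              (mul_nonneg (FA.et0 h.a1 x) (sq_nonneg _))
      _ = 2 * C / d0 * (tau * ∑ x, et b x * dl H b0 b v x ^ 2) := by
          rw [← Finset.sum_mul, mul_comm (∑ x, et b x * dl H b0 b v x ^ 2) tau]
      _ ≤ _ := by
          refine mul_le_mul_of_nonneg_left (mul_le_mul_of_nonneg_left (h.dl_sq' v) htau) hCd
  have htot : ∑ w, β w ^ 2 * ‖Tw H b0 b (a w) v w‖ ^ 2 ≤
      2 * (∑ w, β w ^ 2 * ‖Tf H b w (uc H b0 b (a w)) (uc H b0 b v)‖ ^ 2) +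
      2 * ∑ w, β w ^ 2 * ‖Td H b0 b (a w) v w‖ ^ 2 := by
    rw [Finset.mul_sum, Finset.mul_sum, ← Finset.sum_add_distrib]
    refine Finset.sum_le_sum fun w _ => ?_
    unfold Tw
    set p := Tf H b w (uc H b0 b (a w)) (uc H b0 b v)
    set q := Td H b0 b (a w) v w
    have e1 : ‖-p + q‖ ^ 2 ≤ 2 * ‖p‖ ^ 2 + 2 * ‖q‖ ^ 2 := by
      have e3 := norm_add_le (-p) q
      rw [norm_neg] at e3
      have e2 : ‖-p + q‖ ^ 2 ≤ (‖p‖ + ‖q‖) ^ 2 := pow_le_pow_left₀ (norm_nonneg _) e3 2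
      nlinarith [sq_nonneg (‖p‖ - ‖q‖)]
    have := mul_le_mul_of_nonneg_left e1 (sq_nonneg (β w))
    linarith
  have hfin : (40 / d0 * (K * e1 + (2 * C ^ 2 * e2 + 4 * C / d0) * √(K * tau)) +
        8 * C ^ 2 / d0 ^ 2 * tau) * NI H b0 b I v =
      2 * (4 * (K * e1 + (2 * C ^ 2 * e2 + 4 * C / d0) * √(K * tau)) *
        (5 / d0 * NI H b0 b I v)) +
      2 * (2 * C / d0 * (tau * (2 * C / d0 * NI H b0 b I v))) := by
    field_simp
    ring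
  rw [hfin]
  linarith

theorem drT {a : ℝ} (ha : 2 * C * a ≤ 1)
    (hg : ∀ x, et b0 x ≠ 0 → |gam H b x - gam H b0 x| ≤ a) {rho : ι → ℂ} {ep : ℝ} (hep : 0 ≤ ep)
    (hr : ∀ w, ‖rho w‖ ≤ ep * et b w) {u v : ι → ℝ}
    (hqu : Qp H b (uc H b0 b u) ≤ 5 / d0 * NI H b0 b I u)
    (hqv : Qp H b (uc H b0 b v) ≤ 5 / d0 * NI H b0 b I v) :
    ‖∑ w, rho w * Tw H b0 b u v w‖ ≤
      118 / d0 * ep * √(NI H b0 b I u * NI H b0 b I v) := by
  have hd := h.dp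
  have hnu := h.ni0 u
  have hnv := h.ni0 v
  have h1 : ‖∑ w, rho w * Tf H b w (uc H b0 b u) (uc H b0 b v)‖ ≤
      10 / d0 * ep * √(NI H b0 b I u * NI H b0 b I v) := by
    have e1 := FA.comm h.a1 hep hr (uc H b0 b u) (uc H b0 b v)
    have hq0 := FA.Qp_nonneg h.a1 (uc H b0 b u)
    have hq1 := FA.Qp_nonneg h.a1 (uc H b0 b v)
    have e2 : √(Qp H b (uc H b0 b u) * Qp H b (uc H b0 b v)) ≤
        5 / d0 * √(NI H b0 b I u * NI H b0 b I v) := by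
      refine to_sqrt (S := √(Qp H b (uc H b0 b u) * Qp H b (uc H b0 b v))) (by positivity)
        le_rfl ?_
      rw [Real.sq_sqrt (mul_nonneg hq0 hq1)]
      exact mul_le_mul hqu hqv hq1 (hq0.trans hqu)
    have e3 := mul_le_mul_of_nonneg_left e2 (show 0 ≤ 2 * ep by positivity)
    refine e1.trans (e3.trans (le_of_eq ?_))
    ring
  have h2 : ‖∑ w, rho w * Td H b0 b u v w‖ ≤
      108 / d0 * ep * √(NI H b0 b I u * NI H b0 b I v) := by
    have e1 : ‖∑ w, rho w * Td H b0 b u v w‖ ≤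
        ep * ∑ w, et b w * |‖Td H b0 b u v w‖| := by
      rw [Finset.mul_sum]
      refine (norm_sum_le _ _).trans (Finset.sum_le_sum fun w _ => ?_)
      rw [norm_mul, abs_norm]
      have := mul_le_mul_of_nonneg_right (hr w) (norm_nonneg (Td H b0 b u v w))
      linarith
    have e2 := csw (Finset.univ : Finset ι) (w := et b) (p := fun w => Dab H b0 b u w)
      (q := fun w => Dab H b0 b v w) (c := fun w => ‖Td H b0 b u v w‖)
      (fun w _ => FA.et0 h.a1 w) (fun w _ => h.dab0 u w) (fun w _ => h.dab0 v w)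
      (fun w _ => h.td_sq u v w)
    have e3 := h.dab_sum ha hg hqu
    have e4 := h.dab_sum ha hg hqv
    have e5 : 0 ≤ ∑ w, et b w * Dab H b0 b v w :=
      Finset.sum_nonneg fun w _ => mul_nonneg (FA.et0 h.a1 w) (h.dab0 v w)
    have e6 : 0 ≤ 108 / d0 * NI H b0 b I u := by positivity
    have e7 : ∑ w, et b w * |‖Td H b0 b u v w‖| ≤
        108 / d0 * √(NI H b0 b I u * NI H b0 b I v) :=
      to_sqrt (by positivity) le_rfl (e2.trans (mul_le_mul e3 e4 e5 e6))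
    have e8 := mul_le_mul_of_nonneg_left e7 hep
    refine e1.trans (e8.trans (le_of_eq ?_))
    ring
  have h3 : ∑ w, rho w * Tw H b0 b u v w =
      -(∑ w, rho w * Tf H b w (uc H b0 b u) (uc H b0 b v)) +
        ∑ w, rho w * Td H b0 b u v w := by
    rw [← Finset.sum_neg_distrib, ← Finset.sum_add_distrib]
    refine Finset.sum_congr rfl fun w _ => ?_
    unfold Tw
    ring
  rw [h3]
  refine (norm_add_le _ _).trans ?_
  rw [norm_neg]
  refine (add_le_add h1 h2).trans (le_of_eq ?_)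
  ring

omit h in
theorem drP {B : Finset ι} {m : ι → ℝ} {K EP : ℝ} (hK : 0 ≤ K) (hEP : 0 ≤ EP)
    (hm : ∀ w ∈ B, |m w| ≤ K * et b w) (hm0 : ∀ w, w ∉ B → m w = 0) {u v : ι → ℝ}
    (hu : ∑ x ∈ B, et b x * Pw H b0 b u x ^ 2 ≤ EP * NI H b0 b I u)
    (hv : ∑ x ∈ B, et b x * Pw H b0 b v x ^ 2 ≤ EP * NI H b0 b I v)
    (hnn : ∀ x, 0 ≤ et b x) :
    |∑ w, m w * (Pw H b0 b u w * Pw H b0 b v w)| ≤
      K * EP * √(NI H b0 b I u * NI H b0 b I v) := by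
  have e0 : ∑ w, m w * (Pw H b0 b u w * Pw H b0 b v w) =
      ∑ w ∈ B, m w * (Pw H b0 b u w * Pw H b0 b v w) := by
    symm
    refine Finset.sum_subset (Finset.subset_univ B) fun w _ hw => ?_
    rw [hm0 w hw, zero_mul]
  rw [e0]
  have e1 : |∑ w ∈ B, m w * (Pw H b0 b u w * Pw H b0 b v w)| ≤
      K * ∑ w ∈ B, et b w * |Pw H b0 b u w * Pw H b0 b v w| := by
    rw [Finset.mul_sum]
    refine (Finset.abs_sum_le_sum_abs _ _).trans (Finset.sum_le_sum fun w hw => ?_)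
    rw [abs_mul]
    have := mul_le_mul_of_nonneg_right (hm w hw) (abs_nonneg (Pw H b0 b u w * Pw H b0 b v w))
    linarith
  have e2 := csw B (w := et b) (p := fun w => Pw H b0 b u w ^ 2)
    (q := fun w => Pw H b0 b v w ^ 2) (c := fun w => Pw H b0 b u w * Pw H b0 b v w)
    (fun w _ => hnn w) (fun w _ => sq_nonneg _) (fun w _ => sq_nonneg _)
    (fun w _ => by rw [mul_pow])
  have e5 : 0 ≤ ∑ x ∈ B, et b x * Pw H b0 b v x ^ 2 :=
    Finset.sum_nonneg fun w _ => mul_nonneg (hnn w) (sq_nonneg _)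
  have e6 : 0 ≤ ∑ x ∈ B, et b x * Pw H b0 b u x ^ 2 :=
    Finset.sum_nonneg fun w _ => mul_nonneg (hnn w) (sq_nonneg _)
  have e7 : ∑ w ∈ B, et b w * |Pw H b0 b u w * Pw H b0 b v w| ≤
      EP * √(NI H b0 b I u * NI H b0 b I v) :=
    to_sqrt hEP le_rfl (e2.trans (mul_le_mul hu hv e5 (e6.trans hu)))
  have e8 := mul_le_mul_of_nonneg_left e7 hK
  refine e1.trans (e8.trans (le_of_eq ?_))
  ring

theorem drD {m : ι → ℝ} {ep : ℝ} (hep : 0 ≤ ep) (hm : ∀ w, |m w| ≤ ep * et b w) {u v : ι → ℝ}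
    (hu : ∑ w, et b w * Dab H b0 b u w ≤ 108 / d0 * NI H b0 b I u)
    (hv : ∑ w, et b w * Dab H b0 b v w ≤ 108 / d0 * NI H b0 b I v) :
    |∑ w, m w * Dw H b0 b u v w| ≤ 108 / d0 * ep * √(NI H b0 b I u * NI H b0 b I v) := by
  have hd := h.dp
  have e1 : |∑ w, m w * Dw H b0 b u v w| ≤ ep * ∑ w, et b w * |Dw H b0 b u v w| := by
    rw [Finset.mul_sum]
    refine (Finset.abs_sum_le_sum_abs _ _).trans (Finset.sum_le_sum fun w _ => ?_)
    rw [abs_mul]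
    have := mul_le_mul_of_nonneg_right (hm w) (abs_nonneg (Dw H b0 b u v w))
    linarith
  have e2 := csw (Finset.univ : Finset ι) (w := et b) (p := fun w => Dab H b0 b u w)
    (q := fun w => Dab H b0 b v w) (c := fun w => Dw H b0 b u v w)
    (fun w _ => FA.et0 h.a1 w) (fun w _ => h.dab0 u w) (fun w _ => h.dab0 v w)
    (fun w _ => h.dw_sq u v w)
  have e5 : 0 ≤ ∑ w, et b w * Dab H b0 b v w :=
    Finset.sum_nonneg fun w _ => mul_nonneg (FA.et0 h.a1 w) (h.dab0 v w)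
  have e6 : 0 ≤ 108 / d0 * NI H b0 b I u := by
    have := h.ni0 u
    positivity
  have e7 : ∑ w, et b w * |Dw H b0 b u v w| ≤
      108 / d0 * √(NI H b0 b I u * NI H b0 b I v) :=
    to_sqrt (by positivity) le_rfl (e2.trans (mul_le_mul hu hv e5 e6))
  have e8 := mul_le_mul_of_nonneg_left e7 hep
  refine e1.trans (e8.trans (le_of_eq ?_))
  ring

omit h in
theorem noiP {B : Finset ι} {β : ι → ℝ} {K EP : ℝ} (hK : 0 ≤ K) (hEP : 0 ≤ EP)
    (hβ : ∀ w ∈ B, β w ^ 2 ≤ K * et b w) (hβ0 : ∀ w, w ∉ B → β w = 0)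
    {a : ι → ι → ℝ} {v : ι → ℝ}
    (haP : ∀ w, ∑ x ∈ B, et b x * Pw H b0 b (a w) x ^ 2 ≤ EP)
    (hv : ∑ x ∈ B, et b x * Pw H b0 b v x ^ 2 ≤ EP * NI H b0 b I v)
    (hnn : ∀ x, 0 ≤ et b x) :
    ∑ w, β w ^ 4 * (Pw H b0 b (a w) w * Pw H b0 b v w) ^ 2 ≤ K ^ 2 * EP ^ 2 * NI H b0 b I v := by
  have e0 : ∑ w, β w ^ 4 * (Pw H b0 b (a w) w * Pw H b0 b v w) ^ 2 =
      ∑ w ∈ B, β w ^ 4 * (Pw H b0 b (a w) w * Pw H b0 b v w) ^ 2 := by
    symm
    refine Finset.sum_subset (Finset.subset_univ B) fun w _ hw => ?_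
    rw [hβ0 w hw]
    ring
  rw [e0]
  have e1 : ∀ w ∈ B, β w ^ 4 * (Pw H b0 b (a w) w * Pw H b0 b v w) ^ 2 ≤
      K ^ 2 * EP * (et b w * Pw H b0 b v w ^ 2) := by
    intro w hw
    have f1 : et b w * Pw H b0 b (a w) w ^ 2 ≤ EP := by
      refine le_trans ?_ (haP w)
      exact Finset.single_le_sum (f := fun x => et b x * Pw H b0 b (a w) x ^ 2)
        (fun x _ => mul_nonneg (hnn x) (sq_nonneg _)) hw
    have f2 : β w ^ 2 * Pw H b0 b (a w) w ^ 2 ≤ K * EP := by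
      have g1 := mul_le_mul_of_nonneg_right (hβ w hw) (sq_nonneg (Pw H b0 b (a w) w))
      have g2 := mul_le_mul_of_nonneg_left f1 hK
      linarith
    have f3 : β w ^ 2 * Pw H b0 b v w ^ 2 ≤ K * (et b w * Pw H b0 b v w ^ 2) := by
      have g1 := mul_le_mul_of_nonneg_right (hβ w hw) (sq_nonneg (Pw H b0 b v w))
      linarith
    calc β w ^ 4 * (Pw H b0 b (a w) w * Pw H b0 b v w) ^ 2
        = (β w ^ 2 * Pw H b0 b (a w) w ^ 2) * (β w ^ 2 * Pw H b0 b v w ^ 2) := by ring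
      _ ≤ (K * EP) * (K * (et b w * Pw H b0 b v w ^ 2)) :=
          mul_le_mul f2 f3 (by positivity) (mul_nonneg hK hEP)
      _ = _ := by ring
  refine (Finset.sum_le_sum e1).trans ?_
  rw [← Finset.mul_sum]
  have e2 := mul_le_mul_of_nonneg_left hv (show 0 ≤ K ^ 2 * EP by positivity)
  linarith

theorem noiD {β : ι → ℝ} {K bm Dm : ℝ} (hK : 0 ≤ K) (hDm : 0 ≤ Dm)
    (hβ : ∀ w, β w ^ 2 ≤ K * et b w) (hbm : ∀ w, β w ^ 2 ≤ bm ^ 2)
    {a : ι → ι → ℝ} {v : ι → ℝ} (haD : ∀ w, β w ≠ 0 → Dab H b0 b (a w) w ≤ Dm)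
    (hv : ∑ w, et b w * Dab H b0 b v w ≤ 108 / d0 * NI H b0 b I v) :
    ∑ w, β w ^ 4 * Dw H b0 b (a w) v w ^ 2 ≤ bm ^ 2 * Dm * K * (108 / d0) * NI H b0 b I v := by
  have e1 : ∀ w ∈ (Finset.univ : Finset ι), β w ^ 4 * Dw H b0 b (a w) v w ^ 2 ≤
      bm ^ 2 * Dm * K * (et b w * Dab H b0 b v w) := by
    intro w _
    have hDv := h.dab0 v w
    have hDa := h.dab0 (a w) w
    have het := FA.et0 h.a1 w
    by_cases hb : β w = 0
    · rw [hb]
      have : 0 ≤ bm ^ 2 * Dm * K * (et b w * Dab H b0 b v w) := by positivity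
      simpa using this
    · have f1 : Dw H b0 b (a w) v w ^ 2 ≤ Dm * Dab H b0 b v w :=
        (h.dw_sq (a w) v w).trans (mul_le_mul_of_nonneg_right (haD w hb) hDv)
      have f2 : β w ^ 4 ≤ bm ^ 2 * (K * et b w) := by
        calc β w ^ 4 = β w ^ 2 * β w ^ 2 := by ring
          _ ≤ bm ^ 2 * (K * et b w) := mul_le_mul (hbm w) (hβ w) (sq_nonneg _) (sq_nonneg _)
      calc β w ^ 4 * Dw H b0 b (a w) v w ^ 2 ≤ (bm ^ 2 * (K * et b w)) * (Dm * Dab H b0 b v w) :=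
            mul_le_mul f2 f1 (sq_nonneg _) (by positivity)
        _ = _ := by ring
  refine (Finset.sum_le_sum e1).trans ?_
  rw [← Finset.mul_sum]
  have e2 := mul_le_mul_of_nonneg_left hv (show 0 ≤ bm ^ 2 * Dm * K by positivity)
  linarith

end Dat

end Pool.Agent.ANS.FormM
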