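import Pool.Agent.ANS.FormM.Defs

/-! # ANS FORMM NRM: the normaliser, the closed formula, the bound of `Π_w` (helper22)

* `closed`: `M(u,v) = ∑ f^u uc^v - Q(uc u, uc v) + ∑ (Γ - Γ⁰) η dl^u dl^v`, `f = fv H b0`.
* `f_sq`: `∑ f²/m⁰ ≤ 2 Q_0`; `dl_sq`: `∑ η Γ⁰ dl² ≤ (2/d0) NI`; `ns_le`, `ni_le`: `NI ≤ ∑ f uc ≤ (3/d0) NI`.
* `q_uc`: `Q(uc u) ≤ (5/d0) NI u`.
* `surj`: every `z` supported in `B` is `uc v`, `v` supported in `B`; `ns_z`: `∑ f^v z ≤ 2 ∑ m z²`.
* `pi_le`: `∑_B η Π² ≤ 8 C (θ + 2 C a/d0)² NI u` (the functional tested with `uc v = 1_B ζ/m`,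
  `ζ = f^u - (Q uc u) = η (Π - (Γ - Γ⁰) dl)`). -/

set_option autoImplicit false

open Matrix Finset

noncomputable section

namespace Pool.Agent.ANS.FormM

open Pool.Agent.Kin Pool.Agent.APS Pool.Agent.ANL
open Pool.Agent.ANS.FA (et Qp ev Tf al)

variable {ι : Type} [Fintype ι] [DecidableEq ι] {H : Matrix ι ι ℂ} {b0 b : ι → ℂ} {I : Finset ι}
  {C d0 : ℝ}

/-! ### the form -/

theorem qb_self (u : ι → ℝ) : Qb H b u u = Qp H b u := by
  unfold Qb Qp
  congr 1
  refine Finset.sum_congr rfl fun x _ => Finset.sum_congr rfl fun y _ => ?_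
  ring

theorem qb_symm (u v : ι → ℝ) : Qb H b u v = Qb H b v u := by
  unfold Qb
  congr 1
  refine Finset.sum_congr rfl fun x _ => Finset.sum_congr rfl fun y _ => ?_
  ring

theorem qb_fv (h : Adm H b) (u v : ι → ℝ) : Qb H b u v = ∑ x, fv H b u x * v x := by
  set k : ι → ι → ℝ := fun x y => et b x * ‖rsc H b x y‖ ^ 2 * et b y with hk
  have hks : ∀ x y, k x y = k y x := fun x y => by
    simp only [hk]
    rw [adm_symm h x y]
    ring
  have h1 : ∑ x, ∑ y, k x y * ((u x - u y) * (v x - v y)) =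
      ∑ x, ∑ y, k x y * ((u x - u y) * v x) + ∑ x, ∑ y, k x y * ((u x - u y) * v x) := by
    have e1 : ∑ x, ∑ y, k x y * ((u x - u y) * (v x - v y)) =
        ∑ x, ∑ y, k x y * ((u x - u y) * v x) - ∑ x, ∑ y, k x y * ((u x - u y) * v y) := by
      simp only [← Finset.sum_sub_distrib]
      refine Finset.sum_congr rfl fun x _ => Finset.sum_congr rfl fun y _ => ?_
      ring
    have e2 : ∑ x, ∑ y, k x y * ((u x - u y) * v y) =
        -∑ x, ∑ y, k x y * ((u x - u y) * v x) := by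
      rw [Finset.sum_comm]
      simp only [← Finset.sum_neg_distrib]
      refine Finset.sum_congr rfl fun x _ => Finset.sum_congr rfl fun y _ => ?_
      rw [hks y x]
      ring
    rw [e1, e2]
    ring
  have h2 : Qb H b u v = 1 / 2 * ∑ x, ∑ y, k x y * ((u x - u y) * (v x - v y)) := rfl
  rw [h2, h1]
  have h3 : ∑ x, fv H b u x * v x = ∑ x, ∑ y, k x y * ((u x - u y) * v x) := by
    refine Finset.sum_congr rfl fun x _ => ?_
    unfold fv
    rw [Finset.mul_sum, Finset.sum_mul]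
    refine Finset.sum_congr rfl fun y _ => ?_
    simp only [hk]
    ring
  rw [h3]
  ring

omit [Fintype ι] [DecidableEq ι] in
/-- Cauchy-Schwarz with weights -/
theorem wcs {κ : Type} (s : Finset κ) {w : κ → ℝ} (hw : ∀ i ∈ s, 0 ≤ w i) (f g : κ → ℝ) :
    (∑ i ∈ s, w i * (f i * g i)) ^ 2 ≤ (∑ i ∈ s, w i * f i ^ 2) * ∑ i ∈ s, w i * g i ^ 2 := by
  have h1 := Finset.sum_mul_sq_le_sq_mul_sq s (fun i => √(w i) * f i) (fun i => √(w i) * g i)
  have h2 : ∀ k : κ → ℝ, ∑ i ∈ s, (√(w i) * k i) ^ 2 = ∑ i ∈ s, w i * k i ^ 2 := by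
    intro k
    refine Finset.sum_congr rfl fun i hi => ?_
    rw [mul_pow, Real.sq_sqrt (hw i hi)]
  have h3 : ∑ i ∈ s, √(w i) * f i * (√(w i) * g i) = ∑ i ∈ s, w i * (f i * g i) := by
    refine Finset.sum_congr rfl fun i hi => ?_
    have := Real.mul_self_sqrt (hw i hi)
    calc √(w i) * f i * (√(w i) * g i) = (√(w i) * √(w i)) * (f i * g i) := by ring
      _ = _ := by rw [this]
  rw [h2, h2, h3] at h1
  exact h1

theorem qb_cs (h : Adm H b) (u v : ι → ℝ) : Qb H b u v ^ 2 ≤ Qp H b u * Qp H b v := by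
  have h1 := wcs (Finset.univ : Finset (ι × ι))
    (w := fun p => 1 / 2 * (et b p.1 * ‖rsc H b p.1 p.2‖ ^ 2 * et b p.2))
    (fun p _ => mul_nonneg (by norm_num)
      (mul_nonneg (mul_nonneg (FA.et0 h _) (sq_nonneg _)) (FA.et0 h _)))
    (fun p => u p.1 - u p.2) (fun p => v p.1 - v p.2)
  rw [← Finset.univ_product_univ, Finset.sum_product, Finset.sum_product,
    Finset.sum_product] at h1
  have e1 : ∀ a c : ι → ℝ, ∑ x, ∑ y, 1 / 2 * (et b x * ‖rsc H b x y‖ ^ 2 * et b y) *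
      ((a x - a y) * (c x - c y)) = Qb H b a c := by
    intro a c
    unfold Qb
    rw [Finset.mul_sum]
    refine Finset.sum_congr rfl fun x _ => ?_
    rw [Finset.mul_sum]
    refine Finset.sum_congr rfl fun y _ => ?_
    ring
  have e2 : ∀ a : ι → ℝ, ∑ x, ∑ y, 1 / 2 * (et b x * ‖rsc H b x y‖ ^ 2 * et b y) *
      (a x - a y) ^ 2 = Qp H b a := by
    intro a
    rw [← qb_self, ← e1 a a]
    refine Finset.sum_congr rfl fun x _ => Finset.sum_congr rfl fun y _ => ?_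
    ring
  simp only [e1, e2] at h1
  exact h1

/-- Ward, real form -/
theorem gam_ward (h : Adm H b) (x : ι) : gam H b x = ∑ y, et b y * ‖rsc H b x y‖ ^ 2 := ward h x

theorem gam_nonneg (h : Adm H b) (x : ι) : 0 ≤ gam H b x := ward_nonneg h x

/-- `Q ≤ 2 m` -/
theorem qp_le (h : Adm H b) (u : ι → ℝ) :
    Qp H b u ≤ 2 * ∑ x, et b x * gam H b x * u x ^ 2 := by
  set k : ι → ι → ℝ := fun x y => et b x * ‖rsc H b x y‖ ^ 2 * et b y with hk
  have hk0 : ∀ x y, 0 ≤ k x y := fun x y =>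
    mul_nonneg (mul_nonneg (FA.et0 h _) (sq_nonneg _)) (FA.et0 h _)
  have hks : ∀ x y, k x y = k y x := fun x y => by
    simp only [hk]
    rw [adm_symm h x y]
    ring
  have h1 : ∑ x, ∑ y, k x y * (u x - u y) ^ 2 ≤
      ∑ x, ∑ y, (2 * (k x y * u x ^ 2) + 2 * (k x y * u y ^ 2)) := by
    refine Finset.sum_le_sum fun x _ => Finset.sum_le_sum fun y _ => ?_
    nlinarith [mul_nonneg (hk0 x y) (sq_nonneg (u x + u y))]
  have h2 : ∑ x, ∑ y, (2 * (k x y * u x ^ 2) + 2 * (k x y * u y ^ 2)) =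
      4 * ∑ x, ∑ y, k x y * u x ^ 2 := by
    have e1 : ∑ x, ∑ y, k x y * u y ^ 2 = ∑ x, ∑ y, k x y * u x ^ 2 := by
      rw [Finset.sum_comm]
      refine Finset.sum_congr rfl fun x _ => Finset.sum_congr rfl fun y _ => ?_
      rw [hks y x]
    simp only [Finset.sum_add_distrib, ← Finset.mul_sum]
    rw [e1]
    ring
  have h3 : ∑ x, ∑ y, k x y * u x ^ 2 = ∑ x, et b x * gam H b x * u x ^ 2 := by
    refine Finset.sum_congr rfl fun x _ => ?_
    rw [gam_ward h x, Finset.mul_sum, Finset.sum_mul]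
    refine Finset.sum_congr rfl fun y _ => ?_
    simp only [hk]
    ring
  have h4 : Qp H b u = 1 / 2 * ∑ x, ∑ y, k x y * (u x - u y) ^ 2 := rfl
  rw [h4]
  rw [h2, h3] at h1
  linarith

theorem fv_ward (h : Adm H b) (u : ι → ℝ) (x : ι) :
    fv H b u x = et b x * (gam H b x * u x - ∑ y, ‖rsc H b x y‖ ^ 2 * (et b y * u y)) := by
  unfold fv
  rw [gam_ward h x, Finset.sum_mul, ← Finset.sum_sub_distrib]
  congr 1
  refine Finset.sum_congr rfl fun y _ => ?_
  ring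

/-- the functional through the form -/
theorem mr_eq (h : Adm H b) (f φ δ f' φ' δ' : ι → ℝ) (hf : ∀ x, f x = et b x * δ x)
    (hf' : ∀ x, f' x = et b x * δ' x) :
    Mr (rsc H b) (et b) f φ f' φ' =
      -Qb H b (fun x => φ x + δ x) (fun x => φ' x + δ' x) +
        ∑ x, gam H b x * (et b x * (δ x * δ' x)) := by
  rw [qb_fv h]
  unfold Mr
  have h1 : ∀ x, fv H b (fun x => φ x + δ x) x * (φ' x + δ' x) =
      gam H b x * (et b x * ((φ x + δ x) * (φ' x + δ' x))) -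
        ∑ y, ‖rsc H b x y‖ ^ 2 * ((f' x + et b x * φ' x) * (f y + et b y * φ y)) := by
    intro x
    rw [fv_ward h, hf' x]
    have e1 : ∑ y, ‖rsc H b x y‖ ^ 2 * ((et b x * δ' x + et b x * φ' x) *
        (f y + et b y * φ y)) = (et b x * (φ' x + δ' x)) *
        ∑ y, ‖rsc H b x y‖ ^ 2 * (et b y * (φ y + δ y)) := by
      rw [Finset.mul_sum]
      refine Finset.sum_congr rfl fun y _ => ?_
      rw [hf y]
      ring
    rw [e1]
    ring
  rw [Finset.sum_congr rfl fun x _ => h1 x, Finset.sum_sub_distrib]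
  have h2 : ∑ x, ∑ y, ‖rsc H b x y‖ ^ 2 * ((f x + et b x * φ x) * (f' y + et b y * φ' y)) =
      ∑ x, ∑ y, ‖rsc H b x y‖ ^ 2 * ((f' x + et b x * φ' x) * (f y + et b y * φ y)) := by
    rw [Finset.sum_comm]
    refine Finset.sum_congr rfl fun x _ => Finset.sum_congr rfl fun y _ => ?_
    rw [adm_symm h y x]
    ring
  rw [h2]
  have h3 : ∑ x, (rsc H b x x).im * (f x * φ' x + f' x * φ x + et b x * (φ x * φ' x)) =
      ∑ x, gam H b x * (et b x * ((φ x + δ x) * (φ' x + δ' x))) -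
        ∑ x, gam H b x * (et b x * (δ x * δ' x)) := by
    rw [← Finset.sum_sub_distrib]
    refine Finset.sum_congr rfl fun x _ => ?_
    rw [hf x, hf' x]
    unfold gam
    ring
  rw [h3]
  ring

namespace Dat

variable (h : Dat H b0 b I C d0)
include h

/-- the data at the start -/
theorem refl0 : Dat H b0 b0 I C d0 where
  a0 := h.a0
  a1 := h.a0
  C1 := h.C1
  dp := h.dp
  dp1 := h.dp1
  eq0 _ hx := hx
  pos x hx := lt_of_le_of_ne (FA.et0 h.a0 x) (Ne.symm hx)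
  le _ := le_rfl
  lo x _ := by nlinarith [FA.et0 h.a0 x, h.dp1]
  io := h.io
  io' := h.io'

omit h in
theorem uc0 (u : ι → ℝ) (x : ι) : uc H b0 b0 u x = u x := by
  rw [uc_bt]
  unfold bt
  ring

/-- THE CLOSED FORMULA -/
theorem closed (u v : ι → ℝ) :
    Mf H b0 b u v = ∑ x, fv H b0 u x * uc H b0 b v x - Qb H b (uc H b0 b u) (uc H b0 b v) +
      ∑ x, (gam H b x - gam H b0 x) * (et b x * (dl H b0 b u x * dl H b0 b v x)) := by
  have h1 := mr_eq h.a1 (fh H b0 u) (ph H b0 u) (dl H b0 b u) (fh H b0 v) (ph H b0 v)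
    (dl H b0 b v) (h.fh_dl u) (h.fh_dl v)
  have h2 := mr_eq h.a0 (fh H b0 u) (ph H b0 u) (dl H b0 b0 u) (fh H b0 v) (ph H b0 v)
    (dl H b0 b0 v) (h.refl0.fh_dl u) (h.refl0.fh_dl v)
  have e1 : (fun x => ph H b0 u x + dl H b0 b0 u x) = u := funext fun x => uc0 u x
  have e2 : (fun x => ph H b0 v x + dl H b0 b0 v x) = v := funext fun x => uc0 v x
  rw [e1, e2] at h2
  have e3 : (fun x => ph H b0 u x + dl H b0 b u x) = uc H b0 b u := rfl
  have e4 : (fun x => ph H b0 v x + dl H b0 b v x) = uc H b0 b v := rfl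
  rw [e3, e4] at h1
  unfold Mf
  rw [h1, h2, qb_fv h.a0]
  have h3 : ∑ x, fv H b0 u x * uc H b0 b v x = ∑ x, fv H b0 u x * v x -
      ∑ x, gam H b0 x * (et b0 x * (dl H b0 b0 u x * dl H b0 b0 v x)) +
      ∑ x, gam H b0 x * (et b x * (dl H b0 b u x * dl H b0 b v x)) := by
    rw [← Finset.sum_sub_distrib, ← Finset.sum_add_distrib]
    refine Finset.sum_congr rfl fun x _ => ?_
    have f1 := h.fv_dl u x
    have f2 := h.refl0.fv_dl u x
    have f3 : uc H b0 b v x = v x - dl H b0 b0 v x + dl H b0 b v x := by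
      rw [← uc0 v x]
      unfold uc
      ring
    rw [f3]
    linear_combination (-(dl H b0 b0 v x)) * f2 + dl H b0 b v x * f1
  rw [h3]
  have h4 : ∑ x, (gam H b x - gam H b0 x) * (et b x * (dl H b0 b u x * dl H b0 b v x)) =
      ∑ x, gam H b x * (et b x * (dl H b0 b u x * dl H b0 b v x)) -
      ∑ x, gam H b0 x * (et b x * (dl H b0 b u x * dl H b0 b v x)) := by
    rw [← Finset.sum_sub_distrib]
    refine Finset.sum_congr rfl fun x _ => ?_
    ring
  rw [h4]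
  ring

omit h in
theorem bt_off {x : ι} (hx : et b x = et b0 x) : bt H b0 b x = 0 := by
  unfold bt
  rw [hx]
  ring

/-- `∑ f² / m⁰ ≤ 2 Q_0(u)` -/
theorem f_sq (u : ι → ℝ) :
    ∑ x, fv H b0 u x ^ 2 / (et b0 x * gam H b0 x) ≤ 2 * Qp H b0 u := by
  set g : ι → ℝ := fun x => fv H b0 u x / (et b0 x * gam H b0 x) with hg
  set F := ∑ x, fv H b0 u x ^ 2 / (et b0 x * gam H b0 x) with hF
  have hF0 : 0 ≤ F := Finset.sum_nonneg fun x _ =>
    div_nonneg (sq_nonneg _) (mul_nonneg (FA.et0 h.a0 x) (gam_nonneg h.a0 x))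
  have h1 : Qb H b0 u g = F := by
    rw [qb_fv h.a0, hF]
    refine Finset.sum_congr rfl fun x _ => ?_
    simp only [hg]
    ring
  have h2 : ∑ x, et b0 x * gam H b0 x * g x ^ 2 = F := by
    rw [hF]
    refine Finset.sum_congr rfl fun x _ => ?_
    simp only [hg]
    rcases eq_or_ne (et b0 x) 0 with hx | hx
    · rw [fv_off hx]
      simp
    · have h3 := h.g0 hx
      field_simp
  have h3 := qb_cs h.a0 u g
  have h4 := qp_le h.a0 g
  rw [h1] at h3
  rw [h2] at h4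
  have h5 := FA.Qp_nonneg h.a0 u
  have h6 : F ^ 2 ≤ Qp H b0 u * (2 * F) := h3.trans (mul_le_mul_of_nonneg_left h4 h5)
  rcases eq_or_lt_of_le hF0 with h7 | h7
  · rw [← h7]
    linarith
  · by_contra h8
    push Not at h8
    nlinarith

theorem q_le_ni (u : ι → ℝ) : Qp H b0 u ≤ NI H b0 b I u := by
  unfold NI
  have : 0 ≤ ∑ x ∈ I, bt H b0 b x * fv H b0 u x ^ 2 :=
    Finset.sum_nonneg fun x _ => mul_nonneg (h.bt0 x) (sq_nonneg _)
  linarith

theorem ni0 (u : ι → ℝ) : 0 ≤ NI H b0 b I u := (FA.Qp_nonneg h.a0 u).trans (h.q_le_ni u)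

/-- `∑ η Γ⁰ dl² = ∑ f²/m ≤ (2/d0) NI` -/
theorem dl_site (u : ι → ℝ) (x : ι) : et b x * gam H b0 x * dl H b0 b u x ^ 2 =
    fv H b0 u x ^ 2 / (et b0 x * gam H b0 x) + bt H b0 b x * fv H b0 u x ^ 2 := by
  unfold dl bt
  rcases eq_or_ne (et b0 x) 0 with hx | hx
  · rw [fv_off hx]
    simp
  · have h1 := h.pos x hx
    have h2 := h.g0 hx
    field_simp
    ring

theorem bt_out {x : ι} (hx : x ∉ I) (u : ι → ℝ) : bt H b0 b x * fv H b0 u x ^ 2 ≤
    (1 / d0 - 1) * (fv H b0 u x ^ 2 / (et b0 x * gam H b0 x)) := by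
  unfold bt
  rcases eq_or_ne (et b0 x) 0 with hx0 | hx0
  · rw [fv_off hx0]
    simp
  · have h1 := h.pos x hx0
    have h2 := h.g0 hx0
    have h3 := h.lo x hx
    have h4 := h.dp
    have h5 : 0 < et b0 x := h.refl0.pos x hx0
    have h6 : 1 / (et b x * gam H b0 x) ≤ 1 / d0 * (1 / (et b0 x * gam H b0 x)) := by
      have f1 : 1 / et b x ≤ 1 / (d0 * et b0 x) :=
        one_div_le_one_div_of_le (mul_pos h4 h5) h3
      have f2 := mul_le_mul_of_nonneg_right f1 (one_div_pos.2 h2).le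
      calc 1 / (et b x * gam H b0 x) = 1 / et b x * (1 / gam H b0 x) := by
            rw [one_div_mul_one_div]
        _ ≤ _ := f2
        _ = _ := by
            rw [one_div_mul_one_div, one_div_mul_one_div, mul_assoc]
    have h7 : (1 / d0 - 1) * (fv H b0 u x ^ 2 / (et b0 x * gam H b0 x)) =
        (1 / d0 * (1 / (et b0 x * gam H b0 x)) - 1 / (et b0 x * gam H b0 x)) *
          fv H b0 u x ^ 2 := by ring
    rw [h7]
    exact mul_le_mul_of_nonneg_right (by linarith) (sq_nonneg _)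

/-- the part of `∑ bt f²` outside `I` -/
theorem bt_sum (u : ι → ℝ) : ∑ x, bt H b0 b x * fv H b0 u x ^ 2 ≤
    (1 / d0 - 1) * (2 * Qp H b0 u) + ∑ x ∈ I, bt H b0 b x * fv H b0 u x ^ 2 := by
  have h4 := h.dp
  have h5 := h.dp1
  have hd : 0 ≤ 1 / d0 - 1 := by
    have : 1 ≤ 1 / d0 := by
      rw [le_div_iff₀ h4]
      linarith
    linarith
  have hm : ∀ x, 0 ≤ fv H b0 u x ^ 2 / (et b0 x * gam H b0 x) := fun x =>
    div_nonneg (sq_nonneg _) (mul_nonneg (FA.et0 h.a0 x) (gam_nonneg h.a0 x))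
  have h1 : ∑ x, bt H b0 b x * fv H b0 u x ^ 2 ≤
      ∑ x, ((1 / d0 - 1) * (fv H b0 u x ^ 2 / (et b0 x * gam H b0 x)) +
        if x ∈ I then bt H b0 b x * fv H b0 u x ^ 2 else 0) := by
    refine Finset.sum_le_sum fun x _ => ?_
    by_cases hx : x ∈ I
    · rw [if_pos hx]
      have := mul_nonneg hd (hm x)
      linarith
    · rw [if_neg hx, add_zero]
      exact h.bt_out hx u
  have e1 : ∑ x, (if x ∈ I then bt H b0 b x * fv H b0 u x ^ 2 else 0) =
      ∑ x ∈ I, bt H b0 b x * fv H b0 u x ^ 2 := by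
    rw [← Finset.sum_filter]
    congr 1
    ext x
    simp
  rw [Finset.sum_add_distrib, ← Finset.mul_sum, e1] at h1
  have h2 := mul_le_mul_of_nonneg_left (h.f_sq u) hd
  linarith

theorem dl_sq (u : ι → ℝ) :
    ∑ x, et b x * gam H b0 x * dl H b0 b u x ^ 2 ≤ 2 / d0 * NI H b0 b I u := by
  have h1 : ∑ x, et b x * gam H b0 x * dl H b0 b u x ^ 2 =
      ∑ x, fv H b0 u x ^ 2 / (et b0 x * gam H b0 x) + ∑ x, bt H b0 b x * fv H b0 u x ^ 2 := by
    rw [← Finset.sum_add_distrib]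
    exact Finset.sum_congr rfl fun x _ => h.dl_site u x
  have h2 := h.f_sq u
  have h3 := h.bt_sum u
  have h4 := h.dp
  have h5 := h.dp1
  have h6 : 1 ≤ 1 / d0 := by
    rw [le_div_iff₀ h4]
    linarith
  have h7 : 0 ≤ ∑ x ∈ I, bt H b0 b x * fv H b0 u x ^ 2 :=
    Finset.sum_nonneg fun x _ => mul_nonneg (h.bt0 x) (sq_nonneg _)
  have h8 : 2 / d0 * NI H b0 b I u = 2 * (1 / d0) * Qp H b0 u +
      2 * (1 / d0) * ∑ x ∈ I, bt H b0 b x * fv H b0 u x ^ 2 := by
    unfold NI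
    ring
  rw [h1, h8]
  have h9 := mul_le_mul_of_nonneg_right h6 h7
  nlinarith

theorem dl_sq' (u : ι → ℝ) :
    ∑ x, et b x * dl H b0 b u x ^ 2 ≤ 2 * C / d0 * NI H b0 b I u := by
  have h1 := h.dl_sq u
  have hC := h.C1
  have h2 : ∑ x, et b x * dl H b0 b u x ^ 2 ≤
      C * ∑ x, et b x * gam H b0 x * dl H b0 b u x ^ 2 := by
    rw [Finset.mul_sum]
    refine Finset.sum_le_sum fun x _ => ?_
    rcases eq_or_ne (et b0 x) 0 with hx | hx
    · rw [h.eq0 x hx]
      simp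
    · have h3 := h.io x hx
      have h4 := mul_nonneg (FA.et0 h.a1 x) (sq_nonneg (dl H b0 b u x))
      nlinarith [mul_le_mul_of_nonneg_left h3 h4]
  refine h2.trans ((mul_le_mul_of_nonneg_left h1 (by linarith)).trans (le_of_eq ?_))
  ring

/-- `∑ f uc = Q_0 + ∑ bt f²` -/
theorem fuc (u : ι → ℝ) : ∑ x, fv H b0 u x * uc H b0 b u x =
    Qp H b0 u + ∑ x, bt H b0 b x * fv H b0 u x ^ 2 := by
  rw [← qb_self, qb_fv h.a0, ← Finset.sum_add_distrib]
  refine Finset.sum_congr rfl fun x _ => ?_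
  rw [uc_bt]
  ring

theorem ni_le (u : ι → ℝ) : NI H b0 b I u ≤ ∑ x, fv H b0 u x * uc H b0 b u x := by
  rw [h.fuc]
  unfold NI
  have := Finset.sum_le_univ_sum_of_nonneg (s := I) (f := fun x => bt H b0 b x * fv H b0 u x ^ 2)
    fun x => mul_nonneg (h.bt0 x) (sq_nonneg _)
  linarith

theorem ns_le (u : ι → ℝ) :
    ∑ x, fv H b0 u x * uc H b0 b u x ≤ 3 / d0 * NI H b0 b I u := by
  rw [h.fuc]
  have h3 := h.bt_sum u
  have h4 := h.dp
  have h5 := h.dp1
  have h6 : 1 ≤ 1 / d0 := by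
    rw [le_div_iff₀ h4]
    linarith
  have h7 : 0 ≤ ∑ x ∈ I, bt H b0 b x * fv H b0 u x ^ 2 :=
    Finset.sum_nonneg fun x _ => mul_nonneg (h.bt0 x) (sq_nonneg _)
  have hq := FA.Qp_nonneg h.a0 u
  have h8 : 3 / d0 * NI H b0 b I u = 3 * (1 / d0) * Qp H b0 u +
      3 * (1 / d0) * ∑ x ∈ I, bt H b0 b x * fv H b0 u x ^ 2 := by
    unfold NI
    ring
  rw [h8]
  have h9 := mul_le_mul_of_nonneg_right h6 h7
  have h10 := mul_le_mul_of_nonneg_right h6 hq
  nlinarith

/-- energy of `uc u` -/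
theorem q_uc {θ a : ℝ} (hθ1 : θ ≤ 1) (ha0 : 0 ≤ a) (ha : 2 * C * a ≤ 1)
    (hg : ∀ x, et b0 x ≠ 0 → |gam H b x - gam H b0 x| ≤ a) {u : ι → ℝ}
    (hM : |Mf H b0 b u u| ≤ θ * NI H b0 b I u) :
    Qp H b (uc H b0 b u) ≤ 5 / d0 * NI H b0 b I u := by
  have h1 := h.closed u u
  rw [qb_self] at h1
  have h2 := h.ns_le u
  have h3 := h.dl_sq' u
  have h4 := h.dp
  have h5 := h.dp1
  have h6 : 1 ≤ 1 / d0 := by
    rw [le_div_iff₀ h4]
    linarith
  have hn := h.ni0 u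
  have h7 : ∑ x, (gam H b x - gam H b0 x) * (et b x * (dl H b0 b u x * dl H b0 b u x)) ≤
      a * ∑ x, et b x * dl H b0 b u x ^ 2 := by
    rw [Finset.mul_sum]
    refine Finset.sum_le_sum fun x _ => ?_
    rcases eq_or_ne (et b0 x) 0 with hx | hx
    · rw [h.eq0 x hx]
      simp
    · have e1 := (abs_le.1 (hg x hx)).2
      have e2 : 0 ≤ et b x * dl H b0 b u x ^ 2 := mul_nonneg (FA.et0 h.a1 x) (sq_nonneg _)
      have e3 : et b x * (dl H b0 b u x * dl H b0 b u x) = et b x * dl H b0 b u x ^ 2 := by ring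
      rw [e3]
      exact mul_le_mul_of_nonneg_right e1 e2
  have h8 := (abs_le.1 hM).1
  have h9 : a * ∑ x, et b x * dl H b0 b u x ^ 2 ≤ 1 / d0 * NI H b0 b I u := by
    refine (mul_le_mul_of_nonneg_left h3 ha0).trans ?_
    have e1 : a * (2 * C / d0 * NI H b0 b I u) = (2 * C * a) * (1 / d0 * NI H b0 b I u) := by ring
    rw [e1]
    have e2 : 0 ≤ 1 / d0 * NI H b0 b I u := by positivity
    nlinarith
  have h10 : θ * NI H b0 b I u ≤ 1 / d0 * NI H b0 b I u :=
    mul_le_mul_of_nonneg_right (hθ1.trans h6) hn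
  have e1 : 3 / d0 * NI H b0 b I u = 3 * (1 / d0 * NI H b0 b I u) := by ring
  have e2 : 5 / d0 * NI H b0 b I u = 5 * (1 / d0 * NI H b0 b I u) := by ring
  rw [e2]
  rw [e1] at h2
  linarith

/-- `f^u - Q uc u = η (Π - (Γ - Γ⁰) dl)` -/
theorem zeta (u : ι → ℝ) (x : ι) :
    fv H b0 u x - fv H b (uc H b0 b u) x =
      et b x * (Pw H b0 b u x - (gam H b x - gam H b0 x) * dl H b0 b u x) := by
  rw [fv_ward h.a1, h.fv_dl u x]
  unfold Pw Pi'
  have h1 : ∑ y, ‖rsc H b x y‖ ^ 2 * (fh H b0 u y + et b y * ph H b0 u y) =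
      ∑ y, ‖rsc H b x y‖ ^ 2 * (et b y * uc H b0 b u y) := by
    refine Finset.sum_congr rfl fun y _ => ?_
    rw [h.fh_dl u y]
    unfold uc
    ring
  rw [h1]
  unfold uc gam
  ring

/-- solution of `uc v = z` -/
theorem surj {B : Finset ι} (hB : ∀ x, x ∉ B → et b x = et b0 x)
    (hpd : ∀ u : ι → ℝ, (∀ x, x ∉ B → u x = 0) → Qp H b0 u = 0 → ∀ x, u x = 0)
    (z : ι → ℝ) (hz : ∀ x, x ∉ B → z x = 0) :
    ∃ v : ι → ℝ, (∀ x, x ∉ B → v x = 0) ∧ ∀ x, uc H b0 b v x = z x := by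
  classical
  set ex : (↥B → ℝ) → ι → ℝ := fun v x => if hx : x ∈ B then v ⟨x, hx⟩ else 0 with hex
  have ex_add : ∀ v w, ex (v + w) = fun x => ex v x + ex w x := by
    intro v w
    funext x
    simp only [hex]
    split_ifs with hx
    · rfl
    · simp
  have ex_smul : ∀ (c : ℝ) v, ex (c • v) = fun x => c * ex v x := by
    intro c v
    funext x
    simp only [hex]
    split_ifs with hx
    · rfl
    · simp
  have ex_off : ∀ v x, x ∉ B → ex v x = 0 := by
    intro v x hx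
    simp only [hex, hx, dif_neg, not_false_eq_true]
  let A : (↥B → ℝ) →ₗ[ℝ] (↥B → ℝ) :=
    { toFun := fun v x => uc H b0 b (ex v) x
      map_add' := by
        intro v w
        funext x
        rw [ex_add]
        exact uc_add _ _ _
      map_smul' := by
        intro c v
        funext x
        rw [ex_smul]
        exact uc_smul _ _ _ }
  have huoff : ∀ v : ι → ℝ, (∀ x, x ∉ B → v x = 0) → ∀ x, x ∉ B → uc H b0 b v x = 0 := by
    intro v hv x hx
    rw [uc_bt, bt_off (hB x hx), hv x hx]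
    ring
  have hinj : Function.Injective A := by
    rw [← LinearMap.ker_eq_bot, LinearMap.ker_eq_bot']
    intro v hv
    have h1 : ∀ x, uc H b0 b (ex v) x = 0 := by
      intro x
      by_cases hx : x ∈ B
      · exact congrFun hv ⟨x, hx⟩
      · exact huoff _ (ex_off v) x hx
    have h2 := h.fuc (ex v)
    have h3 : ∑ x, fv H b0 (ex v) x * uc H b0 b (ex v) x = 0 :=
      Finset.sum_eq_zero fun x _ => by rw [h1 x, mul_zero]
    rw [h3] at h2
    have h4 : 0 ≤ ∑ x, bt H b0 b x * fv H b0 (ex v) x ^ 2 :=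
      Finset.sum_nonneg fun x _ => mul_nonneg (h.bt0 x) (sq_nonneg _)
    have h5 := FA.Qp_nonneg h.a0 (ex v)
    have h6 := hpd (ex v) (ex_off v) (by linarith)
    funext x
    have h7 := h6 x
    simp only [hex, x.2, dif_pos] at h7
    exact h7
  have hsur := LinearMap.injective_iff_surjective.1 hinj
  obtain ⟨v, hv⟩ := hsur (fun x => z x)
  refine ⟨ex v, ex_off v, fun x => ?_⟩
  by_cases hx : x ∈ B
  · exact congrFun hv ⟨x, hx⟩
  · rw [huoff _ (ex_off v) x hx, hz x hx]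

theorem ns_z (v : ι → ℝ) : ∑ x, fv H b0 v x * uc H b0 b v x ≤
    2 * ∑ x, et b x * gam H b0 x * uc H b0 b v x ^ 2 := by
  set N := ∑ x, fv H b0 v x * uc H b0 b v x with hN
  set Z := ∑ x, et b x * gam H b0 x * uc H b0 b v x ^ 2 with hZ
  have h1 := wcs (Finset.univ : Finset ι) (w := fun x => et b x * gam H b0 x)
    (fun x _ => mul_nonneg (FA.et0 h.a1 x) (gam_nonneg h.a0 x)) (dl H b0 b v) (uc H b0 b v)
  have h2 : ∑ x, et b x * gam H b0 x * (dl H b0 b v x * uc H b0 b v x) = N := by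
    rw [hN]
    refine Finset.sum_congr rfl fun x _ => ?_
    rw [h.fv_dl v x]
    ring
  have h3 : ∑ x, et b x * gam H b0 x * dl H b0 b v x ^ 2 ≤ 2 * N := by
    have e1 : ∑ x, et b x * gam H b0 x * dl H b0 b v x ^ 2 =
        ∑ x, fv H b0 v x ^ 2 / (et b0 x * gam H b0 x) +
          ∑ x, bt H b0 b x * fv H b0 v x ^ 2 := by
      rw [← Finset.sum_add_distrib]
      exact Finset.sum_congr rfl fun x _ => h.dl_site v x
    have e2 := h.f_sq v
    have e3 : 0 ≤ ∑ x, bt H b0 b x * fv H b0 v x ^ 2 :=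
      Finset.sum_nonneg fun x _ => mul_nonneg (h.bt0 x) (sq_nonneg _)
    rw [e1, hN, h.fuc]
    linarith
  have hZ0 : 0 ≤ Z := Finset.sum_nonneg fun x _ =>
    mul_nonneg (mul_nonneg (FA.et0 h.a1 x) (gam_nonneg h.a0 x)) (sq_nonneg _)
  rw [h2] at h1
  have hN0 : 0 ≤ N := by
    rw [hN, h.fuc]
    have e3 : 0 ≤ ∑ x, bt H b0 b x * fv H b0 v x ^ 2 :=
      Finset.sum_nonneg fun x _ => mul_nonneg (h.bt0 x) (sq_nonneg _)
    linarith [FA.Qp_nonneg h.a0 v]
  have h4 : N ^ 2 ≤ 2 * N * Z := h1.trans (mul_le_mul_of_nonneg_right h3 hZ0)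
  rcases eq_or_lt_of_le hN0 with h7 | h7
  · rw [← h7]
    linarith
  · by_contra h8
    push Not at h8
    nlinarith

/-- the bound of `Π` -/
theorem pi_le {B : Finset ι} (hB : ∀ x, x ∉ B → et b x = et b0 x)
    (hBX : ∀ x ∈ B, et b0 x ≠ 0)
    (hpd : ∀ u : ι → ℝ, (∀ x, x ∉ B → u x = 0) → Qp H b0 u = 0 → ∀ x, u x = 0)
    {θ a : ℝ} (hθ : 0 ≤ θ) (ha0 : 0 ≤ a)
    (hg : ∀ x, et b0 x ≠ 0 → |gam H b x - gam H b0 x| ≤ a)
    (hM : ∀ u v : ι → ℝ, (∀ x, x ∉ B → u x = 0) → (∀ x, x ∉ B → v x = 0) →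
      Mf H b0 b u v ^ 2 ≤ θ ^ 2 * (NI H b0 b I u * NI H b0 b I v))
    {u : ι → ℝ} (hu : ∀ x, x ∉ B → u x = 0) :
    ∑ x ∈ B, et b x * Pw H b0 b u x ^ 2 ≤ 8 * C * (θ + 2 * C * a / d0) ^ 2 * NI H b0 b I u := by
  classical
  have hC := h.C1
  have hd := h.dp
  have hd1 := h.dp1
  set ζ : ι → ℝ := fun x => fv H b0 u x - fv H b (uc H b0 b u) x with hζ
  set z : ι → ℝ := fun x => if x ∈ B then ζ x / (et b x * gam H b0 x) else 0 with hz
  set S := ∑ x ∈ B, ζ x ^ 2 / (et b x * gam H b0 x) with hS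
  have hmp : ∀ x ∈ B, 0 < et b x * gam H b0 x := fun x hx =>
    mul_pos (h.pos x (hBX x hx)) (h.g0 (hBX x hx))
  have hS0 : 0 ≤ S := Finset.sum_nonneg fun x hx => div_nonneg (sq_nonneg _) (hmp x hx).le
  obtain ⟨v, hv, hvz⟩ := h.surj hB hpd z fun x hx => by
    simp only [hz, hx, if_false]
  have h1 : ∑ x, ζ x * uc H b0 b v x = S := by
    rw [hS, ← Finset.sum_subset (Finset.subset_univ B)]
    · refine Finset.sum_congr rfl fun x hx => ?_
      rw [hvz x]
      simp only [hz, hx, if_true]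
      ring
    · intro x _ hx
      rw [hvz x]
      simp only [hz, hx, if_false, mul_zero]
  have h2 : ∑ x, et b x * gam H b0 x * uc H b0 b v x ^ 2 = S := by
    rw [hS, ← Finset.sum_subset (Finset.subset_univ B)]
    · refine Finset.sum_congr rfl fun x hx => ?_
      rw [hvz x]
      simp only [hz, hx, if_true]
      have := hmp x hx
      field_simp
    · intro x _ hx
      rw [hvz x]
      simp only [hz, hx, if_false]
      ring
  have h3 : NI H b0 b I v ≤ 2 * S := by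
    have := (h.ni_le v).trans (h.ns_z v)
    rwa [h2] at this
  have h4 : Mf H b0 b u v = S +
      ∑ x, (gam H b x - gam H b0 x) * (et b x * (dl H b0 b u x * dl H b0 b v x)) := by
    rw [h.closed u v, qb_fv h.a1, ← Finset.sum_sub_distrib, ← h1]
    congr 1
    refine Finset.sum_congr rfl fun x _ => ?_
    simp only [hζ]
    ring
  set W := ∑ x, (gam H b x - gam H b0 x) * (et b x * (dl H b0 b u x * dl H b0 b v x)) with hW
  have hnu := h.ni0 u
  have hnv := h.ni0 v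
  set R := √(NI H b0 b I u * NI H b0 b I v) with hR
  have hR0 : 0 ≤ R := Real.sqrt_nonneg _
  have hR2 : R ^ 2 = NI H b0 b I u * NI H b0 b I v := Real.sq_sqrt (mul_nonneg hnu hnv)
  have h5 : |W| ≤ a * (2 * C / d0) * R := by
    have e1 : |W| ≤ a * ∑ x, et b x * (|dl H b0 b u x| * |dl H b0 b v x|) := by
      rw [hW, Finset.mul_sum]
      refine (Finset.abs_sum_le_sum_abs _ _).trans (Finset.sum_le_sum fun x _ => ?_)
      rw [abs_mul, abs_mul, abs_mul, abs_of_nonneg (FA.et0 h.a1 x)]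
      rcases eq_or_ne (et b0 x) 0 with hx | hx
      · rw [h.eq0 x hx]
        simp
      · exact mul_le_mul_of_nonneg_right (hg x hx)
          (mul_nonneg (FA.et0 h.a1 x) (mul_nonneg (abs_nonneg _) (abs_nonneg _)))
    have e2 := wcs (Finset.univ : Finset ι) (w := et b) (fun x _ => FA.et0 h.a1 x)
      (fun x => |dl H b0 b u x|) (fun x => |dl H b0 b v x|)
    simp only [sq_abs] at e2
    have e3 := h.dl_sq' u
    have e4 := h.dl_sq' v
    have e5 : 0 ≤ 2 * C / d0 := by positivity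
    have e6 : (∑ x, et b x * (|dl H b0 b u x| * |dl H b0 b v x|)) ^ 2 ≤
        (2 * C / d0 * R) ^ 2 := by
      refine e2.trans ((mul_le_mul e3 e4 ?_ (by positivity)).trans (le_of_eq ?_))
      · exact Finset.sum_nonneg fun x _ => mul_nonneg (FA.et0 h.a1 x) (sq_nonneg _)
      · rw [mul_pow, hR2]
        ring
    have e7 := (abs_le_of_sq_le_sq' e6 (by positivity)).2
    refine e1.trans ((mul_le_mul_of_nonneg_left e7 ha0).trans (le_of_eq ?_))
    ring
  have h6 : |Mf H b0 b u v| ≤ θ * R := by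
    have e1 := hM u v hu hv
    have e2 : Mf H b0 b u v ^ 2 ≤ (θ * R) ^ 2 := by
      rw [mul_pow, hR2]
      exact e1
    exact abs_le_of_sq_le_sq e2 (by positivity)
  set t := θ + 2 * C * a / d0 with ht
  have ht0 : 0 ≤ t := by positivity
  have h7 : S ≤ t * R := by
    have e1 : S = Mf H b0 b u v - W := by
      rw [h4]
      ring
    have e2 := le_abs_self (Mf H b0 b u v)
    have e3 := neg_abs_le W
    rw [e1, ht]
    have e4 : (θ + 2 * C * a / d0) * R = θ * R + a * (2 * C / d0) * R := by ring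
    rw [e4]
    linarith
  have h8 : S ≤ 2 * t ^ 2 * NI H b0 b I u := by
    have e1 : S ^ 2 ≤ t ^ 2 * (NI H b0 b I u * (2 * S)) := by
      calc S ^ 2 ≤ (t * R) ^ 2 := pow_le_pow_left₀ hS0 h7 2
        _ = t ^ 2 * (NI H b0 b I u * NI H b0 b I v) := by rw [mul_pow, hR2]
        _ ≤ _ := mul_le_mul_of_nonneg_left (mul_le_mul_of_nonneg_left h3 hnu) (sq_nonneg _)
    rcases eq_or_lt_of_le hS0 with e2 | e2
    · rw [← e2]
      positivity
    · by_contra e3
      push Not at e3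
      nlinarith
  -- from ζ to Π
  have h9 : ∀ x ∈ B, et b x * Pw H b0 b u x ^ 2 ≤
      2 * C * (ζ x ^ 2 / (et b x * gam H b0 x)) + 2 * a ^ 2 * (et b x * dl H b0 b u x ^ 2) := by
    intro x hx
    have e0 := h.pos x (hBX x hx)
    have e1 : ζ x = et b x * (Pw H b0 b u x - (gam H b x - gam H b0 x) * dl H b0 b u x) :=
      h.zeta u x
    have e2 := h.io' x (hBX x hx)
    have e3 := h.g0 (hBX x hx)
    set P := Pw H b0 b u x with hP
    set D := (gam H b x - gam H b0 x) * dl H b0 b u x with hD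
    have e4 : ζ x ^ 2 / (et b x * gam H b0 x) = et b x * (P - D) ^ 2 / gam H b0 x := by
      rw [e1]
      field_simp
    have e5 : et b x * (P - D) ^ 2 ≤ C * (ζ x ^ 2 / (et b x * gam H b0 x)) := by
      rw [e4, ← mul_div_assoc, le_div_iff₀ e3, mul_comm C]
      exact mul_le_mul_of_nonneg_left e2 (by positivity)
    have e6 : D ^ 2 ≤ a ^ 2 * dl H b0 b u x ^ 2 := by
      rw [hD, mul_pow]
      refine mul_le_mul_of_nonneg_right ?_ (sq_nonneg _)
      have := hg x (hBX x hx)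
      rw [← sq_abs (gam H b x - gam H b0 x)]
      exact pow_le_pow_left₀ (abs_nonneg _) this 2
    have e7 : P ^ 2 ≤ 2 * (P - D) ^ 2 + 2 * D ^ 2 := by nlinarith [sq_nonneg (P - 2 * D)]
    have e8 : et b x * P ^ 2 ≤ et b x * (2 * (P - D) ^ 2 + 2 * D ^ 2) :=
      mul_le_mul_of_nonneg_left e7 e0.le
    have e9 : et b x * D ^ 2 ≤ et b x * (a ^ 2 * dl H b0 b u x ^ 2) :=
      mul_le_mul_of_nonneg_left e6 e0.le
    calc et b x * P ^ 2 ≤ et b x * (2 * (P - D) ^ 2 + 2 * D ^ 2) := e8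
      _ = 2 * (et b x * (P - D) ^ 2) + 2 * (et b x * D ^ 2) := by ring
      _ ≤ 2 * (C * (ζ x ^ 2 / (et b x * gam H b0 x))) +
          2 * (et b x * (a ^ 2 * dl H b0 b u x ^ 2)) :=
          add_le_add (mul_le_mul_of_nonneg_left e5 (by norm_num))
            (mul_le_mul_of_nonneg_left e9 (by norm_num))
      _ = _ := by ring
  have h10 := Finset.sum_le_sum h9
  rw [Finset.sum_add_distrib, ← Finset.mul_sum, ← Finset.mul_sum, ← hS] at h10
  have h11 : ∑ x ∈ B, et b x * dl H b0 b u x ^ 2 ≤ 2 * C / d0 * NI H b0 b I u :=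
    (Finset.sum_le_univ_sum_of_nonneg fun x =>
      mul_nonneg (FA.et0 h.a1 x) (sq_nonneg _)).trans (h.dl_sq' u)
  have h12 : a ^ 2 * (1 / d0) ≤ t ^ 2 := by
    have e1 : a * (1 / d0) ≤ t := by
      have : a * (1 / d0) ≤ 2 * C * a / d0 := by
        rw [mul_one_div]
        exact div_le_div_of_nonneg_right (by nlinarith) hd.le
      rw [ht]
      linarith
    have e2 : 1 ≤ 1 / d0 := by
      rw [le_div_iff₀ hd]
      linarith
    have e3 : (a * (1 / d0)) ^ 2 ≤ t ^ 2 := pow_le_pow_left₀ (by positivity) e1 2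
    have e4 : a ^ 2 * (1 / d0) ≤ (a * (1 / d0)) ^ 2 := by
      have : (a * (1 / d0)) ^ 2 = a ^ 2 * (1 / d0) * (1 / d0) := by ring
      rw [this]
      exact le_mul_of_one_le_right (by positivity) e2
    linarith
  have h13 : 2 * C * S ≤ 4 * C * t ^ 2 * NI H b0 b I u := by
    have := mul_le_mul_of_nonneg_left h8 (show 0 ≤ 2 * C by linarith)
    linarith
  have h14 : 2 * a ^ 2 * (∑ x ∈ B, et b x * dl H b0 b u x ^ 2) ≤
      4 * C * t ^ 2 * NI H b0 b I u := by
    have e1 := mul_le_mul_of_nonneg_left h11 (show 0 ≤ 2 * a ^ 2 by positivity)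
    have e2 : 2 * a ^ 2 * (2 * C / d0 * NI H b0 b I u) =
        4 * C * NI H b0 b I u * (a ^ 2 * (1 / d0)) := by ring
    have e3 := mul_le_mul_of_nonneg_left h12 (show 0 ≤ 4 * C * NI H b0 b I u by positivity)
    linarith
  have h15 : 8 * C * t ^ 2 * NI H b0 b I u = 4 * C * t ^ 2 * NI H b0 b I u +
      4 * C * t ^ 2 * NI H b0 b I u := by ring
  rw [h15]
  linarith

end Dat

end Pool.Agent.ANS.FormM
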